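import Pool.Agent.H126V.Sys

/-! Mean values of quadratic symbols over the closed points of affine space. -/

set_option autoImplicit false

namespace Pool.Agent.H126V

open Filter Topology Pool.Agent.H341R2 MvPolynomial ComplexConjugate Complex
open Pool.Agent.H126R3 (Pt Res qy pk Yc Qc Qc_pos qy_Qc summable_y summable_Q card_Yc_le exists_F
  sum_fib pk_zero ptOf mem_ptOf fiberEquiv XF charK SqfreeNC sz)
open Pool.Agent.Helper919 (XX XX_apply XX_abs_le)

open Classical in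
/-- the quadratic symbol of a field -/
noncomputable def qc (κ : Type) [Field κ] (x : κ) : ℤ :=
  if x = 0 then 0 else if IsSquare x then 1 else -1

open Classical in
theorem qc_eq (κ : Type) [Field κ] [Fintype κ] (x : κ) : qc κ x = quadraticChar κ x := by
  rw [quadraticChar_apply]
  unfold qc quadraticCharFun
  by_cases h : x = 0
  · rw [if_pos h, if_pos h]
  · rw [if_neg h, if_neg h]
    by_cases h2 : IsSquare x
    · rw [if_pos h2, if_pos h2]
    · rw [if_neg h2, if_neg h2]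

theorem qc_congr {κ κ' : Type} [Field κ] [Field κ'] (e : κ ≃+* κ') (x : κ) :
    qc κ' (e x) = qc κ x := by
  unfold qc
  have h1 : e x = 0 ↔ x = 0 := map_eq_zero_iff e e.injective
  have h2 : IsSquare (e x) ↔ IsSquare x := by
    constructor
    · rintro ⟨z, hz⟩
      refine ⟨e.symm z, e.injective ?_⟩
      rw [map_mul, e.apply_symm_apply, hz]
    · rintro ⟨z, hz⟩
      exact ⟨e z, by rw [← map_mul, hz]⟩
  by_cases h3 : x = 0
  · rw [if_pos (h1.2 h3), if_pos h3]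
  · rw [if_neg (fun h => h3 (h1.1 h)), if_neg h3]
    by_cases h4 : IsSquare x
    · rw [if_pos (h2.2 h4), if_pos h4]
    · rw [if_neg (fun h => h4 (h2.1 h)), if_neg h4]

theorem qc_abs (κ : Type) [Field κ] (x : κ) : |(qc κ x : ℝ)| ≤ 1 := by
  unfold qc
  split_ifs <;> simp

theorem qc_mul (κ : Type) [Field κ] [Finite κ] (x z : κ) : qc κ (x * z) = qc κ x * qc κ z := by
  classical
  have := Fintype.ofFinite κ
  rw [qc_eq, qc_eq, qc_eq, map_mul]

variable {σ : Type} [Fintype σ]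

/-- the quadratic symbol of a polynomial at a closed point -/
noncomputable def ch (H : MvPolynomial σ ℤ) (y : Pt σ) : ℤ :=
  qc (Res y) (Ideal.Quotient.mk y.asIdeal H)

theorem ch_abs (H : MvPolynomial σ ℤ) (y : Pt σ) : |(ch H y : ℝ)| ≤ 1 := qc_abs _ _

theorem ch_mul (H H' : MvPolynomial σ ℤ) (y : Pt σ) : ch (H * H') y = ch H y * ch H' y := by
  unfold ch
  rw [map_mul, qc_mul]

theorem ch_ptOf {F : Type} [Field F] [Fintype F] (p : Nat.Primes)
    (h : Fintype.card F = (p : ℕ) ^ (0 + 1)) (H : MvPolynomial σ ℤ)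
    (t : σ → F) : ch H (ptOf t) = qc F (aeval (R := ℤ) t H) := by
  have ht := pk_zero p h t
  let φ : Res (ptOf t) →+* F := fiberEquiv (F := F) (ptOf t) ⟨t, rfl⟩
  have := Fintype.ofFinite (Res (ptOf t))
  have hc : Fintype.card (Res (ptOf t)) = Fintype.card F := by
    rw [h, ← Nat.card_eq_fintype_card]
    have := Pool.Agent.H126R3.qy_eq (ptOf t)
    rw [ht] at this
    exact this
  have hb : Function.Bijective φ :=
    (Fintype.bijective_iff_injective_and_card φ).2 ⟨φ.injective, hc⟩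
  have h1 : φ (Ideal.Quotient.mk (ptOf t).asIdeal H) = aeval (R := ℤ) t H := rfl
  rw [ch, ← h1]
  exact (qc_congr (RingEquiv.ofBijective φ hb) _).symm

theorem qy_ptOf {F : Type} [Field F] [Fintype F] (p : Nat.Primes)
    (h : Fintype.card F = (p : ℕ) ^ (0 + 1)) (t : σ → F) : qy (ptOf t) = p := by
  have := Pool.Agent.H126R3.qy_eq (ptOf t)
  rw [pk_zero p h t] at this
  simpa using this

open Classical in
/-- averages over the points with coordinates in the prime field -/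
theorem avg_eq (g : Pt σ → ℝ) (p : Nat.Primes) {F : Type} [Field F] [Fintype F]
    (h : Fintype.card F = (p : ℕ) ^ (0 + 1)) :
    avg g p = (∑ t : σ → F, g (ptOf t)) * ((p : ℕ) : ℝ) ^ (-(Fintype.card σ : ℝ)) := by
  unfold avg
  congr 1
  have h1 := sum_fib (σ := σ) (p, 0) h (fun y => g y.1)
  simp only [zero_add, Nat.cast_one, one_mul] at h1
  rw [← h1]
  exact Fintype.sum_equiv (Equiv.subtypeUnivEquiv (pk_zero p h)) _ _ fun t => rfl

/-- zeros of a polynomial over finite fields -/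
theorem zeros_le (A : MvPolynomial σ ℤ) (hA : A ≠ 0) : ∃ M : ℤ, M ≠ 0 ∧
    ∀ (F : Type) [Field F] [Fintype F], (M : F) ≠ 0 →
      (Nat.card {t : σ → F // aeval (R := ℤ) t A = 0} : ℝ) * Fintype.card F ≤
        A.totalDegree * (Fintype.card F : ℝ) ^ Fintype.card σ := by
  obtain ⟨μ, hμ⟩ : ∃ μ, coeff μ A ≠ 0 := by
    by_contra hcon
    push Not at hcon
    exact hA (MvPolynomial.ext _ _ (by simpa using hcon))
  refine ⟨coeff μ A, hμ, ?_⟩
  intro F _ _ hM
  have hw' : MvPolynomial.map (Int.castRingHom F) A ≠ 0 := by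
    intro h
    apply hM
    have := congrArg (coeff μ) h
    rw [coeff_map, coeff_zero] at this
    exact this
  have hbad := sz (MvPolynomial.map (Int.castRingHom F) A) hw'
  have hev : ∀ u : σ → F, eval u (MvPolynomial.map (Int.castRingHom F) A) =
      aeval (R := ℤ) u A := by
    intro u
    rw [eval_map]
    rfl
  simp only [hev] at hbad
  refine hbad.trans ?_
  have hdeg : ((MvPolynomial.map (Int.castRingHom F) A).totalDegree : ℝ) ≤ A.totalDegree := by
    exact_mod_cast Finset.sup_mono (support_map_subset _ _)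
  exact mul_le_mul_of_nonneg_right hdeg (by positivity)

theorem finite_dvd {M : ℤ} (hM : M ≠ 0) : {p : Nat.Primes | ((p : ℕ) : ℤ) ∣ M}.Finite := by
  have h1 : ((M.natAbs).primeFactors : Set ℕ).Finite := Finset.finite_toSet _
  refine (h1.preimage (f := fun p : Nat.Primes => (p : ℕ)) ?_).subset ?_
  · exact fun a _ b _ h => Subtype.ext h
  · intro p hp
    simp only [Set.mem_preimage, Finset.mem_coe, Nat.mem_primeFactors]
    exact ⟨p.2, Int.natCast_dvd.1 hp, Int.natAbs_ne_zero.2 hM⟩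

/-- decaying functions have mean value zero -/
theorem bdd_of_decay {φ : Nat.Primes → ℝ} {B K : ℝ} {M : ℤ} (hM : M ≠ 0) (hB : 0 ≤ B) (hK : 0 ≤ K)
    (h1 : ∀ p, |φ p| ≤ B)
    (h2 : ∀ p : Nat.Primes, ¬ ((p : ℕ) : ℤ) ∣ M → |φ p| ≤ K * ((p : ℕ) : ℝ) ^ (-(1 / 2) : ℝ)) :
    ∃ C : ℝ, ∀ ε : ℝ, 0 < ε → |E ε φ| ≤ C := by
  classical
  set ψ : Nat.Primes → ℝ := fun p => (if ((p : ℕ) : ℤ) ∣ M then B else 0) +
    K * ((p : ℕ) : ℝ) ^ (-(3 / 2) : ℝ) with hψ
  have hs : Summable ψ := by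
    refine Summable.add ?_ ((summable_prime_rpow (r := -(3 / 2)) (by norm_num)).mul_left K)
    refine summable_of_finite_support ((finite_dvd hM).subset fun p hp => ?_)
    by_contra h
    exact hp (if_neg h)
  refine ⟨∑' p, ψ p, fun ε hε => ?_⟩
  have := tsum_of_norm_bounded hs.hasSum (f := fun p => φ p * ((p : ℕ) : ℝ) ^ (-(1 + ε)))
    (fun p => by
      have hp := p_pos p
      have hp1 : (1 : ℝ) ≤ ((p : ℕ) : ℝ) := by exact_mod_cast p.2.one_lt.le
      rw [Real.norm_eq_abs, abs_mul, abs_of_nonneg (a := ((p : ℕ) : ℝ) ^ (-(1 + ε)))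
        (by positivity), hψ]
      by_cases h : ((p : ℕ) : ℤ) ∣ M
      · simp only [if_pos h]
        have h3 : ((p : ℕ) : ℝ) ^ (-(1 + ε)) ≤ 1 :=
          Real.rpow_le_one_of_one_le_of_nonpos hp1 (by linarith)
        have h4 : |φ p| * ((p : ℕ) : ℝ) ^ (-(1 + ε)) ≤ B * 1 :=
          mul_le_mul (h1 p) h3 (by positivity) hB
        have h5 : 0 ≤ K * ((p : ℕ) : ℝ) ^ (-(3 / 2) : ℝ) := by positivity
        linarith
      · simp only [if_neg h, zero_add]
        calc |φ p| * ((p : ℕ) : ℝ) ^ (-(1 + ε)) ≤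
            (K * ((p : ℕ) : ℝ) ^ (-(1 / 2) : ℝ)) * ((p : ℕ) : ℝ) ^ (-(1 + ε)) :=
              mul_le_mul_of_nonneg_right (h2 p h) (by positivity)
          _ = K * ((p : ℕ) : ℝ) ^ (-(1 / 2) - (1 + ε) : ℝ) := by
              rw [mul_assoc, ← Real.rpow_add hp]
              congr 2
          _ ≤ K * ((p : ℕ) : ℝ) ^ (-(3 / 2) : ℝ) :=
              mul_le_mul_of_nonneg_left
                (Real.rpow_le_rpow_of_exponent_le hp1 (by linarith)) hK)
  rw [Real.norm_eq_abs] at this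
  exact this

theorem negl_of_decay {φ : Nat.Primes → ℝ} {B K : ℝ} {M : ℤ} (hM : M ≠ 0) (hB : 0 ≤ B) (hK : 0 ≤ K)
    (h1 : ∀ p, |φ p| ≤ B)
    (h2 : ∀ p : Nat.Primes, ¬ ((p : ℕ) : ℤ) ∣ M → |φ p| ≤ K * ((p : ℕ) : ℝ) ^ (-(1 / 2) : ℝ)) :
    PNegl φ := by
  obtain ⟨C, hC⟩ := bdd_of_decay hM hB hK h1 h2
  refine PNegl.of_bdd ⟨C, ?_⟩
  filter_upwards [self_mem_nhdsWithin] with ε hε
  exact hC ε hε

theorem cast_ne {p : Nat.Primes} {F : Type} [Field F] [Fintype F]
    (h : Fintype.card F = (p : ℕ) ^ (0 + 1)) {M : ℤ} (hM : ¬ ((p : ℕ) : ℤ) ∣ M) : (M : F) ≠ 0 := by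
  have hpf : Fact (p : ℕ).Prime := ⟨p.2⟩
  have hc : CharP F p := charP_of_card_eq_prime_pow h
  intro h0
  exact hM ((CharP.intCast_eq_zero_iff F p M).1 h0)

/-- the proportion of zeros decays -/
theorem zeros_decay (A : MvPolynomial σ ℤ) (hA : A ≠ 0) : ∃ M : ℤ, M ≠ 0 ∧
    ∀ (p : Nat.Primes) (F : Type) [Field F] [Fintype F], Fintype.card F = (p : ℕ) ^ (0 + 1) →
      ¬ ((p : ℕ) : ℤ) ∣ M →
      (Nat.card {t : σ → F // aeval (R := ℤ) t A = 0} : ℝ) * ((p : ℕ) : ℝ) ^ (-(Fintype.card σ : ℝ)) ≤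
        A.totalDegree * ((p : ℕ) : ℝ) ^ (-(1 / 2) : ℝ) := by
  obtain ⟨M, hM, h⟩ := zeros_le A hA
  refine ⟨M, hM, fun p F _ _ hF hp => ?_⟩
  have h1 := h F (cast_ne hF hp)
  have hp0 := p_pos p
  have hp1 : (1 : ℝ) ≤ ((p : ℕ) : ℝ) := by exact_mod_cast p.2.one_lt.le
  have hcard : (Fintype.card F : ℝ) = ((p : ℕ) : ℝ) := by
    rw [hF]
    push_cast
    simp
  rw [hcard] at h1
  have h2 : (Nat.card {t : σ → F // aeval (R := ℤ) t A = 0} : ℝ) ≤
      A.totalDegree * ((p : ℕ) : ℝ) ^ ((Fintype.card σ : ℝ) - 1) := by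
    rw [Real.rpow_sub hp0, Real.rpow_one, Real.rpow_natCast, ← mul_div_assoc, le_div_iff₀ hp0]
    exact h1
  calc (Nat.card {t : σ → F // aeval (R := ℤ) t A = 0} : ℝ) *
        ((p : ℕ) : ℝ) ^ (-(Fintype.card σ : ℝ))
      ≤ A.totalDegree * ((p : ℕ) : ℝ) ^ ((Fintype.card σ : ℝ) - 1) *
          ((p : ℕ) : ℝ) ^ (-(Fintype.card σ : ℝ)) :=
        mul_le_mul_of_nonneg_right h2 (by positivity)
    _ = A.totalDegree * ((p : ℕ) : ℝ) ^ (-1 : ℝ) := by
        rw [mul_assoc, ← Real.rpow_add hp0]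
        congr 2
        ring
    _ ≤ A.totalDegree * ((p : ℕ) : ℝ) ^ (-(1 / 2) : ℝ) :=
        mul_le_mul_of_nonneg_left (Real.rpow_le_rpow_of_exponent_le hp1 (by norm_num))
          (Nat.cast_nonneg _)

theorem exists_sq_mul (H : MvPolynomial σ ℤ) (hH : H ≠ 0) :
    ∃ A P : MvPolynomial σ ℤ, H = A ^ 2 * P ∧ Squarefree P := by
  induction H using UniqueFactorizationMonoid.induction_on_prime with
  | h₁ => exact absurd rfl hH
  | h₂ x hx => exact ⟨1, x, by ring, hx.squarefree⟩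
  | h₃ a p ha hp ih =>
    obtain ⟨A, P, h1, h2⟩ := ih ha
    by_cases h : p ∣ P
    · obtain ⟨P', rfl⟩ := h
      refine ⟨p * A, P', ?_, h2.of_mul_right⟩
      rw [h1]
      ring
    · refine ⟨A, p * P, by rw [h1]; ring, ?_⟩
      rw [squarefree_mul_iff]
      refine ⟨?_, hp.squarefree, h2⟩
      exact hp.irreducible.isRelPrime_iff_not_dvd.2 h

end Pool.Agent.H126V
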