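import Pool.Agent.H126V.Taub

/-! Averages over the fibres of products of hyperelliptic fibrations. -/

set_option autoImplicit false

namespace Pool.Agent.H126V.FA

open Filter Topology NumberField IsDedekindDomain Pool.Agent.H341R2 Pool.Agent.H341R2.EC
open Pool.Agent.H921R2.TatePole (nm two_le_nm card_above below below_le_nm)
open Pool.Agent.H126U Pool.Agent.H126U.ST Pool.Agent.H126U.JT Pool.Agent.H126V.Taub Polynomial
open Pool.Agent.H126T (affPts affPts_eq trace_bound trace_one pairs char_v nm_pos')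

variable {K : Type} [Field K] [NumberField K]

/-- averages of functions which are a constant plus a sum of twists -/
theorem mainA {κ J : Type} (P : Finset J) (t : J → HeightOneSpectrum (𝓞 K) → ℝ) (b : J → ℝ)
    (hb : ∀ j ∈ P, 0 < b j) (ht : ∀ j ∈ P, ∀ v, |t j v| ≤ b j) (e : κ → J → 𝓞 K)
    (he : ∀ k, ∀ j ∈ P, e k j ≠ 0)
    (hsep : ∀ k l, k ≠ l → ∀ j ∈ P, ¬ IsSquare ((e k j * e l j : 𝓞 K) : K)) (c : ℝ)
    (S : κ → Finset (HeightOneSpectrum (𝓞 K))) (φ : κ → HeightOneSpectrum (𝓞 K) → ℝ)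
    (hφ : ∀ k v, v ∉ S k → φ k v = c + ∑ j ∈ P, t j v * (chi (e k j) v : ℝ))
    (T : Finset κ) (η : ℝ) (hη : 0 < η) :
    ∀ᶠ X : ℕ in atTop, ∑ k ∈ T, (LA (S k) X (φ k) - c) ^ 2 ≤ (∑ j ∈ P, b j) ^ 2 + η := by
  classical
  set B : ℝ := ∑ j ∈ P, b j with hB
  have hB0 : 0 ≤ B := Finset.sum_nonneg fun p hp => (hb p hp).le
  set ψ : κ → HeightOneSpectrum (𝓞 K) → ℝ := fun k v =>
    ∑ j ∈ P, t j v * (chi (e k j) v : ℝ) with hψ
  have hψb : ∀ k v, |ψ k v| ≤ B := by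
    intro k v
    refine (Finset.abs_sum_le_sum_abs _ _).trans (Finset.sum_le_sum fun p hp => ?_)
    rw [abs_mul]
    exact (mul_le_of_le_one_right (abs_nonneg _) (chi_abs _ v)).trans (ht p hp v)
  refine perturb T (fun k X => ∑ j ∈ P, mn (VS ∅ X)
    (fun v => t j v * (chi (e k j) v : ℝ))) _ (fun η' hη' =>
      bessel_sum T P t b hb ht e (fun k _ j hj => he k j hj)
        (fun k _ l _ hkl j hj => hsep k l hkl j hj) η' hη') (fun k _ => ?_) η hη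
  have hφb : ∀ v, v ∉ S k → |φ k v| ≤ |c| + B := by
    intro v hv
    rw [hφ k v hv]
    exact (abs_add_le _ _).trans (add_le_add le_rfl (hψb k v))
  have h1 := LA_mn (S k) (φ := φ k) (B := |c| + B) (by positivity) hφb
  have h2 := mn_change' (S k) ∅ (φ := ψ k) (b := B) (hψb k)
  have h4 := h1.add h2
  rw [add_zero] at h4
  refine h4.congr' ?_
  filter_upwards [(tendsto_card_VS (S k)).eventually_gt_atTop 0] with X hX
  have h5 : mn (VS (S k) X) (φ k) = c + mn (VS (S k) X) (ψ k) := by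
    have h6 := mn_add (VS (S k) X) (fun _ => c) (ψ k)
    have h7 : mn (VS (S k) X) (fun _ : HeightOneSpectrum (𝓞 K) => c) = c := by
      unfold mn
      rw [Finset.sum_const, nsmul_eq_mul, mul_comm]
      exact mul_div_cancel_right₀ _ hX.ne'
    rw [h7] at h6
    rw [← h6]
    refine mn_congr _ fun v hv => ?_
    exact hφ k v (Finset.mem_filter.1 hv).2
  have h8 : mn (VS ∅ X) (ψ k) = ∑ j ∈ P, mn (VS ∅ X)
      (fun v => t j v * (chi (e k j) v : ℝ)) := by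
    rw [hψ]
    exact mn_sum (VS ∅ X) P _
  rw [h5, h8]
  ring

variable {σ : Type} [Fintype σ]

/-- the fibre of a polynomial -/
noncomputable def fib (v : HeightOneSpectrum (𝓞 K)) (t : σ → 𝓞 K ⧸ v.asIdeal)
    (f : (MvPolynomial σ (𝓞 K))[X]) : (𝓞 K ⧸ v.asIdeal)[X] :=
  f.map (MvPolynomial.eval₂Hom (Ideal.Quotient.mk v.asIdeal) t)

/-- the trace of a fibre -/
noncomputable def at1 (v : HeightOneSpectrum (𝓞 K)) (t : σ → 𝓞 K ⧸ v.asIdeal)
    (f : (MvPolynomial σ (𝓞 K))[X]) (d : 𝓞 K) : ℤ :=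
  (nm v : ℤ) - Nat.card {P : (𝓞 K ⧸ v.asIdeal) × (𝓞 K ⧸ v.asIdeal) //
    Ideal.Quotient.mk v.asIdeal d * P.2 ^ 2 = (fib v t f).eval P.1}

theorem at1_eq (v : HeightOneSpectrum (𝓞 K)) (t : σ → 𝓞 K ⧸ v.asIdeal)
    (f : (MvPolynomial σ (𝓞 K))[X]) (d : 𝓞 K) :
    at1 v t f d = (Nat.card (𝓞 K ⧸ v.asIdeal) : ℤ) ^ 1 + 1 -
      (affPts (𝓞 K ⧸ v.asIdeal) (fib v t f) (Ideal.Quotient.mk v.asIdeal d) 1 + 1) := by
  rw [affPts_eq (fib v t f) (Ideal.Quotient.mk v.asIdeal d) 1 (𝓞 K ⧸ v.asIdeal) (by rw [pow_one])]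
  have e1 : {P : (𝓞 K ⧸ v.asIdeal) × (𝓞 K ⧸ v.asIdeal) //
      algebraMap (𝓞 K ⧸ v.asIdeal) (𝓞 K ⧸ v.asIdeal) (Ideal.Quotient.mk v.asIdeal d) * P.2 ^ 2 =
        aeval P.1 (fib v t f)} =
      {P : (𝓞 K ⧸ v.asIdeal) × (𝓞 K ⧸ v.asIdeal) //
        Ideal.Quotient.mk v.asIdeal d * P.2 ^ 2 = (fib v t f).eval P.1} := rfl
  rw [e1]
  have e2 : (nm v : ℤ) = Nat.card (𝓞 K ⧸ v.asIdeal) := rfl
  unfold at1
  rw [e2]
  ring

theorem at1_twist {v : HeightOneSpectrum (𝓞 K)} (t : σ → 𝓞 K ⧸ v.asIdeal)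
    (f : (MvPolynomial σ (𝓞 K))[X]) {d : 𝓞 K} (h2 : (2 : 𝓞 K) ∉ v.asIdeal) (hd : d ∉ v.asIdeal) :
    at1 v t f d = chi d v * at1 v t f 1 := by
  have h1 : (1 : 𝓞 K) ∉ v.asIdeal := fun h => v.isPrime.ne_top ((Ideal.eq_top_iff_one _).2 h)
  rw [at1_eq, at1_eq, trace_one (char_v h2) _ _ (mk_ne hd), trace_one (char_v h2) _ _ (mk_ne h1)]
  unfold chi
  rw [map_one, map_one]
  ring

theorem at1_bound {v : HeightOneSpectrum (𝓞 K)} (t : σ → 𝓞 K ⧸ v.asIdeal)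
    {f : (MvPolynomial σ (𝓞 K))[X]} (hodd : Odd f.natDegree) (h2 : (2 : 𝓞 K) ∉ v.asIdeal)
    (hf : MvPolynomial.eval₂Hom (Ideal.Quotient.mk v.asIdeal) t f.leadingCoeff ≠ 0) :
    |(at1 v t f 1 : ℝ)| ≤ (f.natDegree - 1) * Real.sqrt (nm v) := by
  have h1 : (1 : 𝓞 K) ∉ v.asIdeal := fun h => v.isPrime.ne_top ((Ideal.eq_top_iff_one _).2 h)
  have hdeg : (fib v t f).natDegree = f.natDegree := natDegree_map_of_leadingCoeff_ne_zero _ hf
  have h := trace_bound (char_v h2) (fib v t f) (by rw [hdeg]; exact hodd)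
    (Ideal.Quotient.mk v.asIdeal 1) (mk_ne h1) 1 one_ne_zero
  rw [← at1_eq, hdeg, pow_one] at h
  exact h

end Pool.Agent.H126V.FA
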