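import Mathlib

/-! Abel summation for mean squares. -/

set_option autoImplicit false

namespace Pool.Agent.H126V.FB

open Filter Topology

/-- a bound for the partial sums gives a bound for the Dirichlet series -/
theorem abel_scalar (g : ℕ → ℝ) {a K0 : ℝ} (ha : 0 ≤ a) (hK : 0 ≤ K0)
    (hb : ∀ N : ℕ, |∑ n ∈ Finset.Icc 1 N, g n| ≤ a * N + K0) {s : ℝ} (hs : 1 < s)
    (hsum : Summable fun n : ℕ => g n * (n : ℝ) ^ (-s)) :
    (s - 1) * |∑' n : ℕ, g n * (n : ℝ) ^ (-s)| ≤ s * a + K0 * (s - 1) := by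
  have hs0 : 0 < s := by linarith
  have hterm : ∀ n : ℕ, LSeries.term (fun n => (g n : ℂ)) (s : ℂ) n =
      ((g n * (n : ℝ) ^ (-s) : ℝ) : ℂ) := by
    intro n
    rcases eq_or_ne n 0 with rfl | hn
    · rw [LSeries.term_zero]
      simp [Real.zero_rpow (by linarith : (-s) ≠ 0)]
    · rw [LSeries.term_of_ne_zero hn, Real.rpow_neg (Nat.cast_nonneg _), ← div_eq_mul_inv,
        Complex.ofReal_div, Complex.ofReal_cpow (Nat.cast_nonneg _)]
      simp
  have hS : LSeriesSummable (fun n => (g n : ℂ)) (s : ℂ) := by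
    unfold LSeriesSummable
    rw [funext hterm]
    exact Complex.summable_ofReal.2 hsum
  have hL : LSeries (fun n => (g n : ℂ)) (s : ℂ) = ((∑' n : ℕ, g n * (n : ℝ) ^ (-s) : ℝ) : ℂ) := by
    unfold LSeries
    rw [funext hterm, Complex.ofReal_tsum]
  have hsumn : ∀ N : ℕ, ‖∑ k ∈ Finset.Icc 1 N, (g k : ℂ)‖ = |∑ k ∈ Finset.Icc 1 N, g k| := by
    intro N
    rw [← Complex.ofReal_sum, Complex.norm_real, Real.norm_eq_abs]
  have hO : (fun n : ℕ => ∑ k ∈ Finset.Icc 1 n, (g k : ℂ)) =O[atTop] fun n : ℕ => (n : ℝ) ^ (1 : ℝ) := by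
    refine Asymptotics.IsBigO.of_bound (a + K0) ?_
    filter_upwards [eventually_ge_atTop 1] with n hn
    have hn1 : (1 : ℝ) ≤ n := by exact_mod_cast hn
    rw [hsumn, Real.rpow_one, Real.norm_eq_abs, abs_of_nonneg (by linarith : (0 : ℝ) ≤ n)]
    refine (hb n).trans ?_
    nlinarith
  have hI := LSeries_eq_mul_integral (fun n => (g n : ℂ)) (r := 1) zero_le_one
    (s := (s : ℂ)) (by rw [Complex.ofReal_re]; exact hs) hS hO
  have hint : ‖∫ t in Set.Ioi (1 : ℝ), (∑ k ∈ Finset.Icc 1 ⌊t⌋₊, (g k : ℂ)) *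
      (t : ℂ) ^ (-((s : ℂ) + 1))‖ ≤ ∫ t in Set.Ioi (1 : ℝ), (a * t ^ (-s) + K0 * t ^ (-s - 1)) := by
    refine MeasureTheory.norm_integral_le_of_norm_le ?_ ?_
    · exact ((integrableOn_Ioi_rpow_of_lt (by linarith) one_pos).const_mul a).add
        ((integrableOn_Ioi_rpow_of_lt (by linarith) one_pos).const_mul K0)
    · refine (MeasureTheory.ae_restrict_iff' measurableSet_Ioi).2
        (Filter.Eventually.of_forall fun t ht => ?_)
      have ht1 : 1 < t := ht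
      have ht0 : 0 < t := by linarith
      rw [norm_mul, hsumn, Complex.norm_cpow_eq_rpow_re_of_pos ht0]
      have h1 : (-((s : ℂ) + 1)).re = -s - 1 := by
        simp
        ring
      rw [h1]
      have h2 : t ^ (-s) = t * t ^ (-s - 1) := by
        nth_rewrite 2 [← Real.rpow_one t]
        rw [← Real.rpow_add ht0]
        congr 1
        ring
      have h3 : (0 : ℝ) < t ^ (-s - 1) := Real.rpow_pos_of_pos ht0 _
      have h4 : (⌊t⌋₊ : ℝ) ≤ t := Nat.floor_le ht0.le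
      calc |∑ k ∈ Finset.Icc 1 ⌊t⌋₊, g k| * t ^ (-s - 1)
          ≤ (a * ⌊t⌋₊ + K0) * t ^ (-s - 1) := mul_le_mul_of_nonneg_right (hb _) h3.le
        _ ≤ (a * t + K0) * t ^ (-s - 1) := by
            refine mul_le_mul_of_nonneg_right ?_ h3.le
            have := mul_le_mul_of_nonneg_left h4 ha
            linarith
        _ = a * t ^ (-s) + K0 * t ^ (-s - 1) := by
            rw [h2]
            ring
  have hval : ∫ t in Set.Ioi (1 : ℝ), (a * t ^ (-s) + K0 * t ^ (-s - 1)) =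
      a / (s - 1) + K0 / s := by
    rw [MeasureTheory.integral_add
      ((integrableOn_Ioi_rpow_of_lt (by linarith) one_pos).const_mul a)
      ((integrableOn_Ioi_rpow_of_lt (by linarith) one_pos).const_mul K0),
      MeasureTheory.integral_const_mul, MeasureTheory.integral_const_mul,
      integral_Ioi_rpow_of_lt (by linarith) one_pos, integral_Ioi_rpow_of_lt (by linarith) one_pos,
      Real.one_rpow, Real.one_rpow]
    have h1 : -s + 1 ≠ 0 := by linarith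
    have h2 : s - 1 ≠ 0 := by linarith
    have h3 : -s - 1 + 1 ≠ 0 := by linarith
    have h4 : s ≠ 0 := hs0.ne'
    have e1 : -1 / (-s + 1) = 1 / (s - 1) := by
      rw [div_eq_div_iff h1 h2]
      ring
    have e2 : -1 / (-s - 1 + 1) = 1 / s := by
      rw [div_eq_div_iff h3 h4]
      ring
    rw [e1, e2]
    ring
  rw [hval] at hint
  have h5 : |∑' n : ℕ, g n * (n : ℝ) ^ (-s)| ≤ s * (a / (s - 1) + K0 / s) := by
    have h6 : ‖LSeries (fun n => (g n : ℂ)) (s : ℂ)‖ = |∑' n : ℕ, g n * (n : ℝ) ^ (-s)| := by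
      rw [hL, Complex.norm_real, Real.norm_eq_abs]
    rw [← h6, hI, norm_mul, Complex.norm_real, Real.norm_eq_abs, abs_of_pos hs0]
    exact mul_le_mul_of_nonneg_left hint hs0.le
  have h7 := mul_le_mul_of_nonneg_left h5 (by linarith : 0 ≤ s - 1)
  refine h7.trans (le_of_eq ?_)
  have h2 : s - 1 ≠ 0 := by linarith
  field_simp

theorem abel_vec {κ : Type} (T : Finset κ) (g : κ → ℕ → ℝ) {a K0 : ℝ} (ha : 0 ≤ a)
    (hK : 0 ≤ K0)
    (hb : ∀ N : ℕ, Real.sqrt (∑ k ∈ T, (∑ n ∈ Finset.Icc 1 N, g k n) ^ 2) ≤ a * N + K0)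
    {s : ℝ} (hs : 1 < s) (hsum : ∀ k ∈ T, Summable fun n : ℕ => g k n * (n : ℝ) ^ (-s)) :
    Real.sqrt (∑ k ∈ T, ((s - 1) * ∑' n : ℕ, g k n * (n : ℝ) ^ (-s)) ^ 2) ≤
      s * a + K0 * (s - 1) := by
  set G : κ → ℝ := fun k => ∑' n : ℕ, g k n * (n : ℝ) ^ (-s) with hG
  set R : ℝ := Real.sqrt (∑ k ∈ T, G k ^ 2) with hR
  have hs1 : 0 ≤ s - 1 := by linarith
  have h0 : Real.sqrt (∑ k ∈ T, ((s - 1) * G k) ^ 2) = (s - 1) * R := by
    have : ∑ k ∈ T, ((s - 1) * G k) ^ 2 = (s - 1) ^ 2 * ∑ k ∈ T, G k ^ 2 := by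
      rw [Finset.mul_sum]
      exact Finset.sum_congr rfl fun k _ => by ring
    rw [this, Real.sqrt_mul (sq_nonneg _), Real.sqrt_sq hs1]
  rw [h0]
  have hR0 : 0 ≤ R := Real.sqrt_nonneg _
  rcases hR0.eq_or_lt with h | hRpos
  · rw [← h, mul_zero]
    positivity
  have hRsq : R ^ 2 = ∑ k ∈ T, G k ^ 2 := Real.sq_sqrt (Finset.sum_nonneg fun _ _ => sq_nonneg _)
  have hu : ∑ k ∈ T, (G k / R) ^ 2 = 1 := by
    have : ∑ k ∈ T, (G k / R) ^ 2 = (∑ k ∈ T, G k ^ 2) / R ^ 2 := by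
      rw [Finset.sum_div]
      exact Finset.sum_congr rfl fun k _ => by rw [div_pow]
    rw [this, ← hRsq, div_self (by positivity)]
  have hsumu : ∀ k ∈ T, Summable fun n : ℕ => G k / R * g k n * (n : ℝ) ^ (-s) := by
    intro k hk
    refine ((hsum k hk).mul_left (G k / R)).congr fun n => ?_
    ring
  have hb' : ∀ N : ℕ, |∑ n ∈ Finset.Icc 1 N, ∑ k ∈ T, G k / R * g k n| ≤ a * N + K0 := by
    intro N
    refine le_trans ?_ (hb N)
    rw [Finset.sum_comm]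
    have h1 : ∑ k ∈ T, ∑ n ∈ Finset.Icc 1 N, G k / R * g k n =
        ∑ k ∈ T, G k / R * ∑ n ∈ Finset.Icc 1 N, g k n :=
      Finset.sum_congr rfl fun k _ => by rw [Finset.mul_sum]
    rw [h1]
    refine Real.abs_le_sqrt ?_
    refine (Finset.sum_mul_sq_le_sq_mul_sq T _ _).trans ?_
    rw [hu, one_mul]
  have hsum' : Summable fun n : ℕ => (∑ k ∈ T, G k / R * g k n) * (n : ℝ) ^ (-s) := by
    refine (summable_sum hsumu).congr fun n => ?_
    rw [Finset.sum_mul]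
  have h2 := abel_scalar (fun n => ∑ k ∈ T, G k / R * g k n) ha hK hb' hs hsum'
  have h3 : ∑' n : ℕ, (∑ k ∈ T, G k / R * g k n) * (n : ℝ) ^ (-s) = R := by
    have e1 : ∀ n : ℕ, (∑ k ∈ T, G k / R * g k n) * (n : ℝ) ^ (-s) =
        ∑ k ∈ T, G k / R * g k n * (n : ℝ) ^ (-s) := fun n => by rw [Finset.sum_mul]
    rw [tsum_congr e1, Summable.tsum_finsetSum hsumu]
    have e2 : ∀ k ∈ T, ∑' n : ℕ, G k / R * g k n * (n : ℝ) ^ (-s) = G k ^ 2 / R := by
      intro k _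
      have : ∀ n : ℕ, G k / R * g k n * (n : ℝ) ^ (-s) = G k / R * (g k n * (n : ℝ) ^ (-s)) :=
        fun n => by ring
      rw [tsum_congr this, tsum_mul_left]
      show G k / R * G k = _
      ring
    rw [Finset.sum_congr rfl e2, ← Finset.sum_div, ← hRsq, sq, mul_div_assoc, div_self hRpos.ne',
      mul_one]
  rw [h3, abs_of_pos hRpos] at h2
  exact h2

theorem abel_event {κ : Type} (T : Finset κ) (g : κ → ℕ → ℝ) {B : ℝ} (hB : 0 ≤ B)
    (hb : ∀ η : ℝ, 0 < η → ∀ᶠ N : ℕ in atTop,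
      ∑ k ∈ T, ((∑ n ∈ Finset.Icc 1 N, g k n) / N) ^ 2 ≤ B + η)
    (hsum : ∀ k ∈ T, ∀ s : ℝ, 1 < s → Summable fun n : ℕ => g k n * (n : ℝ) ^ (-s)) (η : ℝ)
    (hη : 0 < η) :
    ∀ᶠ s : ℝ in 𝓝[>] 1, ∑ k ∈ T, ((s - 1) * ∑' n : ℕ, g k n * (n : ℝ) ^ (-s)) ^ 2 ≤ B + η := by
  set a : ℝ := Real.sqrt (B + η / 2) with ha
  have ha0 : 0 ≤ a := Real.sqrt_nonneg _
  have hasq : a ^ 2 = B + η / 2 := Real.sq_sqrt (by positivity)
  obtain ⟨N0, hN0⟩ := eventually_atTop.1 (hb (η / 2) (by positivity))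
  set Q : ℕ → ℝ := fun N => Real.sqrt (∑ k ∈ T, (∑ n ∈ Finset.Icc 1 N, g k n) ^ 2) with hQ
  have hQ0 : ∀ N, 0 ≤ Q N := fun N => Real.sqrt_nonneg _
  set K0 : ℝ := ∑ N ∈ Finset.range (N0 + 1), Q N with hK0
  have hK : 0 ≤ K0 := Finset.sum_nonneg fun N _ => hQ0 N
  have hbd : ∀ N : ℕ, Q N ≤ a * N + K0 := by
    intro N
    by_cases hN : N ≤ N0
    · have h1 : Q N ≤ K0 := Finset.single_le_sum (fun N _ => hQ0 N)
        (Finset.mem_range.2 (by omega))
      have h2 : 0 ≤ a * (N : ℝ) := by positivity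
      linarith
    · have hNpos : (0 : ℝ) < N := by
        have : 0 < N := by omega
        exact_mod_cast this
      have h1 := hN0 N (by omega)
      have h2 : Q N ≤ a * N := by
        refine Real.sqrt_le_iff.2 ⟨by positivity, ?_⟩
        have h3 : ∑ k ∈ T, (∑ n ∈ Finset.Icc 1 N, g k n) ^ 2 =
            (∑ k ∈ T, ((∑ n ∈ Finset.Icc 1 N, g k n) / N) ^ 2) * (N : ℝ) ^ 2 := by
          rw [Finset.sum_mul]
          refine Finset.sum_congr rfl fun k _ => ?_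
          rw [div_pow, div_mul_cancel₀ _ (by positivity)]
        rw [h3, mul_pow, hasq]
        exact mul_le_mul_of_nonneg_right h1 (by positivity)
      linarith
  have hlim : Tendsto (fun s : ℝ => (s * a + K0 * (s - 1)) ^ 2) (𝓝[>] 1) (𝓝 (B + η / 2)) := by
    have hc : Continuous fun s : ℝ => (s * a + K0 * (s - 1)) ^ 2 := by fun_prop
    have := (hc.tendsto 1).mono_left (nhdsWithin_le_nhds (s := Set.Ioi 1))
    have e : (1 * a + K0 * ((1 : ℝ) - 1)) ^ 2 = B + η / 2 := by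
      rw [sub_self, mul_zero, add_zero, one_mul, hasq]
    rwa [e] at this
  filter_upwards [hlim.eventually (eventually_le_nhds (show B + η / 2 < B + η by linarith)),
    self_mem_nhdsWithin] with s h1 h2
  have hs : 1 < s := h2
  have h3 := abel_vec T g ha0 hK hbd hs fun k hk => hsum k hk s hs
  have h4 : 0 ≤ s * a + K0 * (s - 1) := (Real.sqrt_nonneg _).trans h3
  have h5 := (Real.sqrt_le_left h4).1 h3
  exact h5.trans h1

/-- small perturbations -/
theorem perturb_s {κ : Type} (T : Finset κ) (x y : κ → ℝ → ℝ) {B : ℝ} (hB : 0 ≤ B)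
    {l : Filter ℝ}
    (hx : ∀ η : ℝ, 0 < η → ∀ᶠ s in l, ∑ k ∈ T, (x k s) ^ 2 ≤ B + η)
    (hxy : ∀ k ∈ T, Tendsto (fun s => y k s - x k s) l (𝓝 0)) (η : ℝ) (hη : 0 < η) :
    ∀ᶠ s in l, ∑ k ∈ T, (y k s) ^ 2 ≤ B + η := by
  set U : ℝ := B + η / 2 + 1 with hU
  have hU1 : 1 ≤ U := by rw [hU]; linarith
  have h1 : Tendsto (fun s => ∑ k ∈ T, (2 * U * |y k s - x k s| + (y k s - x k s) ^ 2)) l
      (𝓝 (∑ k ∈ T, (2 * U * |(0 : ℝ)| + (0 : ℝ) ^ 2))) :=
    tendsto_finsetSum T fun k hk => ((hxy k hk).abs.const_mul _).add ((hxy k hk).pow 2)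
  have e0 : (∑ k ∈ T, (2 * U * |(0 : ℝ)| + (0 : ℝ) ^ 2)) = 0 := by simp
  rw [e0] at h1
  filter_upwards [hx (η / 2) (by positivity),
    h1.eventually (eventually_le_nhds (show (0 : ℝ) < η / 2 by positivity))] with s h2 h3
  have h4 : ∀ k ∈ T, (y k s) ^ 2 ≤ (x k s) ^ 2 +
      (2 * U * |y k s - x k s| + (y k s - x k s) ^ 2) := by
    intro k hk
    have h5 : |x k s| ≤ U := by
      have h6 : (x k s) ^ 2 ≤ B + η / 2 :=
        (Finset.single_le_sum (f := fun k => (x k s) ^ 2) (fun _ _ => sq_nonneg _) hk).trans h2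
      refine abs_le_of_sq_le_sq (h6.trans ?_) (by linarith)
      nlinarith
    have h7 : x k s * (y k s - x k s) ≤ U * |y k s - x k s| := by
      refine (le_abs_self _).trans ?_
      rw [abs_mul]
      exact mul_le_mul_of_nonneg_right h5 (abs_nonneg _)
    have h8 : (y k s) ^ 2 = (x k s) ^ 2 + (2 * (x k s * (y k s - x k s)) +
        (y k s - x k s) ^ 2) := by ring
    rw [h8]
    linarith
  refine (Finset.sum_le_sum h4).trans ?_
  rw [Finset.sum_add_distrib]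
  linarith

end Pool.Agent.H126V.FB
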