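import Pool.Agent.H126V.FA
import Pool.Agent.H126V.FB

/-! Dirichlet series with coefficients which are averages over fibres. -/

set_option autoImplicit false

namespace Pool.Agent.H126V.FC

open Filter Topology NumberField IsDedekindDomain Pool.Agent.H341R2 Pool.Agent.H341R2.EC
open Pool.Agent.H921R2.TatePole (nm two_le_nm card_above below below_le_nm)
open Pool.Agent.H126U Pool.Agent.H126U.ST Pool.Agent.H126U.JT Pool.Agent.H126V.Taub
open Pool.Agent.H126V.FA Pool.Agent.H126V.FB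

variable {K : Type} [Field K] [NumberField K]

open Classical in
/-- the terms of the Dirichlet series -/
noncomputable def term (S : Finset (HeightOneSpectrum (𝓞 K))) (φ : HeightOneSpectrum (𝓞 K) → ℝ)
    (s : ℝ) (v : HeightOneSpectrum (𝓞 K)) : ℝ :=
  if v ∈ S then 0 else φ v * Real.log (nm v) * (nm v : ℝ) ^ (-s)

/-- the Dirichlet series with coefficients `φ(v) log q_v` -/
noncomputable def DS (S : Finset (HeightOneSpectrum (𝓞 K))) (φ : HeightOneSpectrum (𝓞 K) → ℝ)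
    (s : ℝ) : ℝ := ∑' v : HeightOneSpectrum (𝓞 K), term S φ s v

theorem summable_term (S : Finset (HeightOneSpectrum (𝓞 K))) {φ : HeightOneSpectrum (𝓞 K) → ℝ}
    {C : ℝ} (hφ : ∀ v, v ∉ S → |φ v| ≤ C) (hC : 0 ≤ C) {s : ℝ} (hs : 1 < s) :
    Summable (term S φ s) := by
  classical
  set δ : ℝ := (s - 1) / 2 with hδ
  have hδ0 : 0 < δ := by rw [hδ]; linarith
  have h1 : Summable fun v : HeightOneSpectrum (𝓞 K) => (nm v : ℝ) ^ (δ - s) :=
    (sysK K).summable (δ - s) (by rw [hδ]; linarith)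
  refine Summable.of_norm_bounded (h1.mul_left (C / δ)) fun v => ?_
  have hq2 : (2 : ℝ) ≤ nm v := by exact_mod_cast two_le_nm v
  have hq : (0 : ℝ) < nm v := by linarith
  unfold term
  split_ifs with h
  · rw [norm_zero]
    positivity
  · have h2 : Real.log (nm v) ≤ (nm v : ℝ) ^ δ / δ := Real.log_le_rpow_div hq.le hδ0
    have h3 : 0 ≤ Real.log (nm v) := Real.log_nonneg (by linarith)
    have h4 : (0 : ℝ) < (nm v : ℝ) ^ (-s) := Real.rpow_pos_of_pos hq _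
    rw [Real.norm_eq_abs, abs_mul, abs_mul, abs_of_pos h4, abs_of_nonneg h3]
    calc |φ v| * Real.log (nm v) * (nm v : ℝ) ^ (-s)
        ≤ C * ((nm v : ℝ) ^ δ / δ) * (nm v : ℝ) ^ (-s) :=
          mul_le_mul_of_nonneg_right (mul_le_mul (hφ v h) h2 h3 hC) h4.le
      _ = C / δ * (nm v : ℝ) ^ (δ - s) := by
          rw [sub_eq_add_neg, Real.rpow_add hq]
          ring

/-- the coefficients of the Dirichlet series over the integers -/
noncomputable def cf (S : Finset (HeightOneSpectrum (𝓞 K))) (φ : HeightOneSpectrum (𝓞 K) → ℝ)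
    (n : ℕ) : ℝ := ∑ v ∈ (VS S n).filter (fun v => nm v = n), φ v * Real.log (nm v)

theorem fiber_sum (S : Finset (HeightOneSpectrum (𝓞 K))) (φ : HeightOneSpectrum (𝓞 K) → ℝ)
    (s : ℝ) (n : ℕ) :
    ∑' v : (nm (K := K)) ⁻¹' {n}, term S φ s v.1 = cf S φ n * (n : ℝ) ^ (-s) := by
  classical
  have h1 : (nm (K := K)) ⁻¹' {n} = (((VX K n).filter (fun v => nm v = n) :
      Finset (HeightOneSpectrum (𝓞 K))) : Set (HeightOneSpectrum (𝓞 K))) := by
    ext v
    simp only [Set.mem_preimage, Set.mem_singleton_iff, Finset.coe_filter, Set.mem_ofPred_eq,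
      mem_VX]
    constructor
    · intro h
      exact ⟨h.le, h⟩
    · exact fun h => h.2
  rw [h1, Finset.tsum_subtype' ((VX K n).filter (fun v => nm v = n)) (term S φ s)]
  unfold cf VS
  rw [Finset.sum_mul, Finset.sum_filter, Finset.sum_filter, Finset.sum_filter]
  refine Finset.sum_congr rfl fun v _ => ?_
  unfold term
  by_cases h2 : nm v = n
  · by_cases h3 : v ∈ S
    · simp [h3]
    · rw [if_pos h2, if_neg h3, if_pos h3, if_pos h2, h2]
  · by_cases h3 : v ∈ S <;> simp [h2, h3]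

theorem hasSum_n (S : Finset (HeightOneSpectrum (𝓞 K))) {φ : HeightOneSpectrum (𝓞 K) → ℝ}
    {C : ℝ} (hφ : ∀ v, v ∉ S → |φ v| ≤ C) (hC : 0 ≤ C) {s : ℝ} (hs : 1 < s) :
    HasSum (fun n : ℕ => cf S φ n * (n : ℝ) ^ (-s)) (DS S φ s) := by
  have h := (summable_term S hφ hC hs).hasSum.tsum_fiberwise (nm (K := K))
  have e : (fun n : ℕ => ∑' v : (nm (K := K)) ⁻¹' {n}, term S φ s v.1) =
      fun n : ℕ => cf S φ n * (n : ℝ) ^ (-s) := funext fun n => fiber_sum S φ s n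
  rw [e] at h
  exact h

theorem sum_cf (S : Finset (HeightOneSpectrum (𝓞 K))) (φ : HeightOneSpectrum (𝓞 K) → ℝ) (N : ℕ) :
    ∑ n ∈ Finset.Icc 1 N, cf S φ n = ∑ v ∈ VS S N, φ v * Real.log (nm v) := by
  classical
  have hmaps : ∀ v ∈ VS S N, nm v ∈ Finset.Icc 1 N := by
    intro v hv
    have h1 : nm v ≤ N := (mem_VX K).1 (Finset.mem_filter.1 hv).1
    have := two_le_nm v
    rw [Finset.mem_Icc]
    omega
  rw [← Finset.sum_fiberwise_of_maps_to hmaps]
  refine Finset.sum_congr rfl fun n hn => ?_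
  unfold cf
  refine Finset.sum_congr ?_ fun _ _ => rfl
  rw [Finset.mem_Icc] at hn
  ext v
  simp only [VS, Finset.mem_filter, mem_VX]
  constructor
  · rintro ⟨⟨h1, h2⟩, h3⟩
    exact ⟨⟨by omega, h2⟩, h3⟩
  · rintro ⟨⟨h1, h2⟩, h3⟩
    exact ⟨⟨by omega, h2⟩, h3⟩

/-- residues of Dirichlet series with coefficients which are a constant plus a sum of twists -/
theorem mainR {κ J : Type} (P : Finset J) (t : J → HeightOneSpectrum (𝓞 K) → ℝ) (b : J → ℝ)
    (hb : ∀ j ∈ P, 0 < b j) (ht : ∀ j ∈ P, ∀ v, |t j v| ≤ b j) (e : κ → J → 𝓞 K)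
    (he : ∀ k, ∀ j ∈ P, e k j ≠ 0)
    (hsep : ∀ k l, k ≠ l → ∀ j ∈ P, ¬ IsSquare ((e k j * e l j : 𝓞 K) : K)) (c : ℝ)
    (S : κ → Finset (HeightOneSpectrum (𝓞 K))) (φ : κ → HeightOneSpectrum (𝓞 K) → ℝ)
    (hφ : ∀ k v, v ∉ S k → φ k v = c + ∑ j ∈ P, t j v * (chi (e k j) v : ℝ))
    (T : Finset κ) (η : ℝ) (hη : 0 < η) :
    ∀ᶠ s : ℝ in 𝓝[>] 1, ∑ k ∈ T, ((s - 1) * DS (S k) (φ k) s - c) ^ 2 ≤
      (∑ j ∈ P, b j) ^ 2 + η := by
  classical
  set B : ℝ := ∑ j ∈ P, b j with hB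
  have hB0 : 0 ≤ B := Finset.sum_nonneg fun p hp => (hb p hp).le
  have hφb : ∀ k v, v ∉ S k → |φ k v| ≤ |c| + B := by
    intro k v hv
    rw [hφ k v hv]
    refine (abs_add_le _ _).trans (add_le_add le_rfl ?_)
    refine (Finset.abs_sum_le_sum_abs _ _).trans (Finset.sum_le_sum fun p hp => ?_)
    rw [abs_mul]
    exact (mul_le_of_le_one_right (abs_nonneg _) (chi_abs _ v)).trans (ht p hp v)
  have hC : 0 ≤ |c| + B := by positivity
  have hz : ∀ s : ℝ, 1 < s → Summable fun n : ℕ => (n : ℝ) ^ (-s) := fun s hs =>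
    Real.summable_nat_rpow.2 (by linarith)
  have hg : ∀ k (s : ℝ), 1 < s → HasSum (fun n : ℕ => (cf (S k) (φ k) n - c) * (n : ℝ) ^ (-s))
      (DS (S k) (φ k) s - c * ∑' n : ℕ, (n : ℝ) ^ (-s)) := by
    intro k s hs
    have h1 := (hasSum_n (S k) (hφb k) hC hs).sub ((hz s hs).hasSum.mul_left c)
    refine h1.congr_fun ?_ |> fun h => h
    intro n
    ring
  have hA : ∀ η' : ℝ, 0 < η' → ∀ᶠ N : ℕ in atTop,
      ∑ k ∈ T, ((∑ n ∈ Finset.Icc 1 N, (cf (S k) (φ k) n - c)) / N) ^ 2 ≤ B ^ 2 + η' := by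
    intro η' hη'
    filter_upwards [mainA P t b hb ht e he hsep c S φ hφ T η' hη', eventually_ge_atTop 1]
      with N h1 hN
    have hN0 : (N : ℝ) ≠ 0 := by
      have : N ≠ 0 := by omega
      exact_mod_cast this
    refine le_trans (le_of_eq ?_) h1
    refine Finset.sum_congr rfl fun k _ => ?_
    congr 1
    rw [Finset.sum_sub_distrib, sum_cf, Finset.sum_const, Nat.card_Icc, nsmul_eq_mul,
      Nat.add_sub_cancel, sub_div, mul_comm, mul_div_cancel_right₀ _ hN0]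
    rfl
  have hE := abel_event T (fun k n => cf (S k) (φ k) n - c) (B := B ^ 2) (sq_nonneg _) hA
    (fun k _ s hs => (hg k s hs).summable)
  refine perturb_s T (fun k s => (s - 1) * ∑' n : ℕ, (cf (S k) (φ k) n - c) * (n : ℝ) ^ (-s))
    (fun k s => (s - 1) * DS (S k) (φ k) s - c) (sq_nonneg _) hE (fun k _ => ?_) η hη
  have h2 := (tendsto_sub_mul_tsum_nat_rpow.sub_const 1).const_mul c
  rw [sub_self, mul_zero] at h2
  refine h2.congr' ?_
  filter_upwards [self_mem_nhdsWithin] with s hs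
  have h3 : ∑' n : ℕ, 1 / (n : ℝ) ^ s = ∑' n : ℕ, (n : ℝ) ^ (-s) :=
    tsum_congr fun n => by rw [Real.rpow_neg (Nat.cast_nonneg _), one_div]
  rw [(hg k s hs).tsum_eq, h3]
  ring

/-- residues, infinite families -/
theorem limitsR {κ : Type} (F : κ → ℝ → ℝ) {B : ℝ}
    (h : ∀ (T : Finset κ) (η : ℝ), 0 < η → ∀ᶠ s : ℝ in 𝓝[>] 1, ∑ k ∈ T, (F k s) ^ 2 ≤ B + η)
    (ℓ : κ → ℝ) (hℓ : ∀ k, Tendsto (F k) (𝓝[>] 1) (𝓝 (ℓ k))) :
    Summable (fun k => ℓ k ^ 2) ∧ ∑' k, ℓ k ^ 2 ≤ B := by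
  have h1 : ∀ T : Finset κ, ∑ k ∈ T, ℓ k ^ 2 ≤ B := by
    intro T
    refine le_of_forall_pos_le_add fun η hη => ?_
    exact le_of_tendsto (tendsto_finsetSum T fun k _ => (hℓ k).pow 2) (h T η hη)
  have h2 : Summable (fun k => ℓ k ^ 2) := summable_of_sum_le (fun k => sq_nonneg _) h1
  exact ⟨h2, h2.tsum_le_of_sum_le h1⟩

end Pool.Agent.H126V.FC
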