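import Pool.Agent.H126V.FC

/-! Averages over the fibres of products of hyperelliptic fibrations: the main theorem. -/

set_option autoImplicit false

namespace Pool.Agent.H126V.FD

open Filter Topology NumberField IsDedekindDomain Pool.Agent.H341R2 Pool.Agent.H341R2.EC
open Pool.Agent.H921R2.TatePole (nm two_le_nm card_above below below_le_nm)
open Pool.Agent.H126U Pool.Agent.H126U.ST Pool.Agent.H126U.JT Pool.Agent.H126V.Taub Polynomial
open Pool.Agent.H126V.FA Pool.Agent.H126V.FB Pool.Agent.H126V.FC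
open Pool.Agent.H126T (pairs nm_pos')

variable {K : Type} [Field K] [NumberField K] {σ : Type} [Fintype σ]

/-- the value of a polynomial in the residue field -/
noncomputable def ev (v : HeightOneSpectrum (𝓞 K)) (t : σ → 𝓞 K ⧸ v.asIdeal)
    (N : MvPolynomial σ (𝓞 K)) : 𝓞 K ⧸ v.asIdeal :=
  MvPolynomial.eval₂Hom (Ideal.Quotient.mk v.asIdeal) t N

open Classical in
/-- trace on `H²` of the fibre -/
noncomputable def fibreH2 {r : ℕ} (v : HeightOneSpectrum (𝓞 K)) (t : σ → 𝓞 K ⧸ v.asIdeal)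
    (f : Fin r → (MvPolynomial σ (𝓞 K))[X]) (d : Fin r → 𝓞 K) (N : MvPolynomial σ (𝓞 K)) : ℤ :=
  r * (nm v : ℤ) + if ev v t N = 0 then 0 else
    ∑ p ∈ pairs r, at1 v t (f p.1) (d p.1) * at1 v t (f p.2) (d p.2)

/-- the average over the fibres -/
noncomputable def BB {r : ℕ} (f : Fin r → (MvPolynomial σ (𝓞 K))[X]) (d : Fin r → 𝓞 K)
    (N : MvPolynomial σ (𝓞 K)) (v : HeightOneSpectrum (𝓞 K)) : ℝ :=
  (∑ᶠ t : σ → 𝓞 K ⧸ v.asIdeal, (fibreH2 v t f d N : ℝ)) / (nm v : ℝ) ^ Fintype.card σ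

open Classical in
/-- the untwisted coefficients -/
noncomputable def tp {r : ℕ} (f : Fin r → (MvPolynomial σ (𝓞 K))[X])
    (N : MvPolynomial σ (𝓞 K)) (p : Fin r × Fin r) (v : HeightOneSpectrum (𝓞 K)) : ℝ :=
  if (2 : 𝓞 K) ∉ v.asIdeal then (∑ᶠ t : σ → 𝓞 K ⧸ v.asIdeal,
    if ev v t N = 0 then (0 : ℝ) else (at1 v t (f p.1) 1 : ℝ) * (at1 v t (f p.2) 1 : ℝ)) /
      (nm v : ℝ) ^ (Fintype.card σ + 1) else 0

/-- the constant of a pair -/
noncomputable def bb {r : ℕ} (f : Fin r → (MvPolynomial σ (𝓞 K))[X]) (p : Fin r × Fin r) : ℝ :=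
  ((f p.1).natDegree - 1) * ((f p.2).natDegree - 1)

theorem bb_pos {r : ℕ} {f : Fin r → (MvPolynomial σ (𝓞 K))[X]} (h3 : ∀ i, 3 ≤ (f i).natDegree)
    (p : Fin r × Fin r) : 0 < bb f p := by
  unfold bb
  have h1 : (3 : ℝ) ≤ (f p.1).natDegree := by exact_mod_cast h3 p.1
  have h2 : (3 : ℝ) ≤ (f p.2).natDegree := by exact_mod_cast h3 p.2
  exact mul_pos (by linarith) (by linarith)

theorem card_fun (v : HeightOneSpectrum (𝓞 K)) [Fintype (σ → 𝓞 K ⧸ v.asIdeal)] :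
    (Fintype.card (σ → 𝓞 K ⧸ v.asIdeal) : ℝ) = (nm v : ℝ) ^ Fintype.card σ := by
  rw [← Nat.card_eq_fintype_card, Nat.card_fun, Nat.card_eq_fintype_card (α := σ)]
  have : (nm v : ℝ) = (Nat.card (𝓞 K ⧸ v.asIdeal) : ℝ) := rfl
  rw [this]
  push_cast
  rfl

theorem abs_tp {r : ℕ} {f : Fin r → (MvPolynomial σ (𝓞 K))[X]}
    (hodd : ∀ i, Odd (f i).natDegree) (h3 : ∀ i, 3 ≤ (f i).natDegree)
    {N : MvPolynomial σ (𝓞 K)}
    (hN : ∀ v : HeightOneSpectrum (𝓞 K), (2 : 𝓞 K) ∉ v.asIdeal →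
      ∀ t : σ → 𝓞 K ⧸ v.asIdeal, ev v t N ≠ 0 → ∀ i, ev v t (f i).leadingCoeff ≠ 0)
    (p : Fin r × Fin r) (v : HeightOneSpectrum (𝓞 K)) : |tp f N p v| ≤ bb f p := by
  classical
  unfold tp
  by_cases h2 : (2 : 𝓞 K) ∉ v.asIdeal
  · rw [if_pos h2]
    have hq := nm_pos' v
    have := Fintype.ofFinite (𝓞 K ⧸ v.asIdeal)
    rw [finsum_eq_sum_of_fintype, abs_div, abs_of_pos (pow_pos hq _), div_le_iff₀ (pow_pos hq _)]
    have h4 : ∀ t ∈ (Finset.univ : Finset (σ → 𝓞 K ⧸ v.asIdeal)),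
        |(if ev v t N = 0 then (0 : ℝ) else (at1 v t (f p.1) 1 : ℝ) * (at1 v t (f p.2) 1 : ℝ))| ≤
        bb f p * nm v := by
      intro t _
      split_ifs with ht
      · rw [abs_zero]
        exact mul_nonneg (bb_pos h3 p).le hq.le
      · have h5 := at1_bound t (hodd p.1) h2 (hN v h2 t ht p.1)
        have h6 := at1_bound t (hodd p.2) h2 (hN v h2 t ht p.2)
        have h7 : (3 : ℝ) ≤ (f p.1).natDegree := by exact_mod_cast h3 p.1
        rw [abs_mul]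
        refine (mul_le_mul h5 h6 (abs_nonneg _)
          (mul_nonneg (by linarith) (Real.sqrt_nonneg _))).trans (le_of_eq ?_)
        unfold bb
        have h8 := Real.mul_self_sqrt hq.le
        linear_combination (((f p.1).natDegree : ℝ) - 1) * (((f p.2).natDegree : ℝ) - 1) * h8
    refine (Finset.abs_sum_le_sum_abs _ _).trans ((Finset.sum_le_card_nsmul _ _ _ h4).trans ?_)
    rw [nsmul_eq_mul, Finset.card_univ, card_fun]
    exact le_of_eq (by ring)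
  · rw [if_neg h2, abs_zero]
    exact (bb_pos h3 p).le

theorem BB_eq {r : ℕ} {f : Fin r → (MvPolynomial σ (𝓞 K))[X]} {d : Fin r → 𝓞 K}
    {N : MvPolynomial σ (𝓞 K)} {v : HeightOneSpectrum (𝓞 K)}
    (hg : ∀ i, (2 : 𝓞 K) ∉ v.asIdeal ∧ d i ∉ v.asIdeal) :
    BB f d N v / nm v = r + ∑ p ∈ pairs r, tp f N p v * (chi (d p.1 * d p.2) v : ℝ) := by
  classical
  have hq := nm_pos' v
  have := Fintype.ofFinite (𝓞 K ⧸ v.asIdeal)
  have hcard := card_fun (σ := σ) v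
  unfold BB fibreH2
  rw [finsum_eq_sum_of_fintype]
  push_cast
  rw [Finset.sum_add_distrib, Finset.sum_const, nsmul_eq_mul, Finset.card_univ, hcard, add_div,
    add_div]
  congr 1
  · field_simp
  · rw [div_div, ← pow_succ, Finset.sum_div]
    have h1 : ∀ t : σ → 𝓞 K ⧸ v.asIdeal, (if ev v t N = 0 then (0 : ℝ) else
        ∑ p ∈ pairs r, (at1 v t (f p.1) (d p.1) : ℝ) * (at1 v t (f p.2) (d p.2) : ℝ)) /
        (nm v : ℝ) ^ (Fintype.card σ + 1) =
        ∑ p ∈ pairs r, (if ev v t N = 0 then (0 : ℝ) else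
          (at1 v t (f p.1) 1 : ℝ) * (at1 v t (f p.2) 1 : ℝ)) /
          (nm v : ℝ) ^ (Fintype.card σ + 1) * (chi (d p.1 * d p.2) v : ℝ) := by
      intro t
      by_cases ht : ev v t N = 0
      · simp [ht]
      · simp only [if_neg ht]
        rw [Finset.sum_div]
        refine Finset.sum_congr rfl fun p _ => ?_
        rw [at1_twist t _ (hg p.1).1 (hg p.1).2, at1_twist t _ (hg p.1).1 (hg p.2).2, chi_mul]
        push_cast
        ring
    rw [Finset.sum_congr rfl fun t _ => h1 t, Finset.sum_comm]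
    refine Finset.sum_congr rfl fun p _ => ?_
    rw [← Finset.sum_mul, ← Finset.sum_div]
    unfold tp
    rw [if_pos (hg p.1).1, finsum_eq_sum_of_fintype]

theorem main {r : ℕ} (f : Fin r → (MvPolynomial σ (𝓞 K))[X])
    (hodd : ∀ i, Odd (f i).natDegree) (h3 : ∀ i, 3 ≤ (f i).natDegree)
    (N : MvPolynomial σ (𝓞 K))
    (hN : ∀ v : HeightOneSpectrum (𝓞 K), (2 : 𝓞 K) ∉ v.asIdeal →
      ∀ t : σ → 𝓞 K ⧸ v.asIdeal, ev v t N ≠ 0 → ∀ i, ev v t (f i).leadingCoeff ≠ 0)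
    {κ : Type} (d : κ → Fin r → 𝓞 K) (hd0 : ∀ k i, d k i ≠ 0)
    (hsep : ∀ k l, k ≠ l → ∀ i j, i < j →
      ¬ IsSquare ((d k i * d k j * d l i * d l j : 𝓞 K) : K))
    (S : κ → Finset (HeightOneSpectrum (𝓞 K)))
    (hS : ∀ k v, v ∉ S k → ∀ i, (2 : 𝓞 K) ∉ v.asIdeal ∧ d k i ∉ v.asIdeal)
    (T : Finset κ) (η : ℝ) (hη : 0 < η) :
    ∀ᶠ s : ℝ in 𝓝[>] 1, ∑ k ∈ T,
      ((s - 1) * DS (S k) (fun v => BB f (d k) N v / nm v) s - r) ^ 2 ≤
        (∑ p ∈ pairs r, bb f p) ^ 2 + η := by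
  refine mainR (pairs r) (tp f N) (bb f) (fun p _ => bb_pos h3 p)
    (fun p _ v => abs_tp hodd h3 hN p v) (fun k p => d k p.1 * d k p.2)
    (fun k p _ => mul_ne_zero (hd0 k _) (hd0 k _)) (fun k l hkl p hp => ?_) r S
    (fun k v => BB f (d k) N v / nm v) (fun k v hv => BB_eq (hS k v hv)) T η hη
  have h1 := hsep k l hkl p.1 p.2 (by
    unfold pairs at hp
    exact (Finset.mem_filter.1 hp).2)
  have h2 : d k p.1 * d k p.2 * (d l p.1 * d l p.2) =
      d k p.1 * d k p.2 * d l p.1 * d l p.2 := by ring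
  rw [h2]
  exact h1

end Pool.Agent.H126V.FD
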