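import Mathlib

/-! Counting large values. -/

set_option autoImplicit false

namespace Pool.Agent.H126V.FE

open Filter Topology

theorem count_of_sum {κ : Type} (T : Finset κ) (l : Filter ℝ) (y : ℝ → κ → ℝ) {c : ℝ}
    (h : ∀ η : ℝ, 0 < η → ∀ᶠ s in l, ∑ k ∈ T, y s k ^ 2 ≤ c + η) {δ : ℝ} (hδ : 0 < δ) :
    ∀ᶠ s in l, ({k : κ | k ∈ T ∧ δ ≤ |y s k|}.ncard : ℝ) ≤ c / δ ^ 2 := by
  classical
  have h1 : ∀ᶠ s in l, ∀ n ∈ Finset.range (T.card + 1), c < n * δ ^ 2 →
      (T.filter fun k => δ ≤ |y s k|).card ≠ n := by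
    rw [Filter.eventually_all_finset]
    intro n _
    by_cases hn : c < n * δ ^ 2
    · filter_upwards [h ((n * δ ^ 2 - c) / 2) (by linarith)] with X hX _ hcard
      have h2 : (n : ℝ) * δ ^ 2 ≤ ∑ k ∈ T, y X k ^ 2 := by
        calc (n : ℝ) * δ ^ 2 = ∑ k ∈ T.filter (fun k => δ ≤ |y X k|), δ ^ 2 := by
              rw [Finset.sum_const, hcard, nsmul_eq_mul]
          _ ≤ ∑ k ∈ T.filter (fun k => δ ≤ |y X k|), y X k ^ 2 := by
              refine Finset.sum_le_sum fun k hk => ?_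
              rw [← sq_abs (y X k)]
              exact pow_le_pow_left₀ hδ.le (Finset.mem_filter.1 hk).2 2
          _ ≤ ∑ k ∈ T, y X k ^ 2 :=
              Finset.sum_le_sum_of_subset_of_nonneg (Finset.filter_subset _ _)
                fun _ _ _ => sq_nonneg _
      linarith
    · exact Filter.Eventually.of_forall fun _ h2 => absurd h2 hn
  filter_upwards [h1] with X hX
  have hset : {k : κ | k ∈ T ∧ δ ≤ |y X k|} =
      ((T.filter fun k => δ ≤ |y X k| : Finset κ) : Set κ) := by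
    ext k
    simp
  rw [hset, Set.ncard_coe_finset, le_div_iff₀ (by positivity)]
  by_contra hcon
  push Not at hcon
  refine hX _ ?_ hcon rfl
  rw [Finset.mem_range]
  exact Nat.lt_succ_of_le (Finset.card_filter_le _ _)

end Pool.Agent.H126V.FE
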