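import Pool.Agent.H126V.FC

/-! Averages over the fibres of hyperelliptic fibrations: traces on `H¹`. -/

set_option autoImplicit false

namespace Pool.Agent.H126V.FG

open Filter Topology NumberField IsDedekindDomain Pool.Agent.H341R2 Pool.Agent.H341R2.EC
open Pool.Agent.H921R2.TatePole (nm two_le_nm card_above below below_le_nm)
open Pool.Agent.H126U Pool.Agent.H126U.ST Pool.Agent.H126U.JT Pool.Agent.H126V.Taub Polynomial
open Pool.Agent.H126V.FA Pool.Agent.H126V.FB Pool.Agent.H126V.FC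
open Pool.Agent.H126T (nm_pos')

variable {K : Type} [Field K] [NumberField K] {σ : Type} [Fintype σ]

open Classical in
/-- the quadratic symbol -/
noncomputable def symb (d : 𝓞 K) (v : HeightOneSpectrum (𝓞 K)) : ℤ :=
  if Ideal.Quotient.mk v.asIdeal d = 0 then 0
  else if IsSquare (Ideal.Quotient.mk v.asIdeal d) then 1 else -1

theorem symb_eq (d : 𝓞 K) (v : HeightOneSpectrum (𝓞 K)) : symb d v = chi d v := by
  classical
  unfold chi symb
  rw [quadraticChar_apply]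
  unfold quadraticCharFun
  by_cases h : Ideal.Quotient.mk v.asIdeal d = 0
  · rw [if_pos h]
  · rw [if_neg h]

open Classical in
/-- the average over the fibres -/
noncomputable def AA (f : (MvPolynomial σ (𝓞 K))[X]) (d : 𝓞 K)
    (N : MvPolynomial σ (𝓞 K)) (v : HeightOneSpectrum (𝓞 K)) : ℝ :=
  (∑ᶠ t : σ → 𝓞 K ⧸ v.asIdeal,
    if MvPolynomial.eval₂Hom (Ideal.Quotient.mk v.asIdeal) t N = 0 then (0 : ℝ)
      else (at1 v t f d : ℝ)) / (nm v : ℝ) ^ Fintype.card σ

theorem AA_twist (f : (MvPolynomial σ (𝓞 K))[X]) {d : 𝓞 K} (N : MvPolynomial σ (𝓞 K))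
    {v : HeightOneSpectrum (𝓞 K)} (h2 : (2 : 𝓞 K) ∉ v.asIdeal) (hd : d ∉ v.asIdeal) :
    AA f d N v = chi d v * AA f 1 N v := by
  classical
  have := Fintype.ofFinite (𝓞 K ⧸ v.asIdeal)
  unfold AA
  rw [finsum_eq_sum_of_fintype, finsum_eq_sum_of_fintype, ← mul_div_assoc, Finset.mul_sum]
  congr 1
  refine Finset.sum_congr rfl fun t _ => ?_
  split_ifs with h
  · rw [mul_zero]
  · rw [at1_twist t f h2 hd]
    push_cast
    ring

theorem main (f : (MvPolynomial σ (𝓞 K))[X]) (N : MvPolynomial σ (𝓞 K))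
    (β : HeightOneSpectrum (𝓞 K) → ℝ) (R₀ : Finset (HeightOneSpectrum (𝓞 K))) (C : ℝ)
    (hC : ∀ v, v ∉ R₀ → |AA f 1 N v - β v| ≤ C)
    {κ : Type} (d : κ → 𝓞 K) (hd0 : ∀ k, d k ≠ 0)
    (hsep : ∀ k l, k ≠ l → ¬ IsSquare ((d k * d l : 𝓞 K) : K))
    (S : κ → Finset (HeightOneSpectrum (𝓞 K)))
    (hS : ∀ k v, v ∉ S k → v ∉ R₀ ∧ (2 : 𝓞 K) ∉ v.asIdeal ∧ d k ∉ v.asIdeal)
    (T : Finset κ) (η : ℝ) (hη : 0 < η) :
    ∀ᶠ s : ℝ in 𝓝[>] 1, ∑ k ∈ T,
      ((s - 1) * DS (S k) (fun v => AA f (d k) N v - symb (d k) v * β v) s) ^ 2 ≤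
        C ^ 2 + η := by
  classical
  set b : ℝ := Real.sqrt (C ^ 2 + η / 2) with hb
  have hb0 : 0 < b := Real.sqrt_pos.2 (by positivity)
  have hbsq : b ^ 2 = C ^ 2 + η / 2 := Real.sq_sqrt (by positivity)
  have hCb : C ≤ b := by
    refine (le_abs_self C).trans ?_
    rw [← Real.sqrt_sq_eq_abs]
    exact Real.sqrt_le_sqrt (by linarith)
  set t : Unit → HeightOneSpectrum (𝓞 K) → ℝ := fun _ v =>
    if v ∈ R₀ then 0 else AA f 1 N v - β v with ht
  have h := mainR (Finset.univ : Finset Unit) t (fun _ => b) (fun _ _ => hb0) (fun _ _ v => by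
      rw [ht]
      show |(if v ∈ R₀ then (0 : ℝ) else AA f 1 N v - β v)| ≤ b
      split_ifs with h
      · rw [abs_zero]
        exact hb0.le
      · exact (hC v h).trans hCb) (fun k _ => d k) (fun k _ _ => hd0 k)
    (fun k l hkl _ _ => hsep k l hkl) 0 S
    (fun k v => AA f (d k) N v - symb (d k) v * β v) (fun k v hv => by
      obtain ⟨h1, h2, h3⟩ := hS k v hv
      rw [Finset.univ_unique, Finset.sum_singleton, AA_twist f N h2 h3, symb_eq, zero_add]
      show _ = (if v ∈ R₀ then (0 : ℝ) else AA f 1 N v - β v) * _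
      rw [if_neg h1]
      ring) T (η / 2) (by positivity)
  filter_upwards [h] with s hs
  rw [Finset.univ_unique, Finset.sum_singleton, hbsq] at hs
  simp only [sub_zero] at hs
  linarith

end Pool.Agent.H126V.FG
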