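import Pool.Agent.H126V.Orth
import Pool.Agent.H126T.Final
import Pool.Agent.H126U.Mot

/-! Quadratic twists of L-functions over affine space over `ℤ`. -/

set_option autoImplicit false

namespace Pool.Agent.H126V

open Filter Topology Pool.Agent.H341R2 MvPolynomial ComplexConjugate Complex
open Pool.Agent.H126R3 (Pt Res qy pk)
open Pool.Agent.H126T (final_bound log_inv_tendsto)

variable {σ : Type} [Fintype σ] {n : ℕ}

/-- the dimension of the base -/
noncomputable def dm (σ : Type) [Fintype σ] : ℝ := (Fintype.card σ : ℝ) + 1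

theorem dm_pos : 0 < dm σ := by unfold dm; positivity

theorem one_le_dm : 1 ≤ dm σ := by
  unfold dm
  have : (0 : ℝ) ≤ Fintype.card σ := Nat.cast_nonneg _
  linarith

theorem qy_pos' (y : Pt σ) : (0 : ℝ) < qy y := by
  have := two_le_qy y
  exact_mod_cast (by omega : 0 < qy y)

theorem qy_two (y : Pt σ) : (2 : ℝ) ≤ qy y := by exact_mod_cast two_le_qy y

theorem qy_ne (y : Pt σ) : ((qy y : ℕ) : ℂ) ≠ 0 := by
  have := two_le_qy y
  exact_mod_cast (by omega : qy y ≠ 0)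

theorem N_rpow (y : Pt σ) (x : ℝ) : ((sysPt σ).N y : ℝ) ^ x = (qy y : ℝ) ^ (dm σ * x) := by
  have h := cpow_N y (-1 - x)
  have e1 : -(1 + (-1 - x)) = x := by ring
  rw [e1] at h
  refine h.trans ?_
  congr 1
  unfold dm
  ring

open Classical in
/-- the Euler product over the points outside `{N = 0}` -/
noncomputable def LP (α : Pt σ → Fin n → ℂ) (D N : MvPolynomial σ ℤ) (s : ℂ) : ℂ :=
  ∏' y : Pt σ, if N ∉ y.asIdeal then
    (∏ j, (1 - (ch D y : ℂ) * α y j * ((qy y : ℕ) : ℂ) ^ (-s)))⁻¹ else 1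

/-- normalizing factor -/
noncomputable def nf (w : ℝ) (y : Pt σ) : ℝ := (qy y : ℝ) ^ (-(w / 2))

theorem nf_pos (w : ℝ) (y : Pt σ) : 0 < nf w y := Real.rpow_pos_of_pos (qy_pos' y) _

theorem nf_mul (w : ℝ) (y : Pt σ) : (qy y : ℝ) ^ (w / 2) * nf w y = 1 := by
  unfold nf
  rw [← Real.rpow_add (qy_pos' y), add_neg_cancel, Real.rpow_zero]

open Classical in
/-- the untwisted coefficients -/
noncomputable def tm (α : Pt σ → Fin n → ℂ) (w : ℝ) (y : Pt σ) : ℂ :=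
  if ∀ j, ‖α y j‖ ≤ (qy y : ℝ) ^ (w / 2) then (∑ j, α y j) * (nf w y : ℝ) else 0

/-- the characters -/
noncomputable def wm (D : MvPolynomial σ ℤ) (τ : ℝ) (y : Pt σ) : ℂ :=
  (ch D y : ℂ) * ((qy y : ℕ) : ℂ) ^ ((τ : ℂ) * I)

theorem norm_tm (α : Pt σ → Fin n → ℂ) (w : ℝ) (y : Pt σ) : ‖tm α w y‖ ≤ n := by
  unfold tm
  split_ifs with h
  · rw [norm_mul, Complex.norm_real, Real.norm_eq_abs, abs_of_pos (nf_pos w y)]
    have h1 : ‖∑ j, α y j‖ ≤ n * (qy y : ℝ) ^ (w / 2) := by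
      refine (norm_sum_le _ _).trans ((Finset.sum_le_card_nsmul _ _ _ fun j _ => h j).trans ?_)
      rw [nsmul_eq_mul, Finset.card_univ, Fintype.card_fin]
    calc ‖∑ j, α y j‖ * nf w y ≤ n * (qy y : ℝ) ^ (w / 2) * nf w y :=
          mul_le_mul_of_nonneg_right h1 (nf_pos w y).le
      _ = n := by rw [mul_assoc, nf_mul, mul_one]
  · rw [norm_zero]
    exact Nat.cast_nonneg _

theorem norm_qI (y : Pt σ) (τ : ℝ) : ‖((qy y : ℕ) : ℂ) ^ ((τ : ℂ) * I)‖ = 1 := by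
  rw [Complex.norm_natCast_cpow_of_pos (by have := two_le_qy y; omega)]
  simp

theorem norm_wm (D : MvPolynomial σ ℤ) (τ : ℝ) (y : Pt σ) : ‖wm D τ y‖ ≤ 1 := by
  unfold wm
  rw [norm_mul, Complex.norm_intCast, norm_qI, mul_one]
  exact ch_abs _ y

theorem conj_wm (D : MvPolynomial σ ℤ) (τ : ℝ) (y : Pt σ) :
    conj (wm D τ y) = (ch D y : ℂ) * ((qy y : ℕ) : ℂ) ^ (-((τ : ℂ) * I)) := by
  have h0 := qy_ne y
  unfold wm
  rw [map_mul]
  congr 1
  · exact map_intCast _ _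
  · rw [Complex.cpow_def_of_ne_zero h0, Complex.cpow_def_of_ne_zero h0, ← Complex.exp_conj]
    congr 1
    rw [map_mul, map_mul, Complex.conj_I, Complex.conj_ofReal, ← Complex.natCast_log,
      Complex.conj_ofReal]
    ring

theorem wm_orth {D D' : MvPolynomial σ ℤ} (hD : D ≠ 0) (hD' : D' ≠ 0) {τ τ' : ℝ}
    (h : IsSquare (D * D') → τ ≠ τ') :
    (sysPt σ).Negl fun y => (wm D τ y * conj (wm D' τ' y)).re := by
  have h1 : ¬ IsSquare (D * D') ∨ τ' - τ ≠ 0 := by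
    by_cases h2 : IsSquare (D * D')
    · exact Or.inr (sub_ne_zero.2 (h h2).symm)
    · exact Or.inl h2
  have h3 := orth (D * D') (mul_ne_zero hD hD') (τ' - τ) h1
  have h4 : ∀ y : Pt σ, (wm D τ y * conj (wm D' τ' y)).re =
      (ch (D * D') y : ℝ) * cs (τ' - τ) (qy y) := by
    intro y
    have h0 := qy_ne y
    have h5 : wm D τ y * conj (wm D' τ' y) = ((ch (D * D') y : ℝ) : ℂ) *
        ((qy y : ℕ) : ℂ) ^ (-(((τ' - τ : ℝ) : ℂ) * I)) := by
      rw [conj_wm, wm, ch_mul]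
      push_cast
      have : -(((τ' : ℂ) - τ) * I) = τ * I + -(τ' * I) := by ring
      rw [this, Complex.cpow_add _ _ h0]
      ring
    rw [h5, Complex.re_ofReal_mul]
    rfl
  intro η hη
  filter_upwards [h3 η hη] with ε h5
  have h6 : (sysPt σ).E ε (fun y => (wm D τ y * conj (wm D' τ' y)).re) =
      (sysPt σ).E ε (fun y => (ch (D * D') y : ℝ) * cs (τ' - τ) (qy y)) :=
    congrArg ((sysPt σ).E ε) (funext h4)
  rw [h6]
  exact h5

open Classical in
/-- the normalized coefficients -/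
noncomputable def am (α : Pt σ → Fin n → ℂ) (w : ℝ) (D N : MvPolynomial σ ℤ) (τ : ℝ)
    (y : Pt σ) : ℂ :=
  if N ∉ y.asIdeal then tm α w y * conj (wm D τ y) else 0

theorem norm_am (α : Pt σ → Fin n → ℂ) (w : ℝ) (D N : MvPolynomial σ ℤ) (τ : ℝ) (y : Pt σ) :
    ‖am α w D N τ y‖ ≤ n := by
  unfold am
  by_cases h : N ∉ y.asIdeal
  · rw [if_pos h, norm_mul, Complex.norm_conj]
    exact (mul_le_of_le_one_right (norm_nonneg _) (norm_wm _ _ y)).trans (norm_tm α w y)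
  · rw [if_neg h, norm_zero]
    exact Nat.cast_nonneg _

/-- the terms of the logarithm -/
noncomputable def bt (α : Pt σ → Fin n → ℂ) (D : MvPolynomial σ ℤ) (y : Pt σ) (s : ℂ)
    (j : Fin n) : ℂ :=
  (ch D y : ℂ) * α y j * ((qy y : ℕ) : ℂ) ^ (-s)

theorem bt_norm {α : Pt σ → Fin n → ℂ} {w : ℝ} {D : MvPolynomial σ ℤ} {y : Pt σ}
    (hα : ∀ j, ‖α y j‖ ≤ (qy y : ℝ) ^ (w / 2)) {s : ℂ}
    (hs : w / 2 + dm σ ≤ s.re) (j : Fin n) : ‖bt α D y s j‖ ≤ (qy y : ℝ) ^ (-dm σ) := by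
  unfold bt
  have hq := qy_pos' y
  have hq1 : (1 : ℝ) ≤ qy y := by linarith [qy_two y]
  have hcp : ‖((qy y : ℕ) : ℂ) ^ (-s)‖ = (qy y : ℝ) ^ (-s.re) := by
    rw [Complex.norm_natCast_cpow_of_pos (by have := two_le_qy y; omega)]
    simp
  rw [norm_mul, norm_mul, Complex.norm_intCast, hcp]
  have h1 : |(ch D y : ℝ)| * ‖α y j‖ ≤ 1 * (qy y : ℝ) ^ (w / 2) :=
    mul_le_mul (ch_abs D y) (hα j) (norm_nonneg _) zero_le_one
  have h2 : (qy y : ℝ) ^ (-s.re) ≤ (qy y : ℝ) ^ (-(w / 2) - dm σ) :=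
    Real.rpow_le_rpow_of_exponent_le hq1 (by linarith)
  calc |(ch D y : ℝ)| * ‖α y j‖ * (qy y : ℝ) ^ (-s.re)
      ≤ (1 * (qy y : ℝ) ^ (w / 2)) * (qy y : ℝ) ^ (-(w / 2) - dm σ) :=
        mul_le_mul h1 h2 (by positivity) (by positivity)
    _ = (qy y : ℝ) ^ (-dm σ) := by
        rw [one_mul, ← Real.rpow_add hq]
        congr 1
        ring

theorem sum_bt {α : Pt σ → Fin n → ℂ} {w : ℝ} {D N : MvPolynomial σ ℤ} {y : Pt σ}
    (hy : N ∉ y.asIdeal) (hα : ∀ j, ‖α y j‖ ≤ (qy y : ℝ) ^ (w / 2)) (τ ε : ℝ) :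
    am α w D N τ y * ((((sysPt σ).N y : ℝ) ^ (-(1 + ε)) : ℝ) : ℂ) =
      ∑ j, bt α D y ((w : ℂ) / 2 + (dm σ : ℂ) + τ * I + (dm σ * ε : ℝ)) j := by
  have h0 := qy_ne y
  have hq := (qy_pos' y).le
  rw [N_rpow]
  unfold am
  rw [if_pos hy]
  unfold tm bt nf
  rw [if_pos hα, conj_wm, ← Finset.sum_mul, ← Finset.mul_sum,
    Complex.ofReal_cpow hq, Complex.ofReal_cpow hq]
  push_cast
  have h1 : ((qy y : ℕ) : ℂ) ^ (-((w : ℂ) / 2 + (dm σ : ℂ) + τ * I + (dm σ : ℂ) * ε)) =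
      ((qy y : ℕ) : ℂ) ^ (-((w : ℂ) / 2)) * ((qy y : ℕ) : ℂ) ^ (-((τ : ℂ) * I)) *
        ((qy y : ℕ) : ℂ) ^ ((dm σ : ℂ) * -(1 + (ε : ℂ))) := by
    rw [← Complex.cpow_add _ _ h0, ← Complex.cpow_add _ _ h0]
    congr 1
    ring
  rw [h1]
  ring

theorem LP_log {α : Pt σ → Fin n → ℂ} {w : ℝ} {D N : MvPolynomial σ ℤ}
    (hα : ∀ y : Pt σ, N ∉ y.asIdeal → ∀ j, ‖α y j‖ ≤ (qy y : ℝ) ^ (w / 2)) (τ : ℝ) :
    ∃ C' : ℝ, ∀ ε : ℝ, 0 < ε →
      LP α D N ((w : ℂ) / 2 + (dm σ : ℂ) + τ * I + (dm σ * ε : ℝ)) ≠ 0 ∧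
      |(sysPt σ).E ε (fun y => (am α w D N τ y).re) -
        Real.log ‖LP α D N ((w : ℂ) / 2 + (dm σ : ℂ) + τ * I + (dm σ * ε : ℝ))‖| ≤ C' := by
  classical
  refine ⟨|(n : ℝ)| * (sysPt σ).K2, fun ε hε => ?_⟩
  set s : ℂ := (w : ℂ) / 2 + (dm σ : ℂ) + τ * I + (dm σ * ε : ℝ) with hs
  have hsre : s.re = w / 2 + dm σ + dm σ * ε := by
    have h2 : ((w : ℂ) / 2) = ((w / 2 : ℝ) : ℂ) := by push_cast; rfl
    rw [hs, h2, Complex.add_re, Complex.add_re, Complex.add_re, Complex.ofReal_re,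
      Complex.ofReal_re, Complex.ofReal_re]
    simp
  have hsge : w / 2 + dm σ ≤ s.re := by
    rw [hsre]
    have := mul_pos (dm_pos (σ := σ)) hε
    linarith
  have hsmall : ∀ y : Pt σ, N ∉ y.asIdeal → ∀ j, ‖bt α D y s j‖ ≤ (qy y : ℝ) ^ (-dm σ) :=
    fun y hy j => bt_norm (hα y hy) hsge j
  have hhalf : ∀ y : Pt σ, (qy y : ℝ) ^ (-dm σ) ≤ 1 / 2 := by
    intro y
    have hq1 : (1 : ℝ) ≤ qy y := by linarith [qy_two y]
    calc (qy y : ℝ) ^ (-dm σ) ≤ (qy y : ℝ) ^ (-1 : ℝ) :=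
          Real.rpow_le_rpow_of_exponent_le hq1 (by linarith [one_le_dm (σ := σ)])
      _ = (qy y : ℝ)⁻¹ := Real.rpow_neg_one _
      _ ≤ 1 / 2 := by
          rw [one_div]
          exact inv_anti₀ two_pos (qy_two y)
  obtain ⟨hsum, hbd⟩ := (sysPt σ).summable_and_bound (Good := fun y : Pt σ => N ∉ y.asIdeal) hε
    (fun y => ∑ j, -Complex.log (1 - bt α D y s j)) (am α w D N τ) (C := n) (K := n)
    (fun y => norm_am α w D N τ y) (fun y hy => by
      unfold am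
      rw [if_neg hy]) (by
      intro y hy
      have h5 : ‖(∑ j, -Complex.log (1 - bt α D y s j)) - ∑ j, bt α D y s j‖ ≤
          n * ((qy y : ℝ) ^ (-dm σ)) ^ 2 := by
        rw [← Finset.sum_sub_distrib]
        refine (norm_sum_le _ _).trans ((Finset.sum_le_card_nsmul _ _
          (((qy y : ℝ) ^ (-dm σ)) ^ 2) fun j _ => ?_).trans ?_)
        · have h6 := hsmall y hy j
          refine (Pool.Agent.H126U.Mot.log_bt (h6.trans (hhalf y))).2.trans ?_
          exact pow_le_pow_left₀ (norm_nonneg _) h6 2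
        · rw [nsmul_eq_mul, Finset.card_univ, Fintype.card_fin]
      rw [← sum_bt (D := D) hy (hα y hy) τ ε] at h5
      refine h5.trans (le_of_eq ?_)
      congr 1
      rw [N_rpow, ← Real.rpow_natCast, ← Real.rpow_mul (qy_pos' y).le]
      congr 1
      push_cast
      ring)
  have hprod : LP α D N s = cexp (∑' y : Pt σ, if N ∉ y.asIdeal then
      ∑ j, -Complex.log (1 - bt α D y s j) else 0) := by
    have h1 := hsum.hasSum.cexp
    refine Eq.trans ?_ h1.tprod_eq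
    unfold LP
    refine tprod_congr fun y => ?_
    by_cases hy : N ∉ y.asIdeal
    · rw [if_pos hy]
      show _ = cexp (if N ∉ y.asIdeal then _ else _)
      rw [if_pos hy, Complex.exp_sum, ← Finset.prod_inv_distrib]
      refine Finset.prod_congr rfl fun j _ => ?_
      have h6 := (hsmall y hy j).trans (hhalf y)
      rw [Complex.exp_neg, Complex.exp_log (Pool.Agent.H126U.Mot.log_bt h6).1]
      rfl
    · rw [if_neg hy]
      show _ = cexp (if N ∉ y.asIdeal then _ else _)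
      rw [if_neg hy, Complex.exp_zero]
  rw [hprod]
  refine ⟨Complex.exp_ne_zero _, ?_⟩
  rw [Complex.norm_exp, Real.log_exp, abs_sub_comm]
  exact hbd

/-- changing the scale -/
theorem rescale {κ : Type} (T : Finset κ) (f : κ → ℝ → ℝ) {B : ℝ} (hB : 0 ≤ B) {c : ℝ} (hc : 0 < c)
    (h : ∀ η : ℝ, 0 < η → ∀ᶠ ε : ℝ in 𝓝[>] 0,
      ∑ k ∈ T, (f k (c * ε) / Real.log (1 / ε)) ^ 2 ≤ B + η) (η : ℝ) (hη : 0 < η) :
    ∀ᶠ ε : ℝ in 𝓝[>] 0, ∑ k ∈ T, (f k ε / Real.log (1 / ε)) ^ 2 ≤ B + η := by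
  have h1 := (tendsto_mul (1 / c) (by positivity)).eventually (h (η / 2) (by positivity))
  have h2 : Tendsto (fun ε : ℝ => (Real.log (1 / (1 / c * ε)) / Real.log (1 / ε)) ^ 2) (𝓝[>] 0)
      (𝓝 1) := by
    have h3 : Tendsto (fun ε : ℝ => 1 + Real.log c / Real.log (1 / ε)) (𝓝[>] 0) (𝓝 1) := by
      have h4 : Tendsto (fun ε : ℝ => Real.log c / Real.log (1 / ε)) (𝓝[>] 0) (𝓝 0) :=
        tendsto_const_nhds.div_atTop log_inv_tendsto
      simpa using h4.const_add 1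
    have h5 := h3.pow 2
    rw [one_pow] at h5
    refine h5.congr' ?_
    filter_upwards [self_mem_nhdsWithin, log_inv_tendsto.eventually_gt_atTop 0] with ε h6 h7
    have hε : (0 : ℝ) < ε := h6
    congr 1
    have h8 : 1 / (1 / c * ε) = c * (1 / ε) := by field_simp
    rw [h8, Real.log_mul hc.ne' (by positivity), add_div, div_self h7.ne', add_comm]
  have h3 : Tendsto (fun ε : ℝ => (B + η / 2) *
      (Real.log (1 / (1 / c * ε)) / Real.log (1 / ε)) ^ 2) (𝓝[>] 0) (𝓝 (B + η / 2)) := by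
    have := h2.const_mul (B + η / 2)
    rwa [mul_one] at this
  filter_upwards [h1, h3.eventually (eventually_le_nhds (show B + η / 2 < B + η by linarith)),
    log_inv_tendsto.eventually_gt_atTop 0,
    ((log_inv_tendsto.comp (tendsto_mul (1 / c) (by positivity))).eventually_gt_atTop 0)]
    with ε h4 h5 h6 h7
  have h7' : 0 < Real.log (1 / (1 / c * ε)) := h7
  refine le_trans ?_ h5
  have h8 : ∑ k ∈ T, (f k ε / Real.log (1 / ε)) ^ 2 =
      (∑ k ∈ T, (f k (c * (1 / c * ε)) / Real.log (1 / (1 / c * ε))) ^ 2) *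
        (Real.log (1 / (1 / c * ε)) / Real.log (1 / ε)) ^ 2 := by
    rw [Finset.sum_mul]
    refine Finset.sum_congr rfl fun k _ => ?_
    have h9 : c * (1 / c * ε) = ε := by field_simp
    rw [h9, ← mul_pow, div_mul_div_cancel₀ h7'.ne']
  rw [h8]
  exact mul_le_mul_of_nonneg_right h4 (sq_nonneg _)

theorem main (hn : 0 < n) (α : Pt σ → Fin n → ℂ) (w : ℝ)
    {κ : Type} (T : Finset κ) (D N : κ → MvPolynomial σ ℤ) (τ : κ → ℝ)
    (hD : ∀ k ∈ T, D k ≠ 0) (hN : ∀ k ∈ T, N k ≠ 0)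
    (hsep : ∀ k ∈ T, ∀ l ∈ T, k ≠ l → IsSquare (D k * D l) → τ k ≠ τ l)
    (hα : ∀ k ∈ T, ∀ y : Pt σ, N k ∉ y.asIdeal → ∀ j, ‖α y j‖ ≤ (qy y : ℝ) ^ (w / 2)) :
    (∀ η : ℝ, 0 < η → ∀ᶠ ε : ℝ in 𝓝[>] 0,
      ∑ k ∈ T, (Real.log ‖LP α (D k) (N k) ((w : ℂ) / 2 + (dm σ : ℂ) + τ k * I + ε)‖ /
        Real.log (1 / ε)) ^ 2 ≤ (n : ℝ) ^ 2 + η) ∧
    (∀ r : κ → ℤ, (∀ k ∈ T, ∃ c : ℂ, c ≠ 0 ∧ Tendsto (fun ε : ℝ => (ε : ℂ) ^ (r k) *
        LP α (D k) (N k) ((w : ℂ) / 2 + (dm σ : ℂ) + τ k * I + ε)) (𝓝[>] 0) (𝓝 c)) →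
      ∑ k ∈ T, (r k) ^ 2 ≤ (n : ℤ) ^ 2) := by
  classical
  have hn' : (0 : ℝ) < n := by exact_mod_cast hn
  have hlog : ∀ k, ∃ C' : ℝ, k ∈ T → ∀ ε : ℝ, 0 < ε →
      LP α (D k) (N k) ((w : ℂ) / 2 + (dm σ : ℂ) + τ k * I + (dm σ * ε : ℝ)) ≠ 0 ∧
      |(sysPt σ).E ε (fun y => (am α w (D k) (N k) (τ k) y).re) -
        Real.log ‖LP α (D k) (N k) ((w : ℂ) / 2 + (dm σ : ℂ) + τ k * I + (dm σ * ε : ℝ))‖| ≤
          C' := by
    intro k
    by_cases hk : k ∈ T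
    · obtain ⟨C', hC'⟩ := LP_log (D := D k) (hα k hk) (τ k)
      exact ⟨C', fun _ => hC'⟩
    · exact ⟨0, fun h => absurd h hk⟩
  choose C' hC' using hlog
  have hzer : ∀ k, ∃ C : ℝ, k ∈ T → ∀ ε : ℝ, 0 < ε →
      (sysPt σ).E ε (fun y : Pt σ => if N k ∈ y.asIdeal then 1 else 0) ≤ C := by
    intro k
    by_cases hk : k ∈ T
    · obtain ⟨C, hC⟩ := negl_zeros (N k) (hN k hk)
      exact ⟨C, fun _ => hC⟩
    · exact ⟨0, fun h => absurd h hk⟩
  choose Cz hCz using hzer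
  have hscaled : ∀ η : ℝ, 0 < η → ∀ᶠ ε : ℝ in 𝓝[>] 0,
      ∑ k ∈ T, (Real.log ‖LP α (D k) (N k)
        ((w : ℂ) / 2 + (dm σ : ℂ) + τ k * I + (dm σ * ε : ℝ))‖ /
          Real.log (1 / ε)) ^ 2 ≤ (n : ℝ) ^ 2 + η := by
    intro η hη
    have h0 : ∑ j ∈ (Finset.univ : Finset Unit), (fun _ : Unit => (n : ℝ)) j = n := by simp
    have := final_bound (sysPt σ) T (Finset.univ : Finset Unit) (fun _ => tm α w)
      (fun _ k => wm (D k) (τ k)) (fun _ => (n : ℝ))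
      (fun _ _ => hn') (fun _ _ y => norm_tm α w y)
      (fun _ k y => norm_wm (D k) (τ k) y)
      (fun _ _ k hk l hl hkl => wm_orth (hD k hk) (hD l hl) (hsep k hk l hl hkl))
      (fun k ε => Real.log ‖LP α (D k) (N k)
        ((w : ℂ) / 2 + (dm σ : ℂ) + τ k * I + (dm σ * ε : ℝ))‖)
      (fun _ => 0) (by
        intro k hk η' hη'
        have hE0 : ∀ ε : ℝ, 0 < ε →
            |(sysPt σ).E ε (fun y => (am α w (D k) (N k) (τ k) y).re) -
            (sysPt σ).E ε (fun y => (tm α w y * conj (wm (D k) (τ k) y)).re)| ≤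
              n * Cz k := by
          intro ε hε
          have hb1 : ∀ y, |(am α w (D k) (N k) (τ k) y).re| ≤ (n : ℝ) := fun y =>
            (Complex.abs_re_le_norm _).trans (norm_am α w _ _ _ y)
          have hb3 : ∀ y, |(tm α w y * conj (wm (D k) (τ k) y)).re| ≤ (n : ℝ) := by
            intro y
            refine (Complex.abs_re_le_norm _).trans ?_
            rw [norm_mul, Complex.norm_conj]
            exact (mul_le_of_le_one_right (norm_nonneg _) (norm_wm _ _ y)).trans (norm_tm α w y)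
          have hs1 := (sysPt σ).summable_E hε hb1
          have hs2 := (sysPt σ).summable_E hε hb3
          have hb4 : ∀ y : Pt σ, |(if N k ∈ y.asIdeal then (1 : ℝ) else 0)| ≤ 1 := by
            intro y
            split_ifs <;> simp
          have hs3 := ((sysPt σ).summable_E hε hb4).mul_left (n : ℝ)
          unfold NormSys.E
          rw [← hs1.tsum_sub hs2]
          have h6 := tsum_of_norm_bounded hs3.hasSum (f := fun y : Pt σ =>
            (am α w (D k) (N k) (τ k) y).re * ((sysPt σ).N y : ℝ) ^ (-(1 + ε)) -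
            (tm α w y * conj (wm (D k) (τ k) y)).re * ((sysPt σ).N y : ℝ) ^ (-(1 + ε))) (by
              intro y
              have hw := (sysPt σ).w_nonneg ε y
              rw [← sub_mul, Real.norm_eq_abs, abs_mul, abs_of_nonneg hw, ← mul_assoc]
              refine mul_le_mul_of_nonneg_right ?_ hw
              unfold am
              by_cases hy : N k ∉ y.asIdeal
              · rw [if_pos hy, sub_self, abs_zero]
                exact mul_nonneg hn'.le (by split_ifs <;> norm_num)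
              · rw [if_neg hy, if_pos (not_not.1 hy), Complex.zero_re, zero_sub, abs_neg, mul_one]
                exact hb3 y)
          rw [Real.norm_eq_abs] at h6
          refine h6.trans ?_
          rw [tsum_mul_left]
          exact mul_le_mul_of_nonneg_left (hCz k hk ε hε) hn'.le
        filter_upwards [self_mem_nhdsWithin,
          (sysPt σ).lam_tendsto.eventually_ge_atTop (1 / η' * (C' k + n * Cz k))]
          with ε h2 h4
        have hε : (0 : ℝ) < ε := h2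
        have h1 := (hC' k hk ε hε).2
        have h5 := hE0 ε hε
        have e2 : C' k + n * Cz k ≤ η' * (sysPt σ).lam ε := by
          have := mul_le_mul_of_nonneg_left h4 hη'.le
          have e3 : η' * (1 / η' * (C' k + n * Cz k)) = C' k + n * Cz k := by
            field_simp
          rwa [e3] at this
        rw [Finset.univ_unique, Finset.sum_singleton, zero_mul, sub_zero]
        refine le_trans ?_ e2
        have e4 : ∀ x y z a b : ℝ, |x - y| ≤ a → |x - z| ≤ b → |y - z| ≤ a + b := by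
          intro x y z a b h6 h7
          have e6 : y - z = (x - z) + -(x - y) := by ring
          rw [e6]
          refine (abs_add_le _ _).trans ?_
          rw [abs_neg]
          linarith
        exact e4 _ _ _ _ _ h1 h5) hη
    rw [h0] at this
    simpa only [sub_zero] using this
  have hmean : ∀ η : ℝ, 0 < η → ∀ᶠ ε : ℝ in 𝓝[>] 0,
      ∑ k ∈ T, (Real.log ‖LP α (D k) (N k) ((w : ℂ) / 2 + (dm σ : ℂ) + τ k * I + ε)‖ /
        Real.log (1 / ε)) ^ 2 ≤ (n : ℝ) ^ 2 + η :=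
    rescale T (fun k ε => Real.log ‖LP α (D k) (N k)
      ((w : ℂ) / 2 + (dm σ : ℂ) + τ k * I + (ε : ℝ))‖) (by positivity) (dm_pos (σ := σ)) hscaled
  refine ⟨hmean, ?_⟩
  intro r hr
  have hne : ∀ k ∈ T, ∀ᶠ ε : ℝ in 𝓝[>] 0,
      LP α (D k) (N k) ((w : ℂ) / 2 + (dm σ : ℂ) + τ k * I + ε) ≠ 0 := by
    intro k hk
    filter_upwards [self_mem_nhdsWithin] with ε h2
    have hε : (0 : ℝ) < ε := h2
    have h3 := (hC' k hk (ε / dm σ) (div_pos hε (dm_pos (σ := σ)))).1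
    have h4 : dm σ * (ε / dm σ) = ε := mul_div_cancel₀ _ (dm_pos (σ := σ)).ne'
    rw [h4] at h3
    exact h3
  have hlim0 : ∀ k ∈ T, Tendsto (fun ε : ℝ => Real.log ‖LP α (D k) (N k)
      ((w : ℂ) / 2 + (dm σ : ℂ) + τ k * I + ε)‖ / Real.log (1 / ε)) (𝓝[>] 0) (𝓝 (r k : ℝ)) := by
    intro k hk
    obtain ⟨c, hc, hlim⟩ := hr k hk
    have h := Pool.Agent.H126U.limit_order
      (fun ε : ℝ => LP α (D k) (N k) ((w : ℂ) / 2 + (dm σ : ℂ) + τ k * I + ε)) (hne k hk)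
      (-(r k)) c hc (by simpa using hlim)
    simpa using h
  have hlim : Tendsto (fun ε : ℝ => ∑ k ∈ T,
      (Real.log ‖LP α (D k) (N k) ((w : ℂ) / 2 + (dm σ : ℂ) + τ k * I + ε)‖ /
        Real.log (1 / ε)) ^ 2) (𝓝[>] 0) (𝓝 (∑ k ∈ T, ((r k : ℝ)) ^ 2)) :=
    tendsto_finsetSum T fun k hk => (hlim0 k hk).pow 2
  have hle : ∀ η : ℝ, 0 < η → ∑ k ∈ T, ((r k : ℝ)) ^ 2 ≤ (n : ℝ) ^ 2 + η :=
    fun η hη => le_of_tendsto hlim (hmean η hη)
  have hle2 := le_of_forall_pos_le_add hle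
  exact_mod_cast hle2

end Pool.Agent.H126V
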