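import Pool.Agent.H126V.Chars

/-! Orthogonality of quadratic symbols over the closed points of affine space. -/

set_option autoImplicit false

namespace Pool.Agent.H126V

open Filter Topology Pool.Agent.H341R2 MvPolynomial ComplexConjugate
open Pool.Agent.H126R3 (Pt Res qy pk Yc Qc Qc_pos qy_Qc summable_y summable_Q card_Yc_le exists_F
  sum_fib pk_zero ptOf mem_ptOf fiberEquiv XF charK SqfreeNC sz)
open Pool.Agent.Helper919 (XX XX_apply XX_abs_le)

variable {σ : Type} [Fintype σ]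

/-- `Re q^{-iδ}` -/
noncomputable def cs (δ : ℝ) (q : ℕ) : ℝ := ((q : ℂ) ^ (-((δ : ℂ) * Complex.I))).re

theorem cs_abs (δ : ℝ) {q : ℕ} (hq : 0 < q) : |cs δ q| ≤ 1 := by
  unfold cs
  refine (Complex.abs_re_le_norm _).trans ?_
  rw [Complex.norm_natCast_cpow_of_pos hq]
  simp

theorem XX_qc (c : ℤ) (p : Nat.Primes) (hp : (p : ℕ) ≠ 2) {F : Type} [Field F] [Fintype F]
    (h : Fintype.card F = (p : ℕ) ^ (0 + 1)) : XX c p = (qc F (c : F) : ℝ) := by
  have hpf : Fact (p : ℕ).Prime := ⟨p.2⟩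
  have h1 : Fintype.card F = p := by simpa using h
  let e : ZMod p ≃+* F := ZMod.ringEquivOfPrime F p.2 h1
  have h2 : e (c : ZMod p) = (c : F) := map_intCast e c
  rw [← h2, qc_congr, XX_apply, if_pos (p.2.odd_of_ne_two hp), ← jacobiSym.legendreSym.to_jacobiSym]
  congr 1
  unfold legendreSym
  rw [quadraticChar_apply]
  unfold qc quadraticCharFun
  by_cases h : (c : ZMod p) = 0
  · rw [if_pos h, if_pos h]
  · rw [if_neg h, if_neg h]
    by_cases h2 : IsSquare (c : ZMod p)
    · rw [if_pos h2, if_pos h2]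
    · rw [if_neg h2, if_neg h2]

theorem vv_re (c : ℤ) (δ : ℝ) (p : Nat.Primes) :
    (vv (c, 0) p * conj (vv (1, δ) p)).re = XX c p * cs δ p := by
  have h1 : vv (c, 0) p * conj (vv (1, δ) p) = ((XX (c * 1) p : ℝ) : ℂ) *
      ((p : ℕ) : ℂ) ^ (-((δ : ℂ) * Complex.I)) := by
    rw [vv, vv, map_mul, Complex.conj_ofReal, conj_prime_cpow_I, ← XX_mul_left]
    push_cast
    rw [zero_mul, Complex.cpow_zero]
    ring
  rw [h1, Complex.re_ofReal_mul, mul_one]
  rfl

theorem negl_XX {c : ℤ} (hc : Squarefree c) {δ : ℝ} (h : c ≠ 1 ∨ δ ≠ 0) :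
    PNegl fun p => XX c p * cs δ p := by
  have h1 := vv_orth (k := (c, 0)) (l := (1, δ)) hc squarefree_one (by
    intro h2
    rcases h with h3 | h3
    · exact h3 (congrArg Prod.fst h2)
    · exact h3 (congrArg Prod.snd h2).symm)
  have h2 := PNegl.of_bdd h1
  have h3 : (fun p => (vv (c, 0) p * conj (vv (1, δ) p)).re) = fun p : Nat.Primes =>
      XX c p * cs δ p := funext fun p => vv_re c δ p
  rwa [h3] at h2

open Classical in
/-- the average of a quadratic symbol -/
theorem avg_ch (H : MvPolynomial σ ℤ) (δ : ℝ) (p : Nat.Primes) {F : Type} [Field F] [Fintype F]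
    (h : Fintype.card F = (p : ℕ) ^ (0 + 1)) :
    avg (fun y : Pt σ => (ch H y : ℝ) * cs δ (qy y)) p = cs δ p *
      ((∑ t : σ → F, (qc F (aeval (R := ℤ) t H) : ℝ)) *
        ((p : ℕ) : ℝ) ^ (-(Fintype.card σ : ℝ))) := by
  rw [avg_eq _ p h]
  have h1 : ∀ t : σ → F, (ch H (ptOf t) : ℝ) * cs δ (qy (ptOf t)) =
      (qc F (aeval (R := ℤ) t H) : ℝ) * cs δ p := by
    intro t
    rw [ch_ptOf p h, qy_ptOf p h]
  rw [Finset.sum_congr rfl fun t _ => h1 t, ← Finset.sum_mul]
  ring

open Classical in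
/-- removing a square factor -/
theorem sum_sq (A P : MvPolynomial σ ℤ) (F : Type) [Field F] [Fintype F] :
    |∑ t : σ → F, (qc F (aeval (R := ℤ) t (A ^ 2 * P)) : ℝ) -
      ∑ t : σ → F, (qc F (aeval (R := ℤ) t P) : ℝ)| ≤
        (Nat.card {t : σ → F // aeval (R := ℤ) t A = 0} : ℝ) := by
  rw [← Finset.sum_sub_distrib]
  have h1 : ∀ t : σ → F, |(qc F (aeval (R := ℤ) t (A ^ 2 * P)) : ℝ) -
      (qc F (aeval (R := ℤ) t P) : ℝ)| ≤ if aeval (R := ℤ) t A = 0 then 1 else 0 := by
    intro t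
    rw [map_mul, map_pow]
    split_ifs with h
    · rw [h]
      have h2 : qc F ((0 : F) ^ 2 * aeval (R := ℤ) t P) = 0 := by
        rw [zero_pow two_ne_zero, zero_mul]
        unfold qc
        rw [if_pos rfl]
      rw [h2]
      simpa using qc_abs F (aeval (R := ℤ) t P)
    · have h2 : qc F ((aeval (R := ℤ) t A) ^ 2 * aeval (R := ℤ) t P) =
          qc F (aeval (R := ℤ) t P) := by
        rw [qc_mul]
        have h3 : qc F ((aeval (R := ℤ) t A) ^ 2) = 1 := by
          unfold qc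
          rw [if_neg (pow_ne_zero 2 h), if_pos ⟨_, sq _⟩]
        rw [h3, one_mul]
      rw [h2]
      simp
  refine (Finset.abs_sum_le_sum_abs _ _).trans ((Finset.sum_le_sum fun t _ => h1 t).trans ?_)
  rw [Finset.sum_ite, Finset.sum_const_zero, add_zero, Finset.sum_const, nsmul_eq_mul, mul_one,
    Nat.card_eq_fintype_card, Fintype.card_subtype]

theorem negl_avg (H : MvPolynomial σ ℤ) (hH : H ≠ 0) (δ : ℝ) (h : ¬ IsSquare H ∨ δ ≠ 0) :
    PNegl (avg (fun y : Pt σ => (ch H y : ℝ) * cs δ (qy y))) := by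
  classical
  obtain ⟨A, P, hAP, hP⟩ := exists_sq_mul H hH
  have hA0 : A ≠ 0 := by
    rintro rfl
    rw [zero_pow two_ne_zero, zero_mul] at hAP
    exact hH hAP
  obtain ⟨M, hM, hz⟩ := zeros_decay A hA0
  have hgb : ∀ y : Pt σ, |(ch H y : ℝ) * cs δ (qy y)| ≤ 1 := by
    intro y
    rw [abs_mul]
    have h2 : 0 < qy y := lt_of_lt_of_le two_pos (two_le_qy y)
    exact (mul_le_mul (ch_abs H y) (cs_abs δ h2) (abs_nonneg _) zero_le_one).trans (by norm_num)
  have hav : ∀ p, |avg (fun y : Pt σ => (ch H y : ℝ) * cs δ (qy y)) p| ≤ 1 := avg_abs_le hgb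
  rcases Nat.eq_zero_or_pos P.totalDegree with h0 | h0
  · -- constant squarefree part
    rw [totalDegree_eq_zero_iff_eq_C] at h0
    set c : ℤ := coeff 0 P with hc
    have hcsq : Squarefree c := by
      intro d hd
      have h1 : (C d : MvPolynomial σ ℤ) * C d ∣ P := by
        rw [h0, ← C_mul]
        exact map_dvd C hd
      have h2 := hP _ h1
      have h3 := h2.map (constantCoeff (R := ℤ) (σ := σ))
      rwa [constantCoeff_C] at h3
    have hc1 : c ≠ 1 ∨ δ ≠ 0 := by
      rcases h with h1 | h1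
      · left
        intro h2
        apply h1
        rw [hAP, h0, h2, C_1, mul_one, sq]
        exact ⟨A, rfl⟩
      · exact Or.inr h1
    have h1 := negl_XX hcsq hc1
    have h2 : PNegl fun p => avg (fun y : Pt σ => (ch H y : ℝ) * cs δ (qy y)) p -
        XX c p * cs δ p := by
      refine negl_of_decay (M := 2 * M) (B := 2) (K := A.totalDegree)
        (mul_ne_zero two_ne_zero hM) (by norm_num) (Nat.cast_nonneg _) ?_ ?_
      · intro p
        have h3 : |XX c p * cs δ p| ≤ 1 := by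
          rw [abs_mul]
          exact (mul_le_mul (XX_abs_le _ _) (cs_abs δ p.2.pos) (abs_nonneg _)
            zero_le_one).trans (by norm_num)
        exact (abs_sub _ _).trans (by linarith [hav p])
      · intro p hp
        obtain ⟨F, _, _, hF⟩ := exists_F ((p, 0) : Nat.Primes × ℕ)
        have hp2 : (p : ℕ) ≠ 2 := by
          intro h3
          apply hp
          rw [h3]
          exact Dvd.intro _ rfl
        have hpM : ¬ ((p : ℕ) : ℤ) ∣ M := fun h3 => hp (Dvd.dvd.mul_left h3 _)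
        have hF' : Fintype.card F = (p : ℕ) ^ (0 + 1) := hF
        rw [avg_ch H δ p hF', XX_qc c p hp2 hF']
        have h3 := sum_sq A P F
        rw [← hAP] at h3
        have h4 : ∑ t : σ → F, (qc F (aeval (R := ℤ) t P) : ℝ) =
            (qc F (c : F) : ℝ) * ((p : ℕ) : ℝ) ^ Fintype.card σ := by
          have h5 : ∀ t : σ → F, (qc F (aeval (R := ℤ) t P) : ℝ) = (qc F (c : F) : ℝ) := by
            intro t
            rw [h0, aeval_C]
            rfl
          rw [Finset.sum_congr rfl fun t _ => h5 t, Finset.sum_const, Finset.card_univ,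
            Fintype.card_fun, nsmul_eq_mul, hF']
          push_cast
          ring
        rw [h4] at h3
        have hp0 := p_pos p
        have h6 : cs δ p * ((∑ t : σ → F, (qc F (aeval (R := ℤ) t H) : ℝ)) *
            ((p : ℕ) : ℝ) ^ (-(Fintype.card σ : ℝ))) - (qc F (c : F) : ℝ) * cs δ p =
            cs δ p * ((∑ t : σ → F, (qc F (aeval (R := ℤ) t H) : ℝ) -
              (qc F (c : F) : ℝ) * ((p : ℕ) : ℝ) ^ Fintype.card σ) *
                ((p : ℕ) : ℝ) ^ (-(Fintype.card σ : ℝ))) := by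
          have h7 : ((p : ℕ) : ℝ) ^ Fintype.card σ * ((p : ℕ) : ℝ) ^ (-(Fintype.card σ : ℝ)) = 1 := by
            rw [Real.rpow_neg hp0.le, Real.rpow_natCast]
            exact mul_inv_cancel₀ (pow_ne_zero _ hp0.ne')
          linear_combination (cs δ p) * (qc F (c : F) : ℝ) * h7
        rw [h6, abs_mul, abs_mul, abs_of_nonneg (a := ((p : ℕ) : ℝ) ^ (-(Fintype.card σ : ℝ)))
          (by positivity)]
        calc |cs δ p| * (|∑ t : σ → F, (qc F (aeval (R := ℤ) t H) : ℝ) -
              (qc F (c : F) : ℝ) * ((p : ℕ) : ℝ) ^ Fintype.card σ| *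
                ((p : ℕ) : ℝ) ^ (-(Fintype.card σ : ℝ)))
            ≤ 1 * ((Nat.card {t : σ → F // aeval (R := ℤ) t A = 0} : ℝ) *
                ((p : ℕ) : ℝ) ^ (-(Fintype.card σ : ℝ))) :=
              mul_le_mul (cs_abs δ p.2.pos) (mul_le_mul_of_nonneg_right h3 (by positivity))
                (by positivity) zero_le_one
          _ ≤ A.totalDegree * ((p : ℕ) : ℝ) ^ (-(1 / 2) : ℝ) := by
              rw [one_mul]
              exact hz p F hF' hpM
    have h3 := h1.add h2 (B := 1) (B' := 2) (fun p => by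
        rw [abs_mul]
        exact (mul_le_mul (XX_abs_le _ _) (cs_abs δ p.2.pos) (abs_nonneg _)
            zero_le_one).trans (by norm_num)) (fun p => by
        have h3 : |XX c p * cs δ p| ≤ 1 := by
          rw [abs_mul]
          exact (mul_le_mul (XX_abs_le _ _) (cs_abs δ p.2.pos) (abs_nonneg _)
            zero_le_one).trans (by norm_num)
        exact (abs_sub _ _).trans (by linarith [hav p]))
    have h4 : (fun p : Nat.Primes => XX c p * cs δ p + (avg (fun y : Pt σ => (ch H y : ℝ) * cs δ (qy y)) p -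
        XX c p * cs δ p)) = avg (fun y : Pt σ => (ch H y : ℝ) * cs δ (qy y)) := by
      funext p
      ring
    rwa [h4] at h3
  · -- nonconstant squarefree part
    have hs : SqfreeNC P := by
      intro g hg
      have h1 := hP g hg
      exact Pool.Agent.H126R3.const_of_dvd g 1 one_ne_zero (by rw [C_1]; exact h1.dvd)
    obtain ⟨hcard, K, M', hK, hM', hch⟩ := charK P hs h0
    refine negl_of_decay (M := M * M') (B := 1) (K := K + A.totalDegree)
      (mul_ne_zero hM hM') zero_le_one (add_nonneg hK (Nat.cast_nonneg _)) hav ?_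
    intro p hp
    obtain ⟨F, _, _, hF⟩ := exists_F ((p, 0) : Nat.Primes × ℕ)
    have hF' : Fintype.card F = (p : ℕ) ^ (0 + 1) := hF
    have hpM : ¬ ((p : ℕ) : ℤ) ∣ M := fun h3 => hp (Dvd.dvd.mul_right h3 _)
    have hpM' : ¬ ((p : ℕ) : ℤ) ∣ M' := fun h3 => hp (Dvd.dvd.mul_left h3 _)
    have hp0 := p_pos p
    have h1 := hch F (cast_ne hF' hpM')
    have h3 := sum_sq A P F
    rw [← hAP] at h3
    have hcardF : (Fintype.card F : ℝ) = ((p : ℕ) : ℝ) := by
      rw [hF']
      push_cast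
      simp
    have h4 : ∑ t : σ → F, (qc F (aeval (R := ℤ) t P) : ℝ) = XF F P := by
      unfold XF
      refine Finset.sum_congr rfl fun t _ => ?_
      rw [qc_eq]
    rw [h4] at h3
    rw [hcardF] at h1
    have h5 : Real.sqrt ((p : ℕ) : ℝ) * ((p : ℕ) : ℝ) ^ (Fintype.card σ - 1) *
        ((p : ℕ) : ℝ) ^ (-(Fintype.card σ : ℝ)) = ((p : ℕ) : ℝ) ^ (-(1 / 2) : ℝ) := by
      rw [Real.sqrt_eq_rpow, ← Real.rpow_natCast, ← Real.rpow_add hp0, ← Real.rpow_add hp0]
      congr 1
      rw [Nat.cast_sub hcard]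
      push_cast
      ring
    rw [avg_ch H δ p hF', abs_mul, abs_mul,
      abs_of_nonneg (a := ((p : ℕ) : ℝ) ^ (-(Fintype.card σ : ℝ))) (by positivity)]
    have h6 : |∑ t : σ → F, (qc F (aeval (R := ℤ) t H) : ℝ)| ≤
        K * (Real.sqrt ((p : ℕ) : ℝ) * ((p : ℕ) : ℝ) ^ (Fintype.card σ - 1)) +
          (Nat.card {t : σ → F // aeval (R := ℤ) t A = 0} : ℝ) := by
      have h7 : ∑ t : σ → F, (qc F (aeval (R := ℤ) t H) : ℝ) = XF F P +
        (∑ t : σ → F, (qc F (aeval (R := ℤ) t H) : ℝ) - XF F P) := by ring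
      rw [h7]
      exact (abs_add_le _ _).trans (add_le_add h1 h3)
    calc |cs δ p| * (|∑ t : σ → F, (qc F (aeval (R := ℤ) t H) : ℝ)| *
          ((p : ℕ) : ℝ) ^ (-(Fintype.card σ : ℝ)))
        ≤ 1 * ((K * (Real.sqrt ((p : ℕ) : ℝ) * ((p : ℕ) : ℝ) ^ (Fintype.card σ - 1)) +
          (Nat.card {t : σ → F // aeval (R := ℤ) t A = 0} : ℝ)) *
            ((p : ℕ) : ℝ) ^ (-(Fintype.card σ : ℝ))) :=
          mul_le_mul (cs_abs δ p.2.pos) (mul_le_mul_of_nonneg_right h6 (by positivity))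
            (by positivity) zero_le_one
      _ = K * ((p : ℕ) : ℝ) ^ (-(1 / 2) : ℝ) +
          (Nat.card {t : σ → F // aeval (R := ℤ) t A = 0} : ℝ) *
            ((p : ℕ) : ℝ) ^ (-(Fintype.card σ : ℝ)) := by
          rw [← h5]
          ring
      _ ≤ (K + A.totalDegree) * ((p : ℕ) : ℝ) ^ (-(1 / 2) : ℝ) := by
          rw [add_mul]
          exact add_le_add le_rfl (hz p F hF' hpM)

/-- orthogonality of the quadratic symbols of polynomials -/
theorem orth (H : MvPolynomial σ ℤ) (hH : H ≠ 0) (δ : ℝ) (h : ¬ IsSquare H ∨ δ ≠ 0) :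
    (sysPt σ).Negl fun y => (ch H y : ℝ) * cs δ (qy y) := by
  refine negl_of_avg (C := 1) (fun y => ?_) (negl_avg H hH δ h)
  rw [abs_mul]
  have h2 : 0 < qy y := lt_of_lt_of_le two_pos (two_le_qy y)
  exact (mul_le_mul (ch_abs H y) (cs_abs δ h2) (abs_nonneg _) zero_le_one).trans (by norm_num)

open Classical in
/-- the points where a polynomial vanishes are negligible -/
theorem negl_zeros (N : MvPolynomial σ ℤ) (hN : N ≠ 0) :
    ∃ C : ℝ, ∀ ε : ℝ, 0 < ε →
      (sysPt σ).E ε (fun y : Pt σ => if N ∈ y.asIdeal then 1 else 0) ≤ C := by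
  obtain ⟨M, hM, hz⟩ := zeros_decay N hN
  have hb : ∀ y : Pt σ, |(if N ∈ y.asIdeal then (1 : ℝ) else 0)| ≤ 1 := by
    intro y
    split_ifs <;> simp
  obtain ⟨C, hC⟩ := bdd_of_decay (φ := avg (fun y : Pt σ => if N ∈ y.asIdeal then (1 : ℝ) else 0))
    hM zero_le_one (Nat.cast_nonneg N.totalDegree) (avg_abs_le hb) (by
      intro p hp
      obtain ⟨F, _, _, hF⟩ := exists_F ((p, 0) : Nat.Primes × ℕ)
      have hF' : Fintype.card F = (p : ℕ) ^ (0 + 1) := hF
      have h1 : avg (fun y : Pt σ => if N ∈ y.asIdeal then (1 : ℝ) else 0) p =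
          (Nat.card {t : σ → F // aeval (R := ℤ) t N = 0} : ℝ) *
            ((p : ℕ) : ℝ) ^ (-(Fintype.card σ : ℝ)) := by
        rw [avg_eq _ p hF']
        congr 1
        have h2 : ∀ t : σ → F, (if N ∈ (ptOf t).asIdeal then (1 : ℝ) else 0) =
            if aeval (R := ℤ) t N = 0 then 1 else 0 := by
          intro t
          by_cases h3 : aeval (R := ℤ) t N = 0
          · rw [if_pos ((mem_ptOf t N).2 h3), if_pos h3]
          · rw [if_neg (fun h4 => h3 ((mem_ptOf t N).1 h4)), if_neg h3]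
        rw [Finset.sum_congr rfl fun t _ => h2 t, Finset.sum_ite, Finset.sum_const_zero, add_zero,
          Finset.sum_const, nsmul_eq_mul, mul_one, Nat.card_eq_fintype_card, Fintype.card_subtype]
      rw [h1, abs_of_nonneg (by positivity)]
      exact hz p F hF' hp)
  refine ⟨C + 1 * C0, fun ε hε => ?_⟩
  have h1 := E_avg hb hε
  have h2 := hC (((Fintype.card σ : ℝ) + 1) * ε) (by positivity)
  have h3 := (abs_le.1 h1).2
  have h4 := (abs_le.1 h2).2
  linarith

end Pool.Agent.H126V
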