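import Pool.Agent.H126V.Main
import Pool.Agent.H126U.End

/-! Products of quadratic twists of hyperelliptic curves over `ℚ(t_σ)`: coefficients. -/

set_option autoImplicit false

namespace Pool.Agent.H126V.Pr

open Filter Topology Pool.Agent.H341R2 ComplexConjugate Complex Polynomial Pool.Agent.H126V
open Pool.Agent.H126R3 (Pt Res qy pk)
open Pool.Agent.H126U (idx mult mult0 mult_pos kuenneth idx_mem sqrt_pow_even sqrt_pow_rpow)
open Pool.Agent.H126T (affPts trace_bound trace_one)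

variable {σ : Type} [Fintype σ]

/-- trace of `Frob^m` on `H¹` of `d y² = f(x)` at the closed point `y` -/
noncomputable def tH1 (y : Pt σ) (f : (MvPolynomial σ ℤ)[X]) (d : MvPolynomial σ ℤ) (m : ℕ) : ℤ :=
  (qy y : ℤ) ^ m + 1 - (affPts (Res y) (f.map (Ideal.Quotient.mk y.asIdeal))
    (Ideal.Quotient.mk y.asIdeal d) m + 1)

theorem mk_ne {y : Pt σ} {a : MvPolynomial σ ℤ} (h : a ∉ y.asIdeal) :
    Ideal.Quotient.mk y.asIdeal a ≠ 0 := fun h' => h (Ideal.Quotient.eq_zero_iff_mem.1 h')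

theorem char_y {y : Pt σ} (h2 : (2 : MvPolynomial σ ℤ) ∉ y.asIdeal) : ringChar (Res y) ≠ 2 := by
  intro h
  have h1 := mk_ne h2
  apply h1
  have := ringChar.Nat.cast_ringChar (R := Res y)
  rw [h] at this
  rw [map_ofNat]
  exact_mod_cast this

theorem natDegree_red {y : Pt σ} {f : (MvPolynomial σ ℤ)[X]} (hf : f.leadingCoeff ∉ y.asIdeal) :
    (f.map (Ideal.Quotient.mk y.asIdeal)).natDegree = f.natDegree :=
  natDegree_map_of_leadingCoeff_ne_zero _ (mk_ne hf)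

theorem one_not_mem (y : Pt σ) : (1 : MvPolynomial σ ℤ) ∉ y.asIdeal := fun h =>
  y.isMaximal.ne_top ((Ideal.eq_top_iff_one _).2 h)

theorem tH1_bound {y : Pt σ} {f : (MvPolynomial σ ℤ)[X]} (hodd : Odd f.natDegree)
    {d : MvPolynomial σ ℤ} (h2 : (2 : MvPolynomial σ ℤ) ∉ y.asIdeal)
    (hf : f.leadingCoeff ∉ y.asIdeal) (hd : d ∉ y.asIdeal) (m : ℕ) (hm : m ≠ 0) :
    |(tH1 y f d m : ℝ)| ≤ (f.natDegree - 1) * Real.sqrt ((qy y : ℝ) ^ m) := by
  classical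
  let _ := Fintype.ofFinite (Res y)
  have h := trace_bound (char_y h2) (f.map (Ideal.Quotient.mk y.asIdeal))
    (by rw [natDegree_red hf]; exact hodd) (Ideal.Quotient.mk y.asIdeal d) (mk_ne hd) m hm
  rw [natDegree_red hf] at h
  exact h

theorem tH1_one {y : Pt σ} {f : (MvPolynomial σ ℤ)[X]} {d : MvPolynomial σ ℤ}
    (h2 : (2 : MvPolynomial σ ℤ) ∉ y.asIdeal) (hd : d ∉ y.asIdeal) :
    tH1 y f d 1 = ch d y * tH1 y f 1 1 := by
  classical
  let _ := Fintype.ofFinite (Res y)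
  have h1 : tH1 y f d 1 = _ := trace_one (char_y h2) (f.map (Ideal.Quotient.mk y.asIdeal))
    (Ideal.Quotient.mk y.asIdeal d) (mk_ne hd)
  have h3 : tH1 y f 1 1 = _ := trace_one (char_y h2) (f.map (Ideal.Quotient.mk y.asIdeal))
    (Ideal.Quotient.mk y.asIdeal 1) (mk_ne (one_not_mem y))
  rw [h1, h3, ch, qc_eq, map_one, map_one]
  ring

/-- trace of `Frob^m` on `Hⁱ` of the product of the curves `d j y² = f j (x)` -/
noncomputable def tH (i : ℕ) {r : ℕ} (y : Pt σ) (f : Fin r → (MvPolynomial σ ℤ)[X])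
    (d : Fin r → MvPolynomial σ ℤ) (m : ℕ) : ℤ :=
  ∑ e : Fin r → Fin 3, if ∑ j, (e j : ℕ) = i then
    ∏ j, (if e j = 0 then 1 else if e j = 1 then tH1 y (f j) (d j) m else (qy y : ℤ) ^ m) else 0

theorem tH_eq (i : ℕ) {r : ℕ} (y : Pt σ) (f : Fin r → (MvPolynomial σ ℤ)[X])
    (d : Fin r → MvPolynomial σ ℤ) (m : ℕ) :
    tH i y f d m = mult0 r i * ((qy y : ℤ) ^ m) ^ (i / 2) +
      ∑ A ∈ idx r i, (mult r i A.card : ℤ) * ((qy y : ℤ) ^ m) ^ ((i - A.card) / 2) *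
        ∏ j ∈ A, tH1 y (f j) (d j) m :=
  kuenneth r i (fun j => tH1 y (f j) (d j) m) ((qy y : ℤ) ^ m)

/-- the constant of a set of factors -/
noncomputable def bb (i : ℕ) {r : ℕ} (f : Fin r → (MvPolynomial σ ℤ)[X]) (A : Finset (Fin r)) : ℝ :=
  mult r i A.card * ∏ j ∈ A, (((f j).natDegree : ℝ) - 1)

theorem bb_nonneg {i r : ℕ} {f : Fin r → (MvPolynomial σ ℤ)[X]} (h3 : ∀ j, 3 ≤ (f j).natDegree)
    (A : Finset (Fin r)) : 0 ≤ bb i f A := by
  unfold bb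
  refine mul_nonneg (Nat.cast_nonneg _) (Finset.prod_nonneg fun j _ => ?_)
  have h1 : (3 : ℝ) ≤ (f j).natDegree := by exact_mod_cast h3 j
  linarith

theorem bb_pos {i r : ℕ} {f : Fin r → (MvPolynomial σ ℤ)[X]} (h3 : ∀ j, 3 ≤ (f j).natDegree)
    {A : Finset (Fin r)} (hA : A ∈ idx r i) : 0 < bb i f A := by
  unfold bb
  refine mul_pos (Nat.cast_pos.2 (mult_pos hA)) (Finset.prod_pos fun j _ => ?_)
  have h1 : (3 : ℝ) ≤ (f j).natDegree := by exact_mod_cast h3 j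
  linarith

theorem prod_bd {r : ℕ} {f : Fin r → (MvPolynomial σ ℤ)[X]} (A : Finset (Fin r)) (x : Fin r → ℝ)
    {q : ℝ} (hx : ∀ j ∈ A, |x j| ≤ ((f j).natDegree - 1) * Real.sqrt q) :
    |∏ j ∈ A, x j| ≤ (∏ j ∈ A, (((f j).natDegree : ℝ) - 1)) * Real.sqrt q ^ A.card := by
  rw [Finset.abs_prod, ← Finset.prod_const, ← Finset.prod_mul_distrib]
  exact Finset.prod_le_prod (fun j _ => abs_nonneg _) hx

/-- all conditions at a good point -/
def Gd {r : ℕ} (f : Fin r → (MvPolynomial σ ℤ)[X]) (d : Fin r → MvPolynomial σ ℤ) (y : Pt σ) :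
    Prop :=
  ∀ j, (2 : MvPolynomial σ ℤ) ∉ y.asIdeal ∧ d j ∉ y.asIdeal ∧ (f j).leadingCoeff ∉ y.asIdeal

theorem tH_bound {i r : ℕ} {f : Fin r → (MvPolynomial σ ℤ)[X]} (hodd : ∀ j, Odd (f j).natDegree)
    {d : Fin r → MvPolynomial σ ℤ} {y : Pt σ} (hg : Gd f d y) (m : ℕ) (hm : m ≠ 0) :
    |(tH i y f d m : ℝ)| ≤ (mult0 r i + ∑ A ∈ idx r i, bb i f A) *
      Real.sqrt ((qy y : ℝ) ^ m) ^ i := by
  rw [tH_eq]
  push_cast
  have hq : (0 : ℝ) ≤ (qy y : ℝ) ^ m := by positivity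
  refine (abs_add_le _ _).trans ?_
  rw [add_mul, Finset.sum_mul]
  refine add_le_add ?_ ((Finset.abs_sum_le_sum_abs _ _).trans (Finset.sum_le_sum fun A hA => ?_))
  · rw [abs_of_nonneg (by positivity)]
    by_cases hi : Even i
    · rw [sqrt_pow_even hq hi]
    · unfold mult0
      rw [if_neg hi]
      simp
  · obtain ⟨-, h2, h3⟩ := idx_mem hA
    have h1 := prod_bd A (fun j => (tH1 y (f j) (d j) m : ℝ)) (q := (qy y : ℝ) ^ m)
      (f := f) (fun j _ => tH1_bound (hodd _) (hg j).1 (hg j).2.2 (hg j).2.1 m hm)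
    rw [abs_mul, abs_of_nonneg (by positivity : (0 : ℝ) ≤ (mult r i A.card : ℝ) *
      ((qy y : ℝ) ^ m) ^ ((i - A.card) / 2)), sqrt_pow_even hq h3]
    have h4 : Real.sqrt ((qy y : ℝ) ^ m) ^ i = Real.sqrt ((qy y : ℝ) ^ m) ^ (i - A.card) *
        Real.sqrt ((qy y : ℝ) ^ m) ^ A.card := by
      rw [← pow_add, Nat.sub_add_cancel h2]
    rw [h4]
    calc (mult r i A.card : ℝ) * Real.sqrt ((qy y : ℝ) ^ m) ^ (i - A.card) *
          |∏ j ∈ A, (tH1 y (f j) (d j) m : ℝ)|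
        ≤ (mult r i A.card : ℝ) * Real.sqrt ((qy y : ℝ) ^ m) ^ (i - A.card) *
          ((∏ j ∈ A, (((f j).natDegree : ℝ) - 1)) * Real.sqrt ((qy y : ℝ) ^ m) ^ A.card) :=
          mul_le_mul_of_nonneg_left h1 (by positivity)
      _ = _ := by
          unfold bb
          ring

open Classical in
/-- the untwisted coefficients -/
noncomputable def tt (i : ℕ) {r : ℕ} (f : Fin r → (MvPolynomial σ ℤ)[X]) (A : Finset (Fin r))
    (y : Pt σ) : ℂ :=
  if ∀ j ∈ A, (2 : MvPolynomial σ ℤ) ∉ y.asIdeal ∧ (f j).leadingCoeff ∉ y.asIdeal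
    then (((mult r i A.card * (∏ j ∈ A, (tH1 y (f j) 1 1 : ℝ)) *
      (Real.sqrt (qy y) ^ A.card)⁻¹ : ℝ)) : ℂ) else 0

/-- the characters -/
noncomputable def ww {r : ℕ} (d : Fin r → MvPolynomial σ ℤ) (τ : ℝ) (A : Finset (Fin r))
    (y : Pt σ) : ℂ := wm (∏ j ∈ A, d j) τ y

theorem sqrt_qy_pos (y : Pt σ) : 0 < Real.sqrt (qy y) := Real.sqrt_pos.2 (qy_pos' y)

theorem norm_tt {i r : ℕ} {f : Fin r → (MvPolynomial σ ℤ)[X]} (hodd : ∀ j, Odd (f j).natDegree)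
    (h3 : ∀ j, 3 ≤ (f j).natDegree) (A : Finset (Fin r)) (y : Pt σ) :
    ‖tt i f A y‖ ≤ bb i f A := by
  unfold tt
  split_ifs with h
  · have h1 := prod_bd A (fun j => (tH1 y (f j) 1 1 : ℝ)) (q := (qy y : ℝ)) (f := f)
      (fun j hj => by
        have := tH1_bound (hodd j) (h j hj).1 (h j hj).2 (one_not_mem y) 1 one_ne_zero
        rwa [pow_one] at this)
    rw [Complex.norm_real, Real.norm_eq_abs, abs_mul, abs_mul, abs_of_nonneg
      (Nat.cast_nonneg (mult r i A.card)), abs_of_nonneg (by positivity : (0 : ℝ) ≤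
        (Real.sqrt (qy y) ^ A.card)⁻¹), ← div_eq_mul_inv,
      div_le_iff₀ (pow_pos (sqrt_qy_pos y) _)]
    unfold bb
    rw [mul_assoc]
    exact mul_le_mul_of_nonneg_left h1 (Nat.cast_nonneg _)
  · rw [norm_zero]
    exact bb_nonneg h3 A

open Classical in
/-- the normalized coefficients -/
noncomputable def aa (i : ℕ) {r : ℕ} (f : Fin r → (MvPolynomial σ ℤ)[X])
    (d : Fin r → MvPolynomial σ ℤ) (N : MvPolynomial σ ℤ) (τ : ℝ) (y : Pt σ) : ℂ :=
  if N ∉ y.asIdeal then (((tH i y f d 1 : ℝ) * (Real.sqrt (qy y) ^ i)⁻¹ : ℝ) : ℂ) *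
    ((qy y : ℕ) : ℂ) ^ (-((τ : ℂ) * I)) else 0

theorem norm_cpow_neg (y : Pt σ) (τ : ℝ) : ‖((qy y : ℕ) : ℂ) ^ (-((τ : ℂ) * I))‖ = 1 := by
  have := norm_qI y (-τ)
  rw [Complex.ofReal_neg, neg_mul] at this
  exact this

theorem norm_aa {i r : ℕ} {f : Fin r → (MvPolynomial σ ℤ)[X]} (hodd : ∀ j, Odd (f j).natDegree)
    (h3 : ∀ j, 3 ≤ (f j).natDegree) {d : Fin r → MvPolynomial σ ℤ} {N : MvPolynomial σ ℤ}
    (hS : ∀ y : Pt σ, N ∉ y.asIdeal → Gd f d y) (τ : ℝ) (y : Pt σ) :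
    ‖aa i f d N τ y‖ ≤ mult0 r i + ∑ A ∈ idx r i, bb i f A := by
  have hb : 0 ≤ ∑ A ∈ idx r i, bb i f A := Finset.sum_nonneg fun A _ => bb_nonneg h3 A
  unfold aa
  by_cases h : N ∉ y.asIdeal
  · rw [if_pos h]
    have h1 := tH_bound (i := i) hodd (hS y h) 1 one_ne_zero
    rw [pow_one] at h1
    rw [norm_mul, norm_cpow_neg, mul_one, Complex.norm_real, Real.norm_eq_abs, abs_mul,
      abs_of_nonneg (by positivity : (0 : ℝ) ≤ (Real.sqrt (qy y) ^ i)⁻¹), ← div_eq_mul_inv,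
      div_le_iff₀ (pow_pos (sqrt_qy_pos y) _)]
    exact h1
  · rw [if_neg h, norm_zero]
    positivity

theorem ch_one (y : Pt σ) : ch (1 : MvPolynomial σ ℤ) y = 1 := by
  classical
  let _ := Fintype.ofFinite (Res y)
  rw [ch, qc_eq, map_one, map_one]

theorem ch_prod {r : ℕ} (d : Fin r → MvPolynomial σ ℤ) (A : Finset (Fin r)) (y : Pt σ) :
    ch (∏ j ∈ A, d j) y = ∏ j ∈ A, ch (d j) y := by
  classical
  induction A using Finset.induction_on with
  | empty => rw [Finset.prod_empty, Finset.prod_empty, ch_one]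
  | insert a s ha ih => rw [Finset.prod_insert ha, Finset.prod_insert ha, ch_mul, ih]

theorem aa_eq {i r : ℕ} {f : Fin r → (MvPolynomial σ ℤ)[X]} {d : Fin r → MvPolynomial σ ℤ}
    {N : MvPolynomial σ ℤ} (hS : ∀ y : Pt σ, N ∉ y.asIdeal → Gd f d y) (τ : ℝ)
    {y : Pt σ} (hv : N ∉ y.asIdeal) :
    (aa i f d N τ y).re = mult0 r i * (((qy y : ℕ) : ℂ) ^ (-((τ : ℂ) * I))).re +
      ∑ A ∈ idx r i, (tt i f A y * conj (ww d τ A y)).re := by
  have hg := hS y hv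
  have hs := sqrt_qy_pos y
  have hq := (qy_pos' y).le
  have hreal : (tH i y f d 1 : ℝ) * (Real.sqrt (qy y) ^ i)⁻¹ = mult0 r i +
      ∑ A ∈ idx r i, (mult r i A.card * (∏ j ∈ A, (tH1 y (f j) 1 1 : ℝ)) *
      (Real.sqrt (qy y) ^ A.card)⁻¹) * (ch (∏ j ∈ A, d j) y : ℝ) := by
    rw [tH_eq]
    push_cast
    rw [pow_one, add_mul, Finset.sum_mul]
    congr 1
    · by_cases hi : Even i
      · rw [sqrt_pow_even hq hi, mul_assoc, mul_inv_cancel₀ (pow_pos hs _).ne', mul_one]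
      · unfold mult0
        rw [if_neg hi]
        simp
    · refine Finset.sum_congr rfl fun A hA => ?_
      obtain ⟨-, h2, h3⟩ := idx_mem hA
      rw [sqrt_pow_even hq h3]
      have h4 : Real.sqrt (qy y) ^ i = Real.sqrt (qy y) ^ (i - A.card) *
          Real.sqrt (qy y) ^ A.card := by
        rw [← pow_add, Nat.sub_add_cancel h2]
      have h5 : ∏ j ∈ A, (tH1 y (f j) (d j) 1 : ℝ) =
          (∏ j ∈ A, (tH1 y (f j) 1 1 : ℝ)) * (ch (∏ j ∈ A, d j) y : ℝ) := by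
        rw [ch_prod, Int.cast_prod, ← Finset.prod_mul_distrib]
        refine Finset.prod_congr rfl fun j _ => ?_
        rw [tH1_one (hg j).1 (hg j).2.1]
        push_cast
        ring
      rw [h4, h5, mul_inv]
      have h6 := (pow_pos hs (i - A.card)).ne'
      field_simp
  have h1 : aa i f d N τ y = mult0 r i * ((qy y : ℕ) : ℂ) ^ (-((τ : ℂ) * I)) +
      ∑ A ∈ idx r i, tt i f A y * conj (ww d τ A y) := by
    unfold aa
    rw [if_pos hv, hreal, Complex.ofReal_add, add_mul, Complex.ofReal_sum, Finset.sum_mul]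
    congr 1
    refine Finset.sum_congr rfl fun A _ => ?_
    unfold tt ww
    rw [if_pos fun j _ => ⟨(hg j).1, (hg j).2.2⟩, conj_wm]
    push_cast
    ring
  rw [h1, Complex.add_re, Complex.re_sum]
  congr 1
  have : (mult0 r i : ℂ) = ((mult0 r i : ℝ) : ℂ) := by push_cast; rfl
  rw [this, Complex.re_ofReal_mul]

end Pool.Agent.H126V.Pr
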