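import Pool.Agent.H126V.PA

/-! Products of quadratic twists of hyperelliptic curves over `ℚ(t_σ)`: the main theorem. -/

set_option autoImplicit false

namespace Pool.Agent.H126V.Pr

open Filter Topology Pool.Agent.H341R2 ComplexConjugate Complex Polynomial Pool.Agent.H126V
open Pool.Agent.H126R3 (Pt Res qy pk)
open Pool.Agent.H126U (idx mult mult0 mult_pos kuenneth idx_mem sqrt_pow_even sqrt_pow_rpow)
open Pool.Agent.H126T (affPts trace_bound trace_one final_bound log_inv_tendsto)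

theorem E_dom (S : NormSys) (F z0 : S.X → ℝ) {K : ℝ} (hz : ∀ p, |z0 p| ≤ 1)
    (hF : ∀ p, |F p| ≤ K * z0 p) {ε : ℝ} (hε : 0 < ε) : |S.E ε F| ≤ K * S.E ε z0 := by
  have h1 := (S.summable_E hε hz).mul_left K
  have h2 := tsum_of_norm_bounded h1.hasSum (f := fun p => F p * (S.N p : ℝ) ^ (-(1 + ε))) (by
    intro p
    have hw := S.w_nonneg ε p
    rw [Real.norm_eq_abs, abs_mul, abs_of_nonneg hw, ← mul_assoc]
    exact mul_le_mul_of_nonneg_right (hF p) hw)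
  rw [Real.norm_eq_abs, tsum_mul_left] at h2
  exact h2

theorem mean_diffZ (S : NormSys) {J : Type*} (P : Finset J) (Bad : S.X → Prop)
    [DecidablePred Bad] (a y : S.X → ℝ)
    (z : J → S.X → ℝ) (c A Y : ℝ) (Z : J → ℝ) (ha : ∀ p, |a p| ≤ A) (hy : ∀ p, |y p| ≤ Y)
    (hz : ∀ j ∈ P, ∀ p, |z j p| ≤ Z j)
    (heq : ∀ p, ¬ Bad p → a p = c * y p + ∑ j ∈ P, z j p) {ε : ℝ} (hε : 0 < ε) :
    |S.E ε a - c * S.E ε y - ∑ j ∈ P, S.E ε (z j)| ≤
      (A + (|c| * Y + ∑ j ∈ P, Z j)) * S.E ε (fun p => if Bad p then 1 else 0) := by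
  have h1 : ∀ p, |(-c) * y p| ≤ |c| * Y := by
    intro p
    rw [abs_mul, abs_neg]
    exact mul_le_mul_of_nonneg_left (hy p) (abs_nonneg _)
  have h2 : ∀ j ∈ P, ∀ p, |(-1) * z j p| ≤ Z j := by
    intro j hj p
    rw [abs_mul, abs_neg, abs_one, one_mul]
    exact hz j hj p
  have h3 : ∀ p, |∑ j ∈ P, (-1) * z j p| ≤ ∑ j ∈ P, Z j := fun p =>
    (Finset.abs_sum_le_sum_abs _ _).trans (Finset.sum_le_sum fun j hj => h2 j hj p)
  have h4 : ∀ p, |(-c) * y p + ∑ j ∈ P, (-1) * z j p| ≤ |c| * Y + ∑ j ∈ P, Z j := fun p =>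
    (abs_add_le _ _).trans (add_le_add (h1 p) (h3 p))
  have hE := E_dom S (fun p => a p + ((-c) * y p + ∑ j ∈ P, (-1) * z j p))
    (fun p => if Bad p then 1 else 0) (K := A + (|c| * Y + ∑ j ∈ P, Z j))
    (fun p => by show |(if Bad p then (1 : ℝ) else 0)| ≤ 1; split_ifs <;> simp)
    (fun p => by
      show |a p + ((-c) * y p + ∑ j ∈ P, (-1) * z j p)| ≤ _ * (if Bad p then (1 : ℝ) else 0)
      by_cases hp : Bad p
      · rw [if_pos hp, mul_one]
        exact (abs_add_le _ _).trans (add_le_add (ha p) (h4 p))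
      · rw [if_neg hp, mul_zero, heq p hp, ← Finset.mul_sum]
        have : c * y p + ∑ j ∈ P, z j p + (-c * y p + -1 * ∑ j ∈ P, z j p) = 0 := by ring
        rw [this, abs_zero]) hε
  rw [S.E_add hε ha h4, S.E_add hε h1 h3, S.E_const_mul,
    S.E_sum hε P (fun j p => (-1) * z j p) Z h2] at hE
  have h5 : ∀ j ∈ P, S.E ε (fun p => (-1) * z j p) = -S.E ε (z j) := by
    intro j _
    rw [S.E_const_mul]
    ring
  rw [Finset.sum_congr rfl h5, Finset.sum_neg_distrib] at hE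
  have h6 : S.E ε a - c * S.E ε y - ∑ j ∈ P, S.E ε (z j) =
      S.E ε a + (-c * S.E ε y + -∑ j ∈ P, S.E ε (z j)) := by ring
  rw [h6]
  exact hE

/-- changing the scale -/
theorem rescale2 {κ : Type} (T : Finset κ) (f : κ → ℝ → ℝ) (r : κ → ℝ) {B : ℝ} (hB : 0 ≤ B)
    {c : ℝ} (hc : 0 < c)
    (h : ∀ η : ℝ, 0 < η → ∀ᶠ ε : ℝ in 𝓝[>] 0,
      ∑ k ∈ T, (f k (c * ε) / Real.log (1 / ε) - r k) ^ 2 ≤ B + η) (η : ℝ) (hη : 0 < η) :
    ∀ᶠ ε : ℝ in 𝓝[>] 0, ∑ k ∈ T, (f k ε / Real.log (1 / ε) - r k) ^ 2 ≤ B + η := by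
  have h1 := (tendsto_mul (1 / c) (by positivity)).eventually (h (η / 2) (by positivity))
  have h2 : Tendsto (fun ε : ℝ => Real.log (1 / (1 / c * ε)) / Real.log (1 / ε)) (𝓝[>] 0)
      (𝓝 1) := by
    have h3 : Tendsto (fun ε : ℝ => 1 + Real.log c / Real.log (1 / ε)) (𝓝[>] 0) (𝓝 1) := by
      have h4 : Tendsto (fun ε : ℝ => Real.log c / Real.log (1 / ε)) (𝓝[>] 0) (𝓝 0) :=
        tendsto_const_nhds.div_atTop log_inv_tendsto
      simpa using h4.const_add 1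
    refine h3.congr' ?_
    filter_upwards [self_mem_nhdsWithin, log_inv_tendsto.eventually_gt_atTop 0] with ε h6 h7
    have hε : (0 : ℝ) < ε := h6
    have h8 : 1 / (1 / c * ε) = c * (1 / ε) := by field_simp
    rw [h8, Real.log_mul hc.ne' (by positivity), add_div, div_self h7.ne', add_comm]
  set U : ℝ := B + η / 2 + 1 with hU
  have hU1 : 1 ≤ U := by rw [hU]; linarith
  set R1 : ℝ := ∑ k ∈ T, |r k| with hR1
  set R2 : ℝ := ∑ k ∈ T, (r k) ^ 2 with hR2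
  set G : ℝ → ℝ := fun ρ => ρ ^ 2 * (B + η / 2) + 2 * (|ρ| * |ρ - 1| * U * R1) +
    (ρ - 1) ^ 2 * R2 with hG
  have hGc : Continuous G := by
    rw [hG]
    fun_prop
  have hG1 : G 1 = B + η / 2 := by
    rw [hG]
    simp
  have h3 : Tendsto (fun ε : ℝ => G (Real.log (1 / (1 / c * ε)) / Real.log (1 / ε))) (𝓝[>] 0)
      (𝓝 (B + η / 2)) := by
    have := (hGc.tendsto 1).comp h2
    rwa [hG1] at this
  filter_upwards [h1, h3.eventually (eventually_le_nhds (show B + η / 2 < B + η by linarith)),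
    log_inv_tendsto.eventually_gt_atTop 0,
    ((log_inv_tendsto.comp (tendsto_mul (1 / c) (by positivity))).eventually_gt_atTop 0)]
    with ε h4 h5 h6 h7
  have h7' : 0 < Real.log (1 / (1 / c * ε)) := h7
  refine le_trans ?_ h5
  set ρ : ℝ := Real.log (1 / (1 / c * ε)) / Real.log (1 / ε) with hρ
  set x : κ → ℝ := fun k => f k (c * (1 / c * ε)) / Real.log (1 / (1 / c * ε)) - r k with hx
  have hxU : ∀ k ∈ T, |x k| ≤ U := by
    intro k hk
    have h8 : (x k) ^ 2 ≤ B + η / 2 :=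
      (Finset.single_le_sum (f := fun k => (x k) ^ 2) (fun _ _ => sq_nonneg _) hk).trans h4
    refine abs_le_of_sq_le_sq (h8.trans ?_) (by linarith)
    nlinarith
  have h9 : ∀ k, f k ε / Real.log (1 / ε) - r k = ρ * x k + (ρ - 1) * r k := by
    intro k
    have h10 : c * (1 / c * ε) = ε := by field_simp
    have h11 : f k ε / Real.log (1 / ε) = ρ * (f k ε / Real.log (1 / (1 / c * ε))) := by
      rw [hρ, div_mul_div_comm, mul_comm (Real.log (1 / (1 / c * ε))) (f k ε),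
        mul_div_mul_right _ _ h7'.ne']
    rw [hx]
    simp only [h10]
    rw [h11]
    ring
  have h12 : ∀ k ∈ T, (f k ε / Real.log (1 / ε) - r k) ^ 2 ≤
      ρ ^ 2 * (x k) ^ 2 + 2 * (|ρ| * |ρ - 1| * U * |r k|) + (ρ - 1) ^ 2 * (r k) ^ 2 := by
    intro k hk
    rw [h9]
    have h13 : ρ * x k * ((ρ - 1) * r k) ≤ |ρ| * |ρ - 1| * U * |r k| := by
      refine (le_abs_self _).trans ?_
      rw [abs_mul, abs_mul, abs_mul]
      calc |ρ| * |x k| * (|ρ - 1| * |r k|) = |ρ| * |ρ - 1| * |r k| * |x k| := by ring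
        _ ≤ |ρ| * |ρ - 1| * |r k| * U := mul_le_mul_of_nonneg_left (hxU k hk) (by positivity)
        _ = |ρ| * |ρ - 1| * U * |r k| := by ring
    nlinarith
  refine (Finset.sum_le_sum h12).trans ?_
  rw [Finset.sum_add_distrib, Finset.sum_add_distrib, ← Finset.mul_sum, ← Finset.mul_sum,
    ← Finset.mul_sum, ← Finset.mul_sum]
  show _ ≤ ρ ^ 2 * (B + η / 2) + 2 * (|ρ| * |ρ - 1| * U * R1) + (ρ - 1) ^ 2 * R2
  have h14 := mul_le_mul_of_nonneg_left h4 (sq_nonneg ρ)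
  have h15 : ρ ^ 2 * ∑ k ∈ T, (x k) ^ 2 ≤ ρ ^ 2 * (B + η / 2) := h14
  linarith

variable {σ : Type} [Fintype σ]

theorem N_cpow (y : Pt σ) (z : ℂ) :
    (((sysPt σ).N y : ℕ) : ℂ) ^ z = ((qy y : ℕ) : ℂ) ^ ((dm σ : ℂ) * z) := by
  have h0 := qy_ne y
  have h1 : (((sysPt σ).N y : ℕ) : ℂ) = ((qy y : ℕ) : ℂ) ^ (Fintype.card σ + 1) := by
    show (((qy y) ^ (Fintype.card σ + 1) : ℕ) : ℂ) = _
    push_cast
    rfl
  have h2 : Complex.log (((sysPt σ).N y : ℕ) : ℂ) =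
      (dm σ : ℂ) * Complex.log ((qy y : ℕ) : ℂ) := by
    rw [← Complex.natCast_log, ← Complex.natCast_log]
    show ((Real.log (((qy y) ^ (Fintype.card σ + 1) : ℕ) : ℝ) : ℝ) : ℂ) = _
    rw [Nat.cast_pow, Real.log_pow]
    unfold dm
    push_cast
    ring
  rw [Complex.cpow_def_of_ne_zero (by rw [h1]; exact pow_ne_zero _ h0),
    Complex.cpow_def_of_ne_zero h0, h2]
  congr 1
  ring

theorem ww_orth {r : ℕ} {d e : Fin r → MvPolynomial σ ℤ} (hd : ∀ i, d i ≠ 0) (he : ∀ i, e i ≠ 0)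
    {τ τ' : ℝ} (A : Finset (Fin r)) (h : IsSquare (∏ j ∈ A, (d j * e j)) → τ ≠ τ') :
    (sysPt σ).Negl fun y => (ww d τ A y * conj (ww e τ' A y)).re := by
  unfold ww
  refine wm_orth (Finset.prod_ne_zero_iff.2 fun j _ => hd j)
    (Finset.prod_ne_zero_iff.2 fun j _ => he j) fun h1 => h ?_
  rwa [Finset.prod_mul_distrib]

/-- the mean of the coefficients -/
theorem mean_aa {i r : ℕ} {f : Fin r → (MvPolynomial σ ℤ)[X]} (hodd : ∀ j, Odd (f j).natDegree)
    (h3 : ∀ j, 3 ≤ (f j).natDegree) {d : Fin r → MvPolynomial σ ℤ} {N : MvPolynomial σ ℤ}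
    (hN0 : N ≠ 0)
    (hS : ∀ y : Pt σ, N ∉ y.asIdeal → Gd f d y) (τ : ℝ) {η : ℝ} (hη : 0 < η) :
    ∀ᶠ ε : ℝ in 𝓝[>] 0, |(sysPt σ).E ε (fun y => (aa i f d N τ y).re) -
      (if τ = 0 then (mult0 r i : ℝ) else 0) * (sysPt σ).lam ε -
      ∑ A ∈ idx r i, (sysPt σ).E ε fun y => (tt i f A y * conj (ww d τ A y)).re| ≤
        η * (sysPt σ).lam ε := by
  classical
  set M : ℝ := (mult0 r i : ℝ) with hM
  have hM0 : 0 ≤ M := Nat.cast_nonneg _
  set Bt := ∑ A ∈ idx r i, bb i f A with hBt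
  have hb : 0 ≤ Bt := Finset.sum_nonneg fun A _ => bb_nonneg h3 A
  have hb1 : ∀ (A : Finset (Fin r)) (y : Pt σ), |(tt i f A y * conj (ww d τ A y)).re| ≤
      bb i f A := fun p v => by
    refine (Complex.abs_re_le_norm _).trans ?_
    rw [norm_mul, Complex.norm_conj]
    exact (mul_le_of_le_one_right (norm_nonneg _) (norm_wm _ _ v)).trans
      (norm_tt hodd h3 p v)
  have hb2 : ∀ y : Pt σ, |(((qy y : ℕ) : ℂ) ^ (-((τ : ℂ) * I))).re| ≤ 1 :=
    fun v => (Complex.abs_re_le_norm _).trans (norm_cpow_neg v τ).le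
  have hb3 : ∀ y, |(aa i f d N τ y).re| ≤ M + Bt := fun v =>
    (Complex.abs_re_le_norm _).trans (norm_aa hodd h3 hS τ v)
  obtain ⟨Cz, hCz⟩ := negl_zeros N hN0
  have hmean : ∀ᶠ ε : ℝ in 𝓝[>] 0,
      |M * (sysPt σ).E ε (fun y => (((qy y : ℕ) : ℂ) ^ (-((τ : ℂ) * I))).re) -
        (if τ = 0 then M else 0) * (sysPt σ).lam ε| ≤ η / 2 * (sysPt σ).lam ε := by
    by_cases hτ : τ = 0
    · filter_upwards [(sysPt σ).lam_tendsto.eventually_gt_atTop 0] with ε h1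
      have e1 : (sysPt σ).E ε (fun y => (((qy y : ℕ) : ℂ) ^ (-((τ : ℂ) * I))).re) =
          (sysPt σ).lam ε := by
        unfold NormSys.E NormSys.lam
        refine tsum_congr fun v => ?_
        rw [hτ]
        simp
      rw [e1, if_pos hτ, sub_self, abs_zero]
      positivity
    · have h1 := orth (σ := σ) 1 one_ne_zero τ (Or.inr hτ) (η / 2 / (M + 1)) (by positivity)
      filter_upwards [h1, (sysPt σ).lam_tendsto.eventually_gt_atTop 0] with ε h2 h3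
      have e1 : ∀ y : Pt σ, (ch (1 : MvPolynomial σ ℤ) y : ℝ) * cs τ (qy y) =
          (((qy y : ℕ) : ℂ) ^ (-((τ : ℂ) * I))).re := by
        intro v
        rw [ch_one]
        simp [cs]
      have e2 : (sysPt σ).E ε (fun y => (ch (1 : MvPolynomial σ ℤ) y : ℝ) * cs τ (qy y)) =
          (sysPt σ).E ε (fun y => (((qy y : ℕ) : ℂ) ^ (-((τ : ℂ) * I))).re) :=
        congrArg ((sysPt σ).E ε) (funext e1)
      have h2' : |(sysPt σ).E ε (fun y => (((qy y : ℕ) : ℂ) ^ (-((τ : ℂ) * I))).re)| ≤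
          η / 2 / (M + 1) * (sysPt σ).lam ε := by
        rw [← e2]
        exact h2
      rw [if_neg hτ, zero_mul, sub_zero, abs_mul, abs_of_nonneg hM0]
      calc M * |(sysPt σ).E ε (fun y => (((qy y : ℕ) : ℂ) ^ (-((τ : ℂ) * I))).re)|
          ≤ M * (η / 2 / (M + 1) * (sysPt σ).lam ε) :=
            mul_le_mul_of_nonneg_left h2' hM0
        _ = (M / (M + 1)) * (η / 2 * (sysPt σ).lam ε) := by ring
        _ ≤ 1 * (η / 2 * (sysPt σ).lam ε) := by
            refine mul_le_mul_of_nonneg_right ?_ (by positivity)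
            rw [div_le_one (by positivity)]
            linarith
        _ = η / 2 * (sysPt σ).lam ε := one_mul _
  filter_upwards [hmean, self_mem_nhdsWithin,
    (sysPt σ).lam_tendsto.eventually_ge_atTop
      (2 / η * (((M + Bt) + (|M| * 1 + Bt)) * Cz))] with ε h1 h2 h4
  have hε : (0 : ℝ) < ε := h2
  have hE := mean_diffZ (sysPt σ) (idx r i) (fun y : Pt σ => N ∈ y.asIdeal)
    (fun y => (aa i f d N τ y).re)
    (fun y => (((qy y : ℕ) : ℂ) ^ (-((τ : ℂ) * I))).re)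
    (fun A y => (tt i f A y * conj (ww d τ A y)).re) M (M + Bt) 1 (bb i f) hb3 hb2
    (fun p _ v => hb1 p v) (fun v hv => aa_eq hS τ hv) hε
  have hK : 0 ≤ (M + Bt) + (|M| * 1 + Bt) := by positivity
  have hE2 := hE.trans (mul_le_mul_of_nonneg_left (hCz ε hε) hK)
  have e2 : ((M + Bt) + (|M| * 1 + Bt)) * Cz ≤ η / 2 * (sysPt σ).lam ε := by
    have := mul_le_mul_of_nonneg_left h4 (by positivity : 0 ≤ η / 2)
    have e3 : η / 2 * (2 / η * (((M + Bt) + (|M| * 1 + Bt)) * Cz)) =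
        ((M + Bt) + (|M| * 1 + Bt)) * Cz := by
      field_simp
    rwa [e3] at this
  have e4 := hE2.trans e2
  have e5 : ∀ x y z w l : ℝ, |x - y - z| ≤ η / 2 * l → |y - w| ≤ η / 2 * l →
      |x - w - z| ≤ η * l := by
    intro x y z w l h5 h6
    have e6 : x - w - z = (x - y - z) + (y - w) := by ring
    rw [e6]
    refine (abs_add_le _ _).trans ?_
    linarith
  exact e5 _ _ _ _ _ e4 h1

end Pool.Agent.H126V.Pr
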