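import Pool.Agent.H126V.PB

/-! Products of quadratic twists of hyperelliptic curves over `ℚ(t_σ)`: the main theorem. -/

set_option autoImplicit false

namespace Pool.Agent.H126V.Pr

open Filter Topology Pool.Agent.H341R2 ComplexConjugate Complex Polynomial Pool.Agent.H126V
open Pool.Agent.H126R3 (Pt Res qy pk)
open Pool.Agent.H126U (idx mult mult0 mult_pos kuenneth idx_mem sqrt_pow_even sqrt_pow_rpow)
open Pool.Agent.H126T (affPts trace_bound trace_one final_bound log_inv_tendsto)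

variable {σ : Type} [Fintype σ]

/-- the logarithm of a good factor -/
noncomputable def GG (i : ℕ) {r : ℕ} (f : Fin r → (MvPolynomial σ ℤ)[X])
    (d : Fin r → MvPolynomial σ ℤ) (s : ℂ) (y : Pt σ) : ℂ :=
  ∑' m : ℕ, (tH i y f d (m + 1) : ℂ) * ((qy y : ℕ) : ℂ) ^ (-((m + 1 : ℂ) * s)) / (m + 1 : ℂ)

open Classical in
/-- the Euler product over the points outside `{N = 0}` -/
noncomputable def LQ (i : ℕ) {r : ℕ} (f : Fin r → (MvPolynomial σ ℤ)[X])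
    (d : Fin r → MvPolynomial σ ℤ) (N : MvPolynomial σ ℤ) (s : ℂ) : ℂ :=
  ∏' y : Pt σ, if N ∉ y.asIdeal then
    Complex.exp (∑' m : ℕ, (tH i y f d (m + 1) : ℂ) * ((qy y : ℕ) : ℂ) ^ (-((m + 1 : ℂ) * s)) /
      (m + 1 : ℂ)) else 1

theorem aa_good (i : ℕ) {r : ℕ} (f : Fin r → (MvPolynomial σ ℤ)[X])
    (d : Fin r → MvPolynomial σ ℤ) (N : MvPolynomial σ ℤ) (τ ε : ℝ) {y : Pt σ}
    (hv : N ∉ y.asIdeal) : aa i f d N τ y * ((((sysPt σ).N y : ℝ) ^ (-(1 + ε)) : ℝ) : ℂ) =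
      (tH i y f d 1 : ℂ) *
        ((qy y : ℕ) : ℂ) ^ (-((i : ℂ) / 2 + (dm σ : ℂ) + τ * I + (dm σ * ε : ℝ))) := by
  have h0 := qy_ne y
  have hq := (qy_pos' y).le
  have h1 : (Real.sqrt (qy y) ^ i)⁻¹ = (qy y : ℝ) ^ (-((i : ℝ) / 2)) := by
    have := sqrt_pow_rpow hq i 1
    rw [pow_one, pow_one] at this
    rw [this, Real.rpow_neg hq]
  rw [N_rpow]
  unfold aa
  rw [if_pos hv, h1, Complex.ofReal_mul, Complex.ofReal_cpow hq, Complex.ofReal_cpow hq]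
  push_cast
  rw [mul_assoc, mul_assoc, ← Complex.cpow_add _ _ h0, ← Complex.cpow_add _ _ h0]
  congr 2
  ring

theorem LQ_log {i r : ℕ} {f : Fin r → (MvPolynomial σ ℤ)[X]} (hodd : ∀ j, Odd (f j).natDegree)
    (h3 : ∀ j, 3 ≤ (f j).natDegree) {d : Fin r → MvPolynomial σ ℤ} {N : MvPolynomial σ ℤ}
    (hS : ∀ y : Pt σ, N ∉ y.asIdeal → Gd f d y) (τ : ℝ) :
    ∃ C' : ℝ, ∀ ε : ℝ, 0 < ε →
      LQ i f d N ((i : ℂ) / 2 + (dm σ : ℂ) + τ * I + (dm σ * ε : ℝ)) ≠ 0 ∧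
      |(sysPt σ).E ε (fun y => (aa i f d N τ y).re) -
        Real.log ‖LQ i f d N ((i : ℂ) / 2 + (dm σ : ℂ) + τ * I + (dm σ * ε : ℝ))‖| ≤ C' := by
  classical
  set Bt : ℝ := mult0 r i + ∑ A ∈ idx r i, bb i f A with hBt
  have hb : 0 ≤ Bt := add_nonneg (Nat.cast_nonneg _) (Finset.sum_nonneg fun A _ => bb_nonneg h3 A)
  refine ⟨|2 * Bt| * (sysPt σ).K2, fun ε hε => ?_⟩
  set s : ℂ := (i : ℂ) / 2 + (dm σ : ℂ) + τ * I + (dm σ * ε : ℝ) with hs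
  have hd0 := dm_pos (σ := σ)
  have hdc : (dm σ : ℂ) ≠ 0 := by exact_mod_cast hd0.ne'
  have hsre : s.re = (i : ℝ) / 2 + dm σ + dm σ * ε := by
    have h2 : ((i : ℂ) / 2) = (((i : ℝ) / 2 : ℝ) : ℂ) := by push_cast; rfl
    rw [hs, h2, Complex.add_re, Complex.add_re, Complex.add_re, Complex.ofReal_re,
      Complex.ofReal_re, Complex.ofReal_re]
    simp
  obtain ⟨hsum, hbd⟩ := (sysPt σ).summable_and_bound (Good := fun y : Pt σ => N ∉ y.asIdeal) hε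
    (GG i f d s) (aa i f d N τ) (C := 2 * Bt) (K := Bt)
    (fun y => norm_aa hodd h3 hS τ y) (fun y hy => by
      unfold aa
      rw [if_neg hy]) (by
      intro y hy
      have h1 := (sysPt σ).goodLog_bound (fun m => (tH i y f d m : ℂ)) Bt ((i : ℝ) / 2 / dm σ)
        hb y (by
          intro m
          have h2 := tH_bound (i := i) hodd (hS y hy) (m + 1) (by omega)
          rw [sqrt_pow_rpow (qy_pos' y).le] at h2
          rw [Complex.norm_intCast, N_rpow, mul_div_cancel₀ _ hd0.ne']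
          exact h2) (s / dm σ) (by
          rw [Complex.div_ofReal_re, hsre]
          have h5 : ((i : ℝ) / 2 + dm σ + dm σ * ε) / dm σ = (i : ℝ) / 2 / dm σ + 1 + ε := by
            field_simp
          rw [h5]
          linarith)
      have h4 := aa_good i f d N τ ε hy
      rw [← hs] at h4
      rw [h4]
      have h6 : ∀ m : ℕ, (((sysPt σ).N y : ℕ) : ℂ) ^ (-((m + 1 : ℂ) * (s / dm σ))) =
          ((qy y : ℕ) : ℂ) ^ (-((m + 1 : ℂ) * s)) := by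
        intro m
        rw [N_cpow]
        congr 1
        field_simp
      have h7 : (((sysPt σ).N y : ℕ) : ℂ) ^ (-(s / dm σ)) = ((qy y : ℕ) : ℂ) ^ (-s) := by
        rw [N_cpow]
        congr 1
        field_simp
      have h8 : (∑' m : ℕ, (tH i y f d (m + 1) : ℂ) *
          (((sysPt σ).N y : ℕ) : ℂ) ^ (-((m + 1 : ℂ) * (s / dm σ))) / (m + 1 : ℂ)) =
          GG i f d s y := tsum_congr fun m => by rw [h6]
      have h9 : ‖(∑' m : ℕ, (tH i y f d (m + 1) : ℂ) *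
          (((sysPt σ).N y : ℕ) : ℂ) ^ (-((m + 1 : ℂ) * (s / dm σ))) / (m + 1 : ℂ)) -
          (tH i y f d 1 : ℂ) * (((sysPt σ).N y : ℕ) : ℂ) ^ (-(s / dm σ))‖ ≤
          2 * Bt * ((sysPt σ).N y : ℝ) ^ (-2 : ℝ) := h1
      rw [h8, h7] at h9
      exact h9)
  have hprod : LQ i f d N s = cexp (∑' y : Pt σ, if N ∉ y.asIdeal then GG i f d s y else 0) := by
    have h1 := hsum.hasSum.cexp
    refine Eq.trans ?_ h1.tprod_eq
    unfold LQ
    refine tprod_congr fun y => ?_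
    by_cases hy : N ∉ y.asIdeal
    · rw [if_pos hy]
      show _ = cexp (if N ∉ y.asIdeal then _ else _)
      rw [if_pos hy]
      rfl
    · rw [if_neg hy]
      show _ = cexp (if N ∉ y.asIdeal then _ else _)
      rw [if_neg hy, Complex.exp_zero]
  rw [hprod]
  refine ⟨Complex.exp_ne_zero _, ?_⟩
  rw [Complex.norm_exp, Real.log_exp, abs_sub_comm]
  exact hbd

theorem main (i : ℕ) {r : ℕ} (f : Fin r → (MvPolynomial σ ℤ)[X])
    (hodd : ∀ j, Odd (f j).natDegree)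
    (h3 : ∀ j, 3 ≤ (f j).natDegree) {κ : Type} (T : Finset κ)
    (D : κ → Fin r → MvPolynomial σ ℤ) (N : κ → MvPolynomial σ ℤ) (τ : κ → ℝ)
    (hD0 : ∀ k ∈ T, ∀ j, D k j ≠ 0) (hN0 : ∀ k ∈ T, N k ≠ 0)
    (hsep : ∀ k ∈ T, ∀ l ∈ T, k ≠ l → ∀ A ∈ idx r i,
      IsSquare (∏ j ∈ A, (D k j * D l j)) → τ k ≠ τ l)
    (hS : ∀ k ∈ T, ∀ y : Pt σ, N k ∉ y.asIdeal → ∀ j,
      2 * D k j * (f j).leadingCoeff ∉ y.asIdeal) (B : ℕ)
    (hB : B = ∑ A ∈ idx r i, mult r i A.card * ∏ j ∈ A, ((f j).natDegree - 1)) :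
    (∀ η : ℝ, 0 < η → ∀ᶠ ε : ℝ in 𝓝[>] 0,
      ∑ k ∈ T, (Real.log ‖LQ i f (D k) (N k) ((i : ℂ) / 2 + (dm σ : ℂ) + τ k * I + ε)‖ /
        Real.log (1 / ε) - if τ k = 0 then (mult0 r i : ℝ) else 0) ^ 2 ≤ (B : ℝ) ^ 2 + η) ∧
    (∀ m : κ → ℤ, (∀ k ∈ T, ∃ c : ℂ, c ≠ 0 ∧ Tendsto (fun ε : ℝ => (ε : ℂ) ^ (m k) *
        LQ i f (D k) (N k) ((i : ℂ) / 2 + (dm σ : ℂ) + τ k * I + ε)) (𝓝[>] 0) (𝓝 c)) →
      ∑ k ∈ T, (m k - if τ k = 0 then (mult0 r i : ℤ) else 0) ^ 2 ≤ (B : ℤ) ^ 2) := by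
  classical
  have hNb : (B : ℝ) = ∑ A ∈ idx r i, bb i f A := by
    rw [hB]
    push_cast
    refine Finset.sum_congr rfl fun A _ => ?_
    unfold bb
    congr 1
    refine Finset.prod_congr rfl fun j _ => ?_
    rw [Nat.cast_sub (by have := h3 j; omega)]
    push_cast
    ring
  have hG : ∀ k ∈ T, ∀ y : Pt σ, N k ∉ y.asIdeal → Gd f (D k) y := by
    intro k hk v hv j
    have h := hS k hk v hv j
    refine ⟨fun h2 => h ?_, fun h2 => h ?_, fun h2 => h ?_⟩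
    · rw [mul_assoc]
      exact v.asIdeal.mul_mem_right _ h2
    · rw [mul_right_comm]
      exact v.asIdeal.mul_mem_left _ h2
    · exact v.asIdeal.mul_mem_left _ h2
  have hlog : ∀ k ∈ T, ∃ C' : ℝ, ∀ ε : ℝ, 0 < ε →
      LQ i f (D k) (N k) ((i : ℂ) / 2 + (dm σ : ℂ) + τ k * I + (dm σ * ε : ℝ)) ≠ 0 ∧
      |(sysPt σ).E ε (fun y => (aa i f (D k) (N k) (τ k) y).re) -
        Real.log ‖LQ i f (D k) (N k)
          ((i : ℂ) / 2 + (dm σ : ℂ) + τ k * I + (dm σ * ε : ℝ))‖| ≤ C' := fun k hk =>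
    LQ_log hodd h3 (hG k hk) (τ k)
  have hscaled : ∀ η : ℝ, 0 < η → ∀ᶠ ε : ℝ in 𝓝[>] 0,
      ∑ k ∈ T, (Real.log ‖LQ i f (D k) (N k)
        ((i : ℂ) / 2 + (dm σ : ℂ) + τ k * I + (dm σ * ε : ℝ))‖ /
        Real.log (1 / ε) - if τ k = 0 then (mult0 r i : ℝ) else 0) ^ 2 ≤ (B : ℝ) ^ 2 + η := by
    intro η hη
    rw [hNb]
    exact final_bound (sysPt σ) T (idx r i) (tt i f) (fun A k => ww (D k) (τ k) A) (bb i f)
      (fun A hA => bb_pos h3 hA) (fun A _ v => norm_tt hodd h3 A v)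
      (fun A k v => norm_wm _ (τ k) v)
      (fun A hA k hk l hl hkl => ww_orth (hD0 k hk) (hD0 l hl) A (hsep k hk l hl hkl A hA))
      (fun k ε => Real.log ‖LQ i f (D k) (N k)
        ((i : ℂ) / 2 + (dm σ : ℂ) + τ k * I + (dm σ * ε : ℝ))‖)
      (fun k => if τ k = 0 then (mult0 r i : ℝ) else 0) (by
        intro k hk η' hη'
        obtain ⟨C', hC'⟩ := hlog k hk
        filter_upwards [self_mem_nhdsWithin,
          mean_aa (i := i) hodd h3 (hN0 k hk) (hG k hk) (τ k) (half_pos hη'),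
          (sysPt σ).lam_tendsto.eventually_ge_atTop (2 / η' * C')] with ε h0 h2 h4
        have h1 := hC' ε h0
        have e2 : C' ≤ η' / 2 * (sysPt σ).lam ε := by
          have := mul_le_mul_of_nonneg_left h4 (by positivity : 0 ≤ η' / 2)
          have e3 : η' / 2 * (2 / η' * C') = C' := by field_simp
          rwa [e3] at this
        have e5 : ∀ x y w z l : ℝ, |x - y| ≤ η' / 2 * l → |x - w - z| ≤ η' / 2 * l →
            |y - w - z| ≤ η' * l := by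
          intro x y w z l h5 h6
          have e6 : y - w - z = (x - w - z) + -(x - y) := by ring
          rw [e6]
          refine (abs_add_le _ _).trans ?_
          rw [abs_neg]
          linarith
        exact e5 _ _ _ _ _ (h1.2.trans e2) h2) hη
  have hmean : ∀ η : ℝ, 0 < η → ∀ᶠ ε : ℝ in 𝓝[>] 0,
      ∑ k ∈ T, (Real.log ‖LQ i f (D k) (N k) ((i : ℂ) / 2 + (dm σ : ℂ) + τ k * I + ε)‖ /
        Real.log (1 / ε) - if τ k = 0 then (mult0 r i : ℝ) else 0) ^ 2 ≤ (B : ℝ) ^ 2 + η :=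
    rescale2 T (fun k ε => Real.log ‖LQ i f (D k) (N k)
      ((i : ℂ) / 2 + (dm σ : ℂ) + τ k * I + (ε : ℝ))‖)
      (fun k => if τ k = 0 then (mult0 r i : ℝ) else 0) (by positivity) (dm_pos (σ := σ)) hscaled
  refine ⟨hmean, ?_⟩
  intro m hm
  have hne : ∀ k ∈ T, ∀ᶠ ε : ℝ in 𝓝[>] 0,
      LQ i f (D k) (N k) ((i : ℂ) / 2 + (dm σ : ℂ) + τ k * I + ε) ≠ 0 := by
    intro k hk
    obtain ⟨C', hC'⟩ := hlog k hk
    filter_upwards [self_mem_nhdsWithin] with ε h2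
    have hε : (0 : ℝ) < ε := h2
    have h3 := (hC' (ε / dm σ) (div_pos hε (dm_pos (σ := σ)))).1
    have h4 : dm σ * (ε / dm σ) = ε := mul_div_cancel₀ _ (dm_pos (σ := σ)).ne'
    rw [h4] at h3
    exact h3
  have hlim0 : ∀ k ∈ T, Tendsto (fun ε : ℝ => Real.log ‖LQ i f (D k) (N k)
      ((i : ℂ) / 2 + (dm σ : ℂ) + τ k * I + ε)‖ / Real.log (1 / ε)) (𝓝[>] 0) (𝓝 (m k : ℝ)) := by
    intro k hk
    obtain ⟨c, hc, hlim⟩ := hm k hk
    have h := Pool.Agent.H126U.limit_order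
      (fun ε : ℝ => LQ i f (D k) (N k) ((i : ℂ) / 2 + (dm σ : ℂ) + τ k * I + ε)) (hne k hk)
      (-(m k)) c hc (by simpa using hlim)
    simpa using h
  have hlim : Tendsto (fun ε : ℝ => ∑ k ∈ T,
      (Real.log ‖LQ i f (D k) (N k) ((i : ℂ) / 2 + (dm σ : ℂ) + τ k * I + ε)‖ /
        Real.log (1 / ε) - if τ k = 0 then (mult0 r i : ℝ) else 0) ^ 2) (𝓝[>] 0)
      (𝓝 (∑ k ∈ T, ((m k : ℝ) - if τ k = 0 then (mult0 r i : ℝ) else 0) ^ 2)) :=
    tendsto_finsetSum T fun k hk => ((hlim0 k hk).sub_const _).pow 2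
  have hle : ∀ η : ℝ, 0 < η →
      ∑ k ∈ T, ((m k : ℝ) - if τ k = 0 then (mult0 r i : ℝ) else 0) ^ 2 ≤ (B : ℝ) ^ 2 + η :=
    fun η hη => le_of_tendsto hlim (hmean η hη)
  have hle2 := le_of_forall_pos_le_add hle
  have e1 : ((∑ k ∈ T, (m k - if τ k = 0 then (mult0 r i : ℤ) else 0) ^ 2 : ℤ) : ℝ) =
      ∑ k ∈ T, ((m k : ℝ) - if τ k = 0 then (mult0 r i : ℝ) else 0) ^ 2 := by
    push_cast
    refine Finset.sum_congr rfl fun k _ => ?_
    split_ifs <;> simp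
  rw [← e1] at hle2
  exact_mod_cast hle2

end Pool.Agent.H126V.Pr
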