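import Pool.Agent.H126R3.BoundsB
import Pool.Agent.H126R3.Phi
import Pool.Agent.H341R2.NF.SysK
import Pool.Agent.H341R2.TwistBessel

/-! The closed points of affine space over `ℤ` as a system of norms. -/

set_option autoImplicit false

namespace Pool.Agent.H126V

open Filter Topology Pool.Agent.H341R2
open Pool.Agent.H126R3 (Pt Res qy pk Yc Qc Qc_pos qy_Qc summable_y summable_Q card_Yc_le exists_F
  sum_fib pk_zero)

variable {σ : Type} [Fintype σ]

/-- the average over the points with coordinates in the prime field -/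
noncomputable def avg (g : Pt σ → ℝ) (p : Nat.Primes) : ℝ :=
  (∑ y : Yc (σ := σ) (p, 0), g y.1) * ((p : ℕ) : ℝ) ^ (-(Fintype.card σ : ℝ))

/-- the contribution of the points of degree at least two -/
noncomputable def C0 : ℝ := ∑' c : Nat.Primes × ℕ, if 1 ≤ c.2 then (Qc c : ℝ) ^ (-1 : ℝ) else 0

theorem summable_C0 : Summable fun c : Nat.Primes × ℕ =>
    if 1 ≤ c.2 then (Qc c : ℝ) ^ (-1 : ℝ) else 0 :=
  summable_Q 1 one_pos 1 (by norm_num)

theorem p_pos (p : Nat.Primes) : (0 : ℝ) < ((p : ℕ) : ℝ) := by exact_mod_cast p.2.pos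

theorem raw_sum (g : Pt σ → ℝ) {C : ℝ} (hg : ∀ y, |g y| ≤ C) {ε : ℝ} (hε : 0 < ε) :
    |∑' y : Pt σ, g y * (qy y : ℝ) ^ (-(((Fintype.card σ : ℝ) + 1) * (1 + ε))) -
      E (((Fintype.card σ : ℝ) + 1) * ε) (avg g)| ≤ C * C0 := by
  classical
  have hm : (0 : ℝ) ≤ Fintype.card σ := Nat.cast_nonneg _
  set α : ℝ := ((Fintype.card σ : ℝ) + 1) * (1 + ε) with hα
  have hα1 : (Fintype.card σ : ℝ) + 1 < α := by rw [hα]; nlinarith
  have hsum : Summable fun y : Pt σ => g y * (qy y : ℝ) ^ (-α) := by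
    refine Summable.of_norm_bounded ((summable_y α hα1).mul_left C) fun y => ?_
    rw [Real.norm_eq_abs, abs_mul, abs_of_nonneg (a := (qy y : ℝ) ^ (-α)) (by positivity)]
    exact mul_le_mul_of_nonneg_right (hg y) (by positivity)
  set s : Nat.Primes × ℕ → ℝ := fun c => (∑ y : Yc (σ := σ) c, g y.1) * (Qc c : ℝ) ^ (-α) with hs
  have hC : 0 ≤ C := by
    obtain ⟨F, _, _, hF⟩ := exists_F ((⟨2, Nat.prime_two⟩, 0) : Nat.Primes × ℕ)
    exact (abs_nonneg _).trans (hg (Pool.Agent.H126R3.ptOf (fun _ : σ => (0 : F))))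
  have hsb : ∀ c, |s c| ≤ C * (Qc c : ℝ) ^ (-(α - Fintype.card σ)) := by
    intro c
    have hQ : (0 : ℝ) < Qc c := by exact_mod_cast Qc_pos c
    have h2 := card_Yc_le (σ := σ) c
    have h3 : ((c.1 : ℕ) : ℝ) ^ ((c.2 + 1) * Fintype.card σ) =
        (Qc c : ℝ) ^ ((Fintype.card σ : ℕ) : ℝ) := by
      rw [Real.rpow_natCast, Qc, Nat.cast_pow, pow_mul]
    rw [h3] at h2
    rw [hs, abs_mul, abs_of_nonneg (a := (Qc c : ℝ) ^ (-α)) (by positivity)]
    have h4 : |∑ y : Yc (σ := σ) c, g y.1| ≤ C * (Qc c : ℝ) ^ ((Fintype.card σ : ℕ) : ℝ) := by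
      refine (Finset.abs_sum_le_sum_abs _ _).trans ((Finset.sum_le_card_nsmul _ _ C
        fun y _ => hg _).trans ?_)
      rw [nsmul_eq_mul, Finset.card_univ, mul_comm]
      exact mul_le_mul_of_nonneg_left h2 hC
    calc |∑ y : Yc (σ := σ) c, g y.1| * (Qc c : ℝ) ^ (-α) ≤
        C * (Qc c : ℝ) ^ ((Fintype.card σ : ℕ) : ℝ) * (Qc c : ℝ) ^ (-α) :=
          mul_le_mul_of_nonneg_right h4 (by positivity)
      _ = C * (Qc c : ℝ) ^ (-(α - Fintype.card σ)) := by
          rw [mul_assoc, ← Real.rpow_add hQ]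
          congr 2
          ring
  have hssum : Summable s := by
    have h1 := summable_Q (α - Fintype.card σ) (by linarith) 0 (by push_cast; linarith)
    refine Summable.of_norm_bounded (h1.mul_left C) fun c => ?_
    rw [if_pos (Nat.zero_le _), Real.norm_eq_abs]
    exact hsb c
  have h1 : ∑' y : Pt σ, g y * (qy y : ℝ) ^ (-α) = ∑' c, s c := by
    rw [← (Equiv.sigmaFiberEquiv (pk (σ := σ))).tsum_eq]
    have hsum' := (Equiv.sigmaFiberEquiv (pk (σ := σ))).summable_iff.2 hsum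
    refine (Summable.tsum_sigma' (fun c => (hasSum_fintype (β := Yc (σ := σ) c) _).summable)
      hsum').trans ?_
    refine tsum_congr fun c => ?_
    change ∑' y : Yc (σ := σ) c, g y.1 * (qy y.1 : ℝ) ^ (-α) = _
    rw [tsum_fintype, hs]
    show _ = (∑ y : Yc (σ := σ) c, g y.1) * (Qc c : ℝ) ^ (-α)
    rw [Finset.sum_mul]
    refine Finset.sum_congr rfl fun y _ => ?_
    rw [qy_Qc c y]
  have hinj : Function.Injective fun p : Nat.Primes => ((p, 0) : Nat.Primes × ℕ) :=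
    fun a b h => congrArg Prod.fst h
  have h2 : E (((Fintype.card σ : ℝ) + 1) * ε) (avg g) =
      ∑' c : Nat.Primes × ℕ, if 1 ≤ c.2 then 0 else s c := by
    have h3 := hinj.tsum_eq (f := fun c : Nat.Primes × ℕ => if 1 ≤ c.2 then 0 else s c) (by
      intro c hc
      rw [Function.mem_support] at hc
      refine ⟨c.1, ?_⟩
      have : ¬ 1 ≤ c.2 := fun h => hc (if_pos h)
      exact Prod.ext rfl (by show 0 = c.2; omega))
    rw [← h3]
    unfold E
    refine tsum_congr fun p => ?_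
    have h4 : (Qc ((p, 0) : Nat.Primes × ℕ) : ℝ) = ((p : ℕ) : ℝ) := by
      unfold Qc
      norm_num
    rw [if_neg (by norm_num), hs]
    show _ = (∑ y : Yc (σ := σ) (p, 0), g y.1) * (Qc ((p, 0) : Nat.Primes × ℕ) : ℝ) ^ (-α)
    rw [h4, avg, mul_assoc, ← Real.rpow_add (p_pos p), hα]
    congr 2
    ring
  rw [h1, h2]
  have hs1 : Summable fun c : Nat.Primes × ℕ => if 1 ≤ c.2 then 0 else s c := by
    refine Summable.of_norm_bounded hssum.norm fun c => ?_
    split_ifs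
    · rw [norm_zero]
      exact norm_nonneg _
    · exact le_rfl
  rw [← hssum.tsum_sub hs1]
  have h5 : ∀ c : Nat.Primes × ℕ, s c - (if 1 ≤ c.2 then 0 else s c) =
      if 1 ≤ c.2 then s c else 0 := by
    intro c
    split_ifs <;> ring
  rw [tsum_congr h5]
  unfold C0
  rw [← tsum_mul_left]
  have hb : ∀ c : Nat.Primes × ℕ, ‖(if 1 ≤ c.2 then s c else 0 : ℝ)‖ ≤
      C * (if 1 ≤ c.2 then (Qc c : ℝ) ^ (-1 : ℝ) else 0) := by
    intro c
    split_ifs with h
    · rw [Real.norm_eq_abs]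
      refine (hsb c).trans (mul_le_mul_of_nonneg_left ?_ hC)
      have hQ1 : (1 : ℝ) ≤ Qc c := by exact_mod_cast Qc_pos c
      exact Real.rpow_le_rpow_of_exponent_le hQ1 (by linarith)
    · rw [norm_zero, mul_zero]
  have h6 := tsum_of_norm_bounded (summable_C0.mul_left C).hasSum hb
  rw [Real.norm_eq_abs] at h6
  exact h6

theorem card_Yc_zero (p : Nat.Primes) :
    (Fintype.card (Yc (σ := σ) (p, 0)) : ℝ) = ((p : ℕ) : ℝ) ^ Fintype.card σ := by
  classical
  obtain ⟨F, _, _, hF⟩ := exists_F ((p, 0) : Nat.Primes × ℕ)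
  have h1 := sum_fib (σ := σ) (p, 0) hF (fun _ => 1)
  simp only [Finset.sum_const, Finset.card_univ, nsmul_eq_mul, mul_one, zero_add, Nat.cast_one,
    one_mul] at h1
  rw [← h1]
  have e : {t : σ → F // pk (Pool.Agent.H126R3.ptOf t) = (p, 0)} ≃ (σ → F) :=
    Equiv.subtypeUnivEquiv (pk_zero p hF)
  rw [Fintype.card_congr e, Fintype.card_fun, hF]
  push_cast
  simp

theorem avg_one (p : Nat.Primes) : avg (σ := σ) (fun _ => 1) p = 1 := by
  unfold avg
  rw [Finset.sum_const, Finset.card_univ, nsmul_eq_mul, mul_one, card_Yc_zero,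
    Real.rpow_neg (p_pos p).le, Real.rpow_natCast]
  exact mul_inv_cancel₀ (pow_ne_zero _ (p_pos p).ne')

theorem avg_abs_le {g : Pt σ → ℝ} {C : ℝ} (hg : ∀ y, |g y| ≤ C) (p : Nat.Primes) :
    |avg g p| ≤ C := by
  unfold avg
  rw [abs_mul, abs_of_nonneg (a := ((p : ℕ) : ℝ) ^ (-(Fintype.card σ : ℝ))) (by positivity)]
  have h1 : |∑ y : Yc (σ := σ) (p, 0), g y.1| ≤ C * ((p : ℕ) : ℝ) ^ Fintype.card σ := by
    refine (Finset.abs_sum_le_sum_abs _ _).trans ((Finset.sum_le_card_nsmul _ _ C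
      fun y _ => hg _).trans ?_)
    rw [nsmul_eq_mul, Finset.card_univ, card_Yc_zero, mul_comm]
  calc |∑ y : Yc (σ := σ) (p, 0), g y.1| * ((p : ℕ) : ℝ) ^ (-(Fintype.card σ : ℝ)) ≤
      C * ((p : ℕ) : ℝ) ^ Fintype.card σ * ((p : ℕ) : ℝ) ^ (-(Fintype.card σ : ℝ)) :=
        mul_le_mul_of_nonneg_right h1 (by positivity)
    _ = C := by
        rw [Real.rpow_neg (p_pos p).le, Real.rpow_natCast, mul_assoc,
          mul_inv_cancel₀ (pow_ne_zero _ (p_pos p).ne'), mul_one]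

theorem cpow_N (y : Pt σ) (ε : ℝ) : (((qy y) ^ (Fintype.card σ + 1) : ℕ) : ℝ) ^ (-(1 + ε)) =
    (qy y : ℝ) ^ (-(((Fintype.card σ : ℝ) + 1) * (1 + ε))) := by
  rw [Nat.cast_pow, ← Real.rpow_natCast, ← Real.rpow_mul (Nat.cast_nonneg _)]
  congr 1
  push_cast
  ring

theorem two_le_qy (y : Pt σ) : 2 ≤ qy y := by
  rw [Pool.Agent.H126R3.qy_eq]
  exact (pk y).1.2.two_le.trans (Nat.le_self_pow (Nat.succ_ne_zero _) _)

theorem tendsto_mul (c : ℝ) (hc : 0 < c) : Tendsto (fun ε : ℝ => c * ε) (𝓝[>] 0) (𝓝[>] 0) := by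
  rw [tendsto_nhdsWithin_iff]
  constructor
  · have h : Tendsto (fun ε : ℝ => c * ε) (𝓝 0) (𝓝 (c * 0)) := tendsto_id.const_mul c
    rw [mul_zero] at h
    exact h.mono_left nhdsWithin_le_nhds
  · filter_upwards [self_mem_nhdsWithin] with x hx
    exact mul_pos hc hx

/-- the closed points of affine space as a system of norms -/
noncomputable def sysPt (σ : Type) [Fintype σ] : NormSys where
  X := Pt σ
  N := fun y => (qy y) ^ (Fintype.card σ + 1)
  two_le := fun y => (two_le_qy y).trans (Nat.le_self_pow (Nat.succ_ne_zero _) _)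
  summable := by
    intro r hr
    have hm : (0 : ℝ) ≤ Fintype.card σ := Nat.cast_nonneg _
    have h := summable_y (σ := σ) (((Fintype.card σ : ℝ) + 1) * (-r)) (by nlinarith)
    refine h.congr fun y => ?_
    have h2 := cpow_N y (-1 - r)
    have e1 : -(1 + (-1 - r)) = r := by ring
    rw [e1] at h2
    rw [h2]
    congr 1
    ring
  log_bdd := by
    obtain ⟨C, hC⟩ := lam_bounded
    have hm : (0 : ℝ) < (Fintype.card σ : ℝ) + 1 := by positivity
    refine ⟨1 * C0 + (C + |Real.log ((Fintype.card σ : ℝ) + 1)|), ?_⟩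
    filter_upwards [(tendsto_mul _ hm).eventually hC, self_mem_nhdsWithin] with ε h1 h2
    have hε : (0 : ℝ) < ε := h2
    have h3 := raw_sum (σ := σ) (fun _ => 1) (C := 1) (fun _ => by simp) hε
    have h4 : E (((Fintype.card σ : ℝ) + 1) * ε) (avg (σ := σ) fun _ => 1) =
        lam (((Fintype.card σ : ℝ) + 1) * ε) := by
      unfold E lam
      refine tsum_congr fun p => ?_
      rw [avg_one, one_mul]
    rw [h4] at h3
    have h5 : ∑' y : Pt σ, (((qy y) ^ (Fintype.card σ + 1) : ℕ) : ℝ) ^ (-(1 + ε)) =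
        ∑' y : Pt σ, 1 * (qy y : ℝ) ^ (-(((Fintype.card σ : ℝ) + 1) * (1 + ε))) :=
      tsum_congr fun y => by rw [cpow_N, one_mul]
    rw [h5]
    rw [Real.log_mul hm.ne' hε.ne'] at h1
    have e : ∑' y : Pt σ, 1 * (qy y : ℝ) ^ (-(((Fintype.card σ : ℝ) + 1) * (1 + ε))) +
        Real.log ε = (∑' y : Pt σ, 1 * (qy y : ℝ) ^ (-(((Fintype.card σ : ℝ) + 1) * (1 + ε))) -
          lam (((Fintype.card σ : ℝ) + 1) * ε)) + ((lam (((Fintype.card σ : ℝ) + 1) * ε) +
          (Real.log ((Fintype.card σ : ℝ) + 1) + Real.log ε)) +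
            -Real.log ((Fintype.card σ : ℝ) + 1)) := by ring
    rw [e]
    refine (abs_add_le _ _).trans (add_le_add h3 ((abs_add_le _ _).trans (add_le_add h1 ?_)))
    rw [abs_neg]

theorem E_avg {g : Pt σ → ℝ} {C : ℝ} (hg : ∀ y, |g y| ≤ C) {ε : ℝ} (hε : 0 < ε) :
    |(sysPt σ).E ε g - E (((Fintype.card σ : ℝ) + 1) * ε) (avg g)| ≤ C * C0 := by
  have h := raw_sum g hg hε
  have h1 : (sysPt σ).E ε g =
      ∑' y : Pt σ, g y * (qy y : ℝ) ^ (-(((Fintype.card σ : ℝ) + 1) * (1 + ε))) := by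
    unfold NormSys.E
    refine tsum_congr fun y => ?_
    rw [← cpow_N]
    rfl
  rw [h1]
  exact h

theorem lam_sub : ∀ ε : ℝ, 0 < ε →
    |(sysPt σ).lam ε - lam (((Fintype.card σ : ℝ) + 1) * ε)| ≤ C0 := by
  intro ε hε
  have h := E_avg (σ := σ) (g := fun _ => 1) (C := 1) (fun _ => by simp) hε
  rw [one_mul] at h
  have h1 : (sysPt σ).E ε (fun _ => 1) = (sysPt σ).lam ε := by
    unfold NormSys.E NormSys.lam
    exact tsum_congr fun y => one_mul _
  have h2 : E (((Fintype.card σ : ℝ) + 1) * ε) (avg (σ := σ) fun _ => 1) =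
      lam (((Fintype.card σ : ℝ) + 1) * ε) := by
    unfold E lam
    refine tsum_congr fun p => ?_
    rw [avg_one, one_mul]
  rw [← h1, ← h2]
  exact h

/-- mean value zero can be tested on averages over the fibres -/
theorem negl_of_avg {g : Pt σ → ℝ} {C : ℝ} (hg : ∀ y, |g y| ≤ C) (h : PNegl (avg g)) :
    (sysPt σ).Negl g := by
  intro η hη
  have hm : (0 : ℝ) < (Fintype.card σ : ℝ) + 1 := by positivity
  filter_upwards [(tendsto_mul _ hm).eventually (h (η / 2) (by positivity)), self_mem_nhdsWithin,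
    (sysPt σ).lam_tendsto.eventually_ge_atTop (2 / η * (η / 2 * C0 + C * C0))] with ε h2 h4 h5
  have hε : (0 : ℝ) < ε := h4
  have h6 := E_avg hg hε
  have h7 := abs_sub_abs_le_abs_sub ((sysPt σ).E ε g)
    (E (((Fintype.card σ : ℝ) + 1) * ε) (avg g))
  have h8 := (abs_le.1 (lam_sub (σ := σ) ε hε)).1
  have h9 := mul_le_mul_of_nonneg_left h5 (by positivity : 0 ≤ η / 2)
  have h10 : η / 2 * (2 / η * (η / 2 * C0 + C * C0)) = η / 2 * C0 + C * C0 := by
    field_simp
  rw [h10] at h9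
  have h11 : η / 2 * lam (((Fintype.card σ : ℝ) + 1) * ε) ≤ η / 2 * ((sysPt σ).lam ε + C0) :=
    mul_le_mul_of_nonneg_left (by linarith) (by positivity)
  linarith

end Pool.Agent.H126V
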