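import Pool.Agent.H126U.Joint
import Pool.Agent.H126T.Main

/-! Tauberian averages of the traces on `H²` of products of quadratic twists of curves. -/

set_option autoImplicit false

namespace Pool.Agent.H126V.Taub

open Filter Topology NumberField IsDedekindDomain Pool.Agent.H341R2 Pool.Agent.H341R2.EC
open Pool.Agent.H921R2.TatePole (nm two_le_nm card_above below below_le_nm)
open Pool.Agent.H126U Pool.Agent.H126U.ST Pool.Agent.H126U.JT Pool.Agent.H126T Polynomial

variable {K : Type} [Field K] [NumberField K]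

theorem theta_PX (X : ℕ) : Chebyshev.theta X = ∑ p ∈ PX X, Real.log ((p : ℕ) : ℝ) := by
  rw [sum_PX X (fun n => Real.log (n : ℝ))]
  unfold Chebyshev.theta
  rw [Nat.floor_natCast]
  refine Finset.sum_congr ?_ fun _ _ => rfl
  ext p
  simp only [Finset.mem_filter, Finset.mem_Ioc, Finset.mem_range]
  constructor
  · rintro ⟨⟨_, h1⟩, h2⟩
    exact ⟨by omega, h2⟩
  · rintro ⟨h1, h2⟩
    exact ⟨⟨h2.pos, by omega⟩, h2⟩

theorem pi_log : Tendsto (fun X : ℕ => (Nat.primeCounting X : ℝ) * Real.log X / X) atTop (𝓝 1) := by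
  have h := Pool.Agent.Helper923.PNT.pi_tendsto.comp (tendsto_natCast_atTop_atTop (R := ℝ))
  refine h.congr fun X => ?_
  simp

theorem logdiff : Tendsto (fun X : ℕ => (∑ v ∈ VX K X, (Real.log X - Real.log (nm v))) / X) atTop
    (𝓝 0) := by
  classical
  have h1 : Tendsto (fun X : ℕ => (Module.finrank ℚ K : ℝ) *
      ((Nat.primeCounting X : ℝ) * Real.log X / X - Chebyshev.theta X / X)) atTop (𝓝 0) := by
    have h2 : Tendsto (fun X : ℕ => Chebyshev.theta X / X) atTop (𝓝 1) :=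
      Pool.Agent.Helper923.PNT.theta_div_tendsto.comp (tendsto_natCast_atTop_atTop (R := ℝ))
    have h3 := (pi_log.sub h2).const_mul (Module.finrank ℚ K : ℝ)
    simpa using h3
  refine squeeze_zero' ?_ ?_ h1
  · filter_upwards [eventually_ge_atTop 1] with X hX
    refine div_nonneg (Finset.sum_nonneg fun v hv => ?_) (Nat.cast_nonneg _)
    rw [mem_VX] at hv
    have hq : (0 : ℝ) < nm v := by
      have := two_le_nm v
      exact_mod_cast (by omega : 0 < nm v)
    have : Real.log (nm v) ≤ Real.log X := Real.log_le_log hq (by exact_mod_cast hv)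
    linarith
  · filter_upwards [eventually_ge_atTop 1] with X hX
    have hX0 : (0 : ℝ) < X := by exact_mod_cast hX
    rw [← sub_div, ← mul_div_assoc]
    refine div_le_div_of_nonneg_right ?_ hX0.le
    have hmaps : ∀ v ∈ VX K X, below v ∈ PX X := by
      intro v hv
      rw [mem_VX] at hv
      rw [mem_PX]
      exact (below_le_nm v).trans hv
    rw [← Finset.sum_fiberwise_of_maps_to hmaps, theta_PX, ← card_PX]
    have h4 : ∀ p ∈ PX X, ∑ v ∈ (VX K X).filter (fun v => below v = p),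
        (Real.log X - Real.log (nm v)) ≤ (Module.finrank ℚ K : ℝ) *
          (Real.log X - Real.log ((p : ℕ) : ℝ)) := by
      intro p hp
      rw [mem_PX] at hp
      have hp0 : (0 : ℝ) < ((p : ℕ) : ℝ) := by exact_mod_cast p.2.pos
      have hlp : 0 ≤ Real.log X - Real.log ((p : ℕ) : ℝ) := by
        have : Real.log ((p : ℕ) : ℝ) ≤ Real.log X := Real.log_le_log hp0 (by exact_mod_cast hp)
        linarith
      refine (Finset.sum_le_card_nsmul _ _ (Real.log X - Real.log ((p : ℕ) : ℝ)) ?_).trans ?_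
      · intro v hv
        rw [Finset.mem_filter] at hv
        have h5 : ((p : ℕ) : ℝ) ≤ nm v := by
          rw [← hv.2]
          exact_mod_cast below_le_nm v
        have := Real.log_le_log hp0 h5
        linarith
      · rw [nsmul_eq_mul]
        refine mul_le_mul_of_nonneg_right ?_ hlp
        have := card_above p ((VX K X).filter (fun v => below v = p))
          fun v hv => (Finset.mem_filter.1 hv).2
        exact_mod_cast this
    refine (Finset.sum_le_sum h4).trans (le_of_eq ?_)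
    rw [← Finset.mul_sum, Finset.sum_sub_distrib, Finset.sum_const, nsmul_eq_mul]

/-- logarithmically weighted averages -/
noncomputable def LA (S : Finset (HeightOneSpectrum (𝓞 K))) (X : ℕ)
    (φ : HeightOneSpectrum (𝓞 K) → ℝ) : ℝ := (∑ v ∈ VS S X, φ v * Real.log (nm v)) / X

theorem card_log (S : Finset (HeightOneSpectrum (𝓞 K))) :
    Tendsto (fun X : ℕ => ((VS S X).card : ℝ) * Real.log X / X) atTop (𝓝 1) := by
  have hpi : Tendsto (fun X : ℕ => (Nat.primeCounting X : ℝ)) atTop atTop :=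
    tendsto_natCast_atTop_atTop.comp Nat.tendsto_primeCounting
  have h := (card_VS S).mul pi_log
  rw [one_mul] at h
  refine h.congr' ?_
  filter_upwards [hpi.eventually_gt_atTop 0] with X hX
  have h0 := hX.ne'
  rw [← mul_div_assoc, ← mul_assoc, div_mul_cancel₀ _ h0]

theorem LA_mn (S : Finset (HeightOneSpectrum (𝓞 K))) {φ : HeightOneSpectrum (𝓞 K) → ℝ} {B : ℝ}
    (hB : 0 ≤ B) (hφ : ∀ v, v ∉ S → |φ v| ≤ B) :
    Tendsto (fun X : ℕ => LA S X φ - mn (VS S X) φ) atTop (𝓝 0) := by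
  classical
  have h1 : Tendsto (fun X : ℕ => B * |((VS S X).card : ℝ) * Real.log X / X - 1| +
      B * ((∑ v ∈ VX K X, (Real.log X - Real.log (nm v))) / X)) atTop (𝓝 0) := by
    have h2 := ((card_log S).sub_const 1).abs.const_mul B
    have h3 := (logdiff (K := K)).const_mul B
    have h4 := h2.add h3
    simpa using h4
  refine squeeze_zero_norm' ?_ h1
  filter_upwards [(tendsto_card_VS S).eventually_gt_atTop 0, eventually_ge_atTop 1] with X hm hX
  have hX0 : (0 : ℝ) < X := by exact_mod_cast hX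
  have hφ' : ∀ v ∈ VS S X, |φ v| ≤ B := fun v hv => hφ v (Finset.mem_filter.1 hv).2
  have e1 : LA S X φ - mn (VS S X) φ =
      mn (VS S X) φ * (((VS S X).card : ℝ) * Real.log X / X - 1) -
        (∑ v ∈ VS S X, φ v * (Real.log X - Real.log (nm v))) / X := by
    have e2 : ∑ v ∈ VS S X, φ v * (Real.log X - Real.log (nm v)) =
        (∑ v ∈ VS S X, φ v) * Real.log X - ∑ v ∈ VS S X, φ v * Real.log (nm v) := by
      rw [Finset.sum_mul, ← Finset.sum_sub_distrib]
      refine Finset.sum_congr rfl fun v _ => ?_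
      ring
    have e3 : ∑ v ∈ VS S X, φ v = mn (VS S X) φ * ((VS S X).card : ℝ) := by
      unfold mn
      exact (div_mul_cancel₀ _ hm.ne').symm
    rw [e2, e3]
    unfold LA
    field_simp
    ring
  rw [e1, Real.norm_eq_abs]
  refine (abs_sub _ _).trans (add_le_add ?_ ?_)
  · rw [abs_mul]
    exact mul_le_mul_of_nonneg_right (mn_abs_le _ hB hφ') (abs_nonneg _)
  · rw [abs_div, abs_of_pos hX0, ← mul_div_assoc]
    refine div_le_div_of_nonneg_right ?_ hX0.le
    rw [Finset.mul_sum]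
    refine (Finset.abs_sum_le_sum_abs _ _).trans ?_
    refine le_trans (Finset.sum_le_sum (g := fun v => B * (Real.log X - Real.log (nm v)))
      fun v hv => ?_) ?_
    · have hv' : nm v ≤ X := (mem_VX K).1 (Finset.mem_filter.1 hv).1
      have hq : (0 : ℝ) < nm v := by
        have := two_le_nm v
        exact_mod_cast (by omega : 0 < nm v)
      have h5 : Real.log (nm v) ≤ Real.log X := Real.log_le_log hq (by exact_mod_cast hv')
      rw [abs_mul, abs_of_nonneg (a := Real.log X - Real.log (nm v)) (by linarith)]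
      exact mul_le_mul_of_nonneg_right (hφ' v hv) (by linarith)
    · refine Finset.sum_le_sum_of_subset_of_nonneg (Finset.filter_subset _ _) fun v hv _ => ?_
      have hv' : nm v ≤ X := (mem_VX K).1 hv
      have hq : (0 : ℝ) < nm v := by
        have := two_le_nm v
        exact_mod_cast (by omega : 0 < nm v)
      have h5 : Real.log (nm v) ≤ Real.log X := Real.log_le_log hq (by exact_mod_cast hv')
      exact mul_nonneg hB (by linarith)

/-- Bessel's inequality for sums of several correlations -/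
theorem bessel_sum {κ J : Type} (T : Finset κ) (P : Finset J)
    (t : J → HeightOneSpectrum (𝓞 K) → ℝ) (b : J → ℝ) (hb : ∀ j ∈ P, 0 < b j)
    (ht : ∀ j ∈ P, ∀ v, |t j v| ≤ b j) (e : κ → J → 𝓞 K)
    (he : ∀ k ∈ T, ∀ j ∈ P, e k j ≠ 0)
    (hsep : ∀ k ∈ T, ∀ l ∈ T, k ≠ l → ∀ j ∈ P, ¬ IsSquare ((e k j * e l j : 𝓞 K) : K))
    (η : ℝ) (hη : 0 < η) :
    ∀ᶠ X : ℕ in atTop, ∑ k ∈ T, (∑ j ∈ P, mn (VS ∅ X) (fun v => t j v * (chi (e k j) v : ℝ))) ^ 2
      ≤ (∑ j ∈ P, b j) ^ 2 + η := by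
  classical
  rcases P.eq_empty_or_nonempty with h0 | hPne
  · subst h0
    refine Filter.Eventually.of_forall fun X => ?_
    simp only [Finset.sum_empty]
    simp
    exact hη.le
  set B : ℝ := ∑ j ∈ P, b j with hBdef
  have hB : 0 < B := Finset.sum_pos hb hPne
  set M : ℝ := B * ∑ j ∈ P, (T.card : ℝ) ^ 2 * b j ^ 2 / b j + 1 with hM
  have hM0 : 0 < M := by
    have : 0 ≤ ∑ j ∈ P, (T.card : ℝ) ^ 2 * b j ^ 2 / b j :=
      Finset.sum_nonneg fun j hj => by have := hb j hj; positivity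
    positivity
  set δ : ℝ := η / M with hδ
  have hδ0 : 0 < δ := by positivity
  have ev : ∀ᶠ X : ℕ in atTop, ∀ j ∈ P, ∀ k ∈ T, ∀ l ∈ T, k ≠ l →
      |mn (VS (K := K) ∅ X) (fun v => (chi (e k j) v : ℝ) * (chi (e l j) v : ℝ))| ≤ δ := by
    rw [Filter.eventually_all_finset]
    intro j hj
    rw [Filter.eventually_all_finset]
    intro k hk
    rw [Filter.eventually_all_finset]
    intro l hl
    by_cases hkl : k = l
    · exact Filter.Eventually.of_forall fun _ h => absurd hkl h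
    · have h3 := mn_VS ∅ (fun v => chi_abs _ v)
        (chi_mean (mul_ne_zero (he k hk j hj) (he l hl j hj)) (hsep k hk l hl hkl j hj))
      have h4 : (fun v => (chi (e k j) v : ℝ) * (chi (e l j) v : ℝ)) =
          fun v => ((chi (e k j * e l j) v : ℤ) : ℝ) := by
        funext v
        rw [chi_mul]
        push_cast
        rfl
      rw [h4]
      filter_upwards [Metric.tendsto_nhds.1 h3 δ hδ0] with X hX _
      rw [Real.dist_eq, sub_zero] at hX
      exact hX.le
  filter_upwards [ev] with X hX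
  have h1 : ∀ k ∈ T, (∑ j ∈ P, mn (VS ∅ X) (fun v => t j v * (chi (e k j) v : ℝ))) ^ 2 ≤
      B * ∑ j ∈ P, mn (VS ∅ X) (fun v => t j v * (chi (e k j) v : ℝ)) ^ 2 / b j := by
    intro k _
    have h2 := Finset.sum_sq_le_sum_mul_sum_of_sq_eq_mul P (r := fun j =>
      mn (VS ∅ X) (fun v => t j v * (chi (e k j) v : ℝ))) (f := b)
      (g := fun j => mn (VS ∅ X) (fun v => t j v * (chi (e k j) v : ℝ)) ^ 2 / b j)
      (fun j hj => (hb j hj).le) (fun j hj => by have := hb j hj; positivity)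
      (fun j hj => by
        have := (hb j hj).ne'
        field_simp)
    exact h2
  refine (Finset.sum_le_sum h1).trans ?_
  rw [← Finset.mul_sum, Finset.sum_comm]
  have h3 : ∀ j ∈ P, ∑ k ∈ T, mn (VS ∅ X) (fun v => t j v * (chi (e k j) v : ℝ)) ^ 2 / b j ≤
      b j + (T.card : ℝ) ^ 2 * b j ^ 2 / b j * δ := by
    intro j hj
    have hbj := hb j hj
    rw [← Finset.sum_div, div_le_iff₀ hbj]
    have h4 := bessel (VS ∅ X) T (t j) (fun k v => (chi (e k j) v : ℝ)) hbj.le hδ0.le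
      (fun v _ => ht j hj v) (fun k v _ => chi_abs _ v)
      (fun k hk l hl hkl => hX j hj k hk l hl hkl)
    have h5 : mn (VS ∅ X) (fun v => t j v ^ 2) ≤ b j ^ 2 := by
      refine mn_le _ (sq_nonneg _) fun v _ => ?_
      rw [← sq_abs]
      exact pow_le_pow_left₀ (abs_nonneg _) (ht j hj v) 2
    refine h4.trans ((add_le_add h5 le_rfl).trans (le_of_eq ?_))
    field_simp
  have h6 : ∑ j ∈ P, (b j + (T.card : ℝ) ^ 2 * b j ^ 2 / b j * δ) =
      B + (∑ j ∈ P, (T.card : ℝ) ^ 2 * b j ^ 2 / b j) * δ := by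
    rw [Finset.sum_add_distrib, Finset.sum_mul]
  have h7 : M * δ = η := by
    rw [hδ]
    field_simp
  have h8 : B * ((∑ j ∈ P, (T.card : ℝ) ^ 2 * b j ^ 2 / b j) * δ) ≤ η := by
    have : B * ((∑ j ∈ P, (T.card : ℝ) ^ 2 * b j ^ 2 / b j) * δ) + δ = M * δ := by
      rw [hM]
      ring
    linarith
  calc B * ∑ j ∈ P, ∑ k ∈ T,
        mn (VS ∅ X) (fun v => t j v * (chi (e k j) v : ℝ)) ^ 2 / b j
      ≤ B * (B + (∑ j ∈ P, (T.card : ℝ) ^ 2 * b j ^ 2 / b j) * δ) := by
        rw [← h6]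
        exact mul_le_mul_of_nonneg_left (Finset.sum_le_sum h3) hB.le
    _ = B ^ 2 + B * ((∑ j ∈ P, (T.card : ℝ) ^ 2 * b j ^ 2 / b j) * δ) := by ring
    _ ≤ B ^ 2 + η := by linarith

open Classical in
/-- the untwisted coefficients -/
noncomputable def tr' {r : ℕ} (f : Fin r → (𝓞 K)[X]) (p : Fin r × Fin r)
    (v : HeightOneSpectrum (𝓞 K)) : ℝ :=
  if (2 : 𝓞 K) ∉ v.asIdeal ∧ (f p.1).leadingCoeff ∉ v.asIdeal ∧ (f p.2).leadingCoeff ∉ v.asIdeal
    then ((Sv (f p.1) v * Sv (f p.2) v : ℤ) : ℝ) / (nm v : ℝ) else 0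

theorem abs_tr' {r : ℕ} {f : Fin r → (𝓞 K)[X]} (hodd : ∀ i, Odd (f i).natDegree)
    (h3 : ∀ i, 3 ≤ (f i).natDegree) (p : Fin r × Fin r) (v : HeightOneSpectrum (𝓞 K)) :
    |tr' f p v| ≤ bb f p := by
  unfold tr'
  have hq := nm_pos' v
  split_ifs with h
  · rw [abs_div, abs_of_pos hq, div_le_iff₀ hq]
    push_cast
    exact prod_bound h3 p hq.le (Sv_bound (hodd _) h.1 h.2.1) (Sv_bound (hodd _) h.1 h.2.2)
  · rw [abs_zero]
    exact (bb_pos h3 p).le

theorem trace_eq {r : ℕ} {f : Fin r → (𝓞 K)[X]} {d : Fin r → 𝓞 K} {v : HeightOneSpectrum (𝓞 K)}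
    (hg : H126T.Gd f d v) : (traceH2 v f d 1 : ℝ) / (nm v : ℝ) =
      r + ∑ p ∈ pairs r, tr' f p v * (chi (d p.1 * d p.2) v : ℝ) := by
  have hq := nm_pos' v
  unfold traceH2
  push_cast
  rw [pow_one, add_div, mul_div_assoc, div_self hq.ne', mul_one, Finset.sum_div]
  congr 1
  refine Finset.sum_congr rfl fun p _ => ?_
  unfold tr'
  rw [if_pos ⟨(hg p.1).1, (hg p.1).2.2, (hg p.2).2.2⟩, traceH1_one (hg p.1).1 (hg p.1).2.1,
    traceH1_one (hg p.2).1 (hg p.2).2.1, chi_mul]
  push_cast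
  ring

theorem main {r : ℕ} (f : Fin r → (𝓞 K)[X]) (hodd : ∀ i, Odd (f i).natDegree)
    (h3 : ∀ i, 3 ≤ (f i).natDegree) {κ : Type} (d : κ → Fin r → 𝓞 K)
    (hd0 : ∀ k i, d k i ≠ 0)
    (hsep : ∀ k l, k ≠ l → ∀ i j, i < j →
      ¬ IsSquare ((d k i * d k j * d l i * d l j : 𝓞 K) : K))
    (S : κ → Finset (HeightOneSpectrum (𝓞 K)))
    (hS : ∀ k v, v ∉ S k → H126T.Gd f (d k) v) (T : Finset κ) (η : ℝ) (hη : 0 < η) :
    ∀ᶠ X : ℕ in atTop, ∑ k ∈ T,
      (LA (S k) X (fun v => (traceH2 v f (d k) 1 : ℝ) / (nm v : ℝ)) - r) ^ 2 ≤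
        (∑ p ∈ pairs r, bb f p) ^ 2 + η := by
  classical
  set B : ℝ := ∑ p ∈ pairs r, bb f p with hB
  have hB0 : 0 ≤ B := Finset.sum_nonneg fun p _ => (bb_pos h3 p).le
  set ψ : κ → HeightOneSpectrum (𝓞 K) → ℝ := fun k v =>
    ∑ p ∈ pairs r, tr' f p v * (chi (d k p.1 * d k p.2) v : ℝ) with hψ
  have hψb : ∀ k v, |ψ k v| ≤ B := by
    intro k v
    refine (Finset.abs_sum_le_sum_abs _ _).trans (Finset.sum_le_sum fun p _ => ?_)
    rw [abs_mul]
    exact (mul_le_of_le_one_right (abs_nonneg _) (chi_abs _ v)).trans (abs_tr' hodd h3 p v)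
  refine perturb T (fun k X => ∑ p ∈ pairs r, mn (VS ∅ X)
    (fun v => tr' f p v * (chi (d k p.1 * d k p.2) v : ℝ))) _ (fun η' hη' =>
      bessel_sum T (pairs r) (fun p => tr' f p) (fun p => bb f p) (fun p _ => bb_pos h3 p)
        (fun p _ v => abs_tr' hodd h3 p v) (fun k p => d k p.1 * d k p.2)
        (fun k _ p _ => mul_ne_zero (hd0 k _) (hd0 k _)) (fun k _ l _ hkl p hp => ?_) η' hη')
      (fun k _ => ?_) η hη
  · have h1 := hsep k l hkl p.1 p.2 (by
      unfold pairs at hp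
      exact (Finset.mem_filter.1 hp).2)
    have h2 : d k p.1 * d k p.2 * (d l p.1 * d l p.2) =
        d k p.1 * d k p.2 * d l p.1 * d l p.2 := by ring
    rw [h2]
    exact h1
  · have hφ : ∀ v, v ∉ S k → |(traceH2 v f (d k) 1 : ℝ) / (nm v : ℝ)| ≤ r + B := by
      intro v hv
      rw [trace_eq (hS k v hv)]
      refine (abs_add_le _ _).trans (add_le_add ?_ (hψb k v))
      rw [abs_of_nonneg (Nat.cast_nonneg _)]
    have h1 := LA_mn (S k) (φ := fun v => (traceH2 v f (d k) 1 : ℝ) / (nm v : ℝ))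
      (B := r + B) (by positivity) hφ
    have h2 := mn_change' (S k) ∅ (φ := ψ k) (b := B) (hψb k)
    have h4 := h1.add h2
    rw [add_zero] at h4
    refine h4.congr' ?_
    filter_upwards [(tendsto_card_VS (S k)).eventually_gt_atTop 0] with X hX
    have h5 : mn (VS (S k) X) (fun v => (traceH2 v f (d k) 1 : ℝ) / (nm v : ℝ)) =
        r + mn (VS (S k) X) (ψ k) := by
      have h6 := mn_add (VS (S k) X) (fun _ => (r : ℝ)) (ψ k)
      have h7 : mn (VS (S k) X) (fun _ : HeightOneSpectrum (𝓞 K) => (r : ℝ)) = r := by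
        unfold mn
        rw [Finset.sum_const, nsmul_eq_mul, mul_comm]
        exact mul_div_cancel_right₀ _ hX.ne'
      rw [h7] at h6
      rw [← h6]
      refine mn_congr _ fun v hv => ?_
      exact trace_eq (hS k v (Finset.mem_filter.1 hv).2)
    have h8 : mn (VS ∅ X) (ψ k) = ∑ p ∈ pairs r, mn (VS ∅ X)
        (fun v => tr' f p v * (chi (d k p.1 * d k p.2) v : ℝ)) := by
      rw [hψ]
      exact mn_sum (VS ∅ X) (pairs r) _
    rw [h5, h8]
    ring

end Pool.Agent.H126V.Taub
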